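import Pool.Agent.H907.ETNeg

set_option autoImplicit false

/-!
# Graphs which fail the property: colourings from abelian groups
-/

namespace Pool.Agent.H907.ET

open Finset

section cay

variable {A : Type} [AddCommGroup A] [Fintype A] [DecidableEq A] (j : ℕ)

/-- the colour of the pair `x`, `y`: the sum of the labels in the group or one of `j` further
colours -/
def cayCol [NeZero (Fintype.card A + j)] (x y : A × ZMod (Fintype.card A + j)) : A ⊕ Fin j :=
  if h : (x.2 + y.2).val < Fintype.card A then Sum.inl (x.1 + y.1)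
  else Sum.inr ⟨(x.2 + y.2).val - Fintype.card A, by
    have := ZMod.val_lt (x.2 + y.2)
    omega⟩

theorem cayCol_symm [NeZero (Fintype.card A + j)] (x y : A × ZMod (Fintype.card A + j)) :
    cayCol j x y = cayCol j y x := by
  unfold cayCol
  simp only [add_comm x.2 y.2, add_comm x.1 y.1]

theorem cayCol_eq [NeZero (Fintype.card A + j)] (x y : A × ZMod (Fintype.card A + j)) :
    cayCol j x y = Sum.inl (x.1 + y.1) ∨ ∃ l, cayCol j x y = Sum.inr l := by
  unfold cayCol
  split_ifs
  · exact Or.inl rfl
  · exact Or.inr ⟨_, rfl⟩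

theorem card_val_lt (N m : ℕ) [NeZero N] (h : m ≤ N) :
    (univ.filter (fun z : ZMod N => z.val < m)).card = m := by
  have h1 : (univ.filter (fun z : ZMod N => z.val < m)).card = (Finset.range m).card := by
    apply Finset.card_bij (fun z _ => z.val)
    · intro z hz
      simpa using hz
    · intro z _ z' _ hzz
      exact ZMod.val_injective N hzz
    · intro k hk
      rw [Finset.mem_range] at hk
      refine ⟨(k : ZMod N), ?_, ?_⟩
      · simp only [mem_filter, mem_univ, true_and]
        rw [ZMod.val_natCast_of_lt (by omega)]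
        exact hk
      · exact ZMod.val_natCast_of_lt (by omega)
  rw [h1, Finset.card_range]

theorem cayCol_card [NeZero (Fintype.card A + j)] (x : A × ZMod (Fintype.card A + j))
    (i : A ⊕ Fin j) : (univ.filter (fun y => cayCol j x y = i)).card = Fintype.card A := by
  rcases i with p | l
  · have h1 : (univ.filter (fun y => cayCol j x y = Sum.inl p)).card =
        (univ.filter (fun z : ZMod (Fintype.card A + j) => z.val < Fintype.card A)).card := by
      apply Finset.card_bij (fun y _ => x.2 + y.2)
      · intro y hy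
        simp only [mem_filter, mem_univ, true_and] at hy ⊢
        by_contra hcon
        rw [cayCol, dif_neg hcon] at hy
        cases hy
      · intro y hy y' hy' h
        simp only [mem_filter, mem_univ, true_and] at hy hy'
        have hlt : (x.2 + y.2).val < Fintype.card A := by
          by_contra hcon
          rw [cayCol, dif_neg hcon] at hy
          cases hy
        have hlt' : (x.2 + y'.2).val < Fintype.card A := by
          by_contra hcon
          rw [cayCol, dif_neg hcon] at hy'
          cases hy'
        rw [cayCol, dif_pos hlt, Sum.inl.injEq] at hy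
        rw [cayCol, dif_pos hlt', Sum.inl.injEq] at hy'
        have e1 : y.1 = y'.1 := add_left_cancel (hy.trans hy'.symm)
        have e2 : y.2 = y'.2 := add_left_cancel h
        exact Prod.ext e1 e2
      · intro z hz
        simp only [mem_filter, mem_univ, true_and] at hz
        refine ⟨(p - x.1, z - x.2), ?_, by simp⟩
        simp only [mem_filter, mem_univ, true_and]
        have : (x.2 + (z - x.2)).val < Fintype.card A := by
          rw [add_sub_cancel]
          exact hz
        rw [cayCol, dif_pos this]
        simp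
    rw [h1, card_val_lt _ _ (Nat.le_add_right _ _)]
  · have hl := l.2
    have h1 : (univ.filter (fun y => cayCol j x y = Sum.inr l)).card = (univ : Finset A).card := by
      symm
      apply Finset.card_bij (fun a _ =>
        ((a, ((Fintype.card A + l.1 : ℕ) : ZMod (Fintype.card A + j)) - x.2) :
          A × ZMod (Fintype.card A + j)))
      · intro a _
        simp only [mem_filter, mem_univ, true_and]
        have h2 : (x.2 + (((Fintype.card A + l.1 : ℕ) : ZMod (Fintype.card A + j)) - x.2)).val =
            Fintype.card A + l.1 := by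
          rw [add_sub_cancel]
          exact ZMod.val_natCast_of_lt (by omega)
        have h3 : ¬ (x.2 + (((Fintype.card A + l.1 : ℕ) : ZMod (Fintype.card A + j)) - x.2)).val <
            Fintype.card A := by
          rw [h2]
          omega
        rw [cayCol, dif_neg h3, Sum.inr.injEq]
        apply Fin.ext
        simp only
        rw [h2]
        omega
      · intro a _ a' _ h
        exact (Prod.ext_iff.1 h).1
      · intro y hy
        simp only [mem_filter, mem_univ, true_and] at hy
        refine ⟨y.1, mem_univ _, ?_⟩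
        have h3 : ¬ (x.2 + y.2).val < Fintype.card A := by
          intro hcon
          rw [cayCol, dif_pos hcon] at hy
          cases hy
        rw [cayCol, dif_neg h3, Sum.inr.injEq] at hy
        have h4 : (x.2 + y.2).val = Fintype.card A + l.1 := by
          have := congrArg Fin.val hy
          simp only at this
          omega
        refine Prod.ext rfl ?_
        simp only
        rw [← h4, ZMod.natCast_zmod_val]
        ring
    rw [h1, Finset.card_univ]

/-- colourings from groups: the criterion -/
theorem cay_fails {V : Type} [Finite V] (G : SimpleGraph V)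
    (hN : G.edgeSet.ncard + 1 = Fintype.card A + j) (X W : Set V) (hXW : ∀ x ∈ X, x ∉ W)
    (hW : ∀ w ∈ W, ∀ x, G.Adj w x → x ∈ X) (q : ℕ)
    (hq : ∀ w ∈ W, q ∣ (G.neighborSet w).ncard) (b : ℕ)
    (hb : {e | e ∈ G.edgeSet ∧ ∀ w ∈ W, w ∉ e}.ncard ≤ b)
    (hB : ∀ u : V → A, ∃ (c : A) (B : AddSubgroup A), (∀ x ∈ X, u x - c ∈ B) ∧
      ¬ q ∣ Nat.card B ∧ (1 + b + j) * Nat.card B < Fintype.card A) : Fails G := by
  classical
  have : Fintype V := Fintype.ofFinite V
  haveI hne : NeZero (Fintype.card A + j) := ⟨by rw [← hN]; omega⟩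
  have hcard : Fintype.card (A ⊕ Fin j) = G.edgeSet.ncard + 1 := by
    rw [hN]
    simp
  let E : A ⊕ Fin j ≃ Fin (G.edgeSet.ncard + 1) := Fintype.equivFinOfCardEq hcard
  intro n₀
  obtain ⟨n, hn, c, hc, π, hπ⟩ := blowup_core (X := A × ZMod (Fintype.card A + j))
    (fun x y => E (cayCol j x y)) (fun x y => by rw [cayCol_symm]) (fun x i => by
      have h1 : (univ.filter (fun y => E (cayCol j x y) = i)) =
          (univ.filter (fun y => cayCol j x y = E.symm i)) := by
        ext y
        simp only [mem_filter, mem_univ, true_and]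
        exact ⟨fun h => by rw [← h, E.symm_apply_apply], fun h => by rw [h, E.apply_symm_apply]⟩
      rw [h1, cayCol_card, hN, Fintype.card_prod, ZMod.card]) n₀
  refine ⟨n, hn, c, hc, ?_⟩
  rintro ⟨f, hf⟩
  have hf' : ∀ a b a' b' : V, G.Adj a b → G.Adj a' b' →
      cayCol j (π (f a)) (π (f b)) = cayCol j (π (f a')) (π (f b')) → s(a, b) = s(a', b') := by
    intro a b a' b' h1 h2 h3
    apply hf a b a' b' h1 h2
    rw [hπ, hπ, h3]
  let g : V → A × ZMod (Fintype.card A + j) := fun v => π (f v)
  let u : V → A := fun v => (g v).1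
  let κ : Sym2 V → A ⊕ Fin j := Sym2.lift ⟨fun a b => cayCol j (g a) (g b),
    fun a b => cayCol_symm j _ _⟩
  have hκ : ∀ a b, κ s(a, b) = cayCol j (g a) (g b) := fun a b => rfl
  have hinj : Set.InjOn κ G.edgeSet := by
    intro e he e' he' h
    induction e using Sym2.ind with
    | _ a b =>
      induction e' using Sym2.ind with
      | _ a' b' =>
        rw [hκ, hκ] at h
        exact hf' a b a' b' he he' h
  -- all colours but one are used
  obtain ⟨m₀, hm₀⟩ : ∃ m₀ : A ⊕ Fin j, ∀ i, i ≠ m₀ → ∃ e ∈ G.edgeSet, κ e = i := by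
    have h1 : (κ '' G.edgeSet).ncard = G.edgeSet.ncard := Set.ncard_image_of_injOn hinj
    have h2 : (κ '' G.edgeSet)ᶜ.ncard = 1 := by
      have h3 := Set.ncard_add_ncard_compl (κ '' G.edgeSet)
      rw [h1, Nat.card_eq_fintype_card, hcard] at h3
      omega
    obtain ⟨m₀, hm⟩ := Set.ncard_eq_one.1 h2
    refine ⟨m₀, fun i hi => ?_⟩
    by_contra hcon
    have h3 : i ∈ (κ '' G.edgeSet)ᶜ := by
      rintro ⟨e, he, hi'⟩
      exact hcon ⟨e, he, hi'⟩
    rw [hm] at h3
    exact hi h3
  obtain ⟨c₀, B, hBX, hBq, hBc⟩ := hB u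
  -- the exceptional cosets
  let co : A ⊕ Fin j → A ⧸ B := Sum.elim (fun p => (p : A ⧸ B)) (fun _ => 0)
  let bad : Set (Sym2 V) := {e | e ∈ G.edgeSet ∧ ∀ w ∈ W, w ∉ e}
  let Φ : (Unit ⊕ bad) ⊕ Fin j → A ⧸ B := Sum.elim
    (Sum.elim (fun _ => co m₀) (fun e => co (κ e.1)))
    (fun l => if h : ∃ w : V, w ∈ W ∧ ∃ x, G.Adj w x ∧ cayCol j (g w) (g x) = Sum.inr l then
      ((u h.choose + c₀ : A) : A ⧸ B) else 0)
  have hnot : ¬ Function.Surjective Φ := by
    intro hsurj
    have h1 := Nat.card_le_card_of_surjective Φ hsurj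
    have h2 : Nat.card ((Unit ⊕ bad) ⊕ Fin j) ≤ 1 + b + j := by
      rw [Nat.card_sum, Nat.card_sum]
      have h3 : Nat.card bad ≤ b := by
        rw [Nat.card_coe_set_eq]
        exact hb
      simp only [Nat.card_eq_fintype_card, Fintype.card_unit, Fintype.card_fin] at *
      omega
    have h4 := AddSubgroup.card_eq_card_quotient_mul_card_addSubgroup B
    rw [Nat.card_eq_fintype_card] at h4
    have h5 : Nat.card (A ⧸ B) * Nat.card B ≤ (1 + b + j) * Nat.card B :=
      Nat.mul_le_mul_right _ (h1.trans h2)
    omega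
  unfold Function.Surjective at hnot
  push Not at hnot
  obtain ⟨Q, hQ⟩ := hnot
  have hQ0 : co m₀ ≠ Q := hQ (Sum.inl (Sum.inl ()))
  have hQ1 : ∀ e, e ∈ G.edgeSet → (∀ w ∈ W, w ∉ e) → co (κ e) ≠ Q := fun e he he' =>
    hQ (Sum.inl (Sum.inr ⟨e, he, he'⟩))
  have hQ2 : ∀ l : Fin j, ∀ w ∈ W, ∀ x, G.Adj w x → cayCol j (g w) (g x) = Sum.inr l →
      ((u w + c₀ : A) : A ⧸ B) ≠ Q := by
    intro l w hw x hwx hcol
    have hex : ∃ w : V, w ∈ W ∧ ∃ x, G.Adj w x ∧ cayCol j (g w) (g x) = Sum.inr l :=
      ⟨w, hw, x, hwx, hcol⟩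
    have h1 := hQ (Sum.inr l)
    simp only [Φ, Sum.elim_inr] at h1
    rw [dif_pos hex] at h1
    obtain ⟨hw', x', hwx', hcol'⟩ := hex.choose_spec
    have h2 := hf' _ _ _ _ hwx hwx' (hcol.trans hcol'.symm)
    rw [Sym2.eq_iff] at h2
    rcases h2 with ⟨h3, -⟩ | ⟨h3, h4⟩
    · rw [h3]
      exact h1
    · exact absurd hw (by rw [h3]; exact hXW _ (hW _ hw' _ hwx'))
  -- the pairs of the coset
  let P : Finset (V × V) := univ.filter fun r => r.1 ∈ W ∧ G.Adj r.1 r.2 ∧
    ((u r.1 + c₀ : A) : A ⧸ B) = Q
  have hPcard : P.card = Nat.card B := by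
    have h1 : P.card = (univ.filter fun p : A => (p : A ⧸ B) = Q).card := by
      apply Finset.card_bij (fun r _ => u r.1 + u r.2)
      · intro r hr
        simp only [P, mem_filter, mem_univ, true_and] at hr ⊢
        rw [← hr.2.2, eq_comm, QuotientAddGroup.eq]
        have := hBX _ (hW _ hr.1 _ hr.2.1)
        have e : -(u r.1 + c₀) + (u r.1 + u r.2) = u r.2 - c₀ := by abel
        rw [e]
        exact this
      · intro r hr r' hr' h
        simp only [P, mem_filter, mem_univ, true_and] at hr hr'
        have key : ∀ r : V × V, (r.1 ∈ W ∧ G.Adj r.1 r.2 ∧ ((u r.1 + c₀ : A) : A ⧸ B) = Q) →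
            cayCol j (g r.1) (g r.2) = Sum.inl (u r.1 + u r.2) := by
          intro r hr
          rcases cayCol_eq j (g r.1) (g r.2) with h1 | ⟨l, h1⟩
          · exact h1
          · exact absurd hr.2.2 (hQ2 l _ hr.1 _ hr.2.1 h1)
        have h2 := hf' r.1 r.2 r'.1 r'.2 hr.2.1 hr'.2.1
          ((key r hr).trans ((congrArg Sum.inl h).trans (key r' hr').symm))
        rw [Sym2.eq_iff] at h2
        rcases h2 with ⟨h3, h4⟩ | ⟨h3, h4⟩
        · exact Prod.ext h3 h4
        · exact absurd hr.1 (by rw [h3]; exact hXW _ (hW _ hr'.1 _ hr'.2.1))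
      · intro p hp
        simp only [mem_filter, mem_univ, true_and] at hp
        have h1 : Sum.inl p ≠ m₀ := by
          rintro rfl
          exact hQ0 hp
        obtain ⟨e, he, hep⟩ := hm₀ _ h1
        have h2 : ¬ ∀ w ∈ W, w ∉ e := by
          intro h3
          exact hQ1 e he h3 (by rw [hep]; exact hp)
        push Not at h2
        obtain ⟨w, hw, hwe⟩ := h2
        obtain ⟨x, rfl⟩ := Sym2.mem_iff_exists.1 hwe
        rw [hκ] at hep
        have hadj : G.Adj w x := he
        have h3 : u w + u x = p := by
          rcases cayCol_eq j (g w) (g x) with h4 | ⟨l, h4⟩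
          · rw [h4, Sum.inl.injEq] at hep
            exact hep
          · rw [h4] at hep
            cases hep
        refine ⟨(w, x), ?_, h3⟩
        simp only [P, mem_filter, mem_univ, true_and]
        refine ⟨hw, hadj, ?_⟩
        rw [← hp, QuotientAddGroup.eq, ← h3]
        have := hBX _ (hW _ hw _ hadj)
        have e : -(u w + c₀) + (u w + u x) = u x - c₀ := by abel
        rw [e]
        exact this
    rw [h1]
    obtain ⟨p₀, rfl⟩ := QuotientAddGroup.mk_surjective Q
    rw [Nat.card_eq_fintype_card, ← Fintype.card_coe]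
    apply Fintype.card_congr
    exact
      { toFun := fun p => ⟨-p₀ + p.1, by
          have := (mem_filter.1 p.2).2
          rwa [eq_comm, QuotientAddGroup.eq] at this⟩
        invFun := fun y => ⟨p₀ + y.1, by
          rw [mem_filter]
          refine ⟨mem_univ _, ?_⟩
          rw [eq_comm, QuotientAddGroup.eq]
          simp⟩
        left_inv := fun p => by
          apply Subtype.ext
          simp
        right_inv := fun y => by
          apply Subtype.ext
          simp }
  have hPdvd : q ∣ P.card := by
    rw [Finset.card_eq_sum_card_fiberwise (f := Prod.fst) (s := P) (t := univ)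
      (fun _ _ => by simp)]
    apply Finset.dvd_sum
    intro w _
    by_cases hw : w ∈ W ∧ ((u w + c₀ : A) : A ⧸ B) = Q
    · have h1 : (P.filter fun r => r.1 = w).card = (G.neighborSet w).ncard := by
        rw [Set.ncard_eq_toFinset_card']
        apply Finset.card_bij (fun r _ => r.2)
        · intro r hr
          simp only [P, mem_filter, mem_univ, true_and] at hr
          rw [Set.mem_toFinset, SimpleGraph.mem_neighborSet, ← hr.2]
          exact hr.1.2.1
        · intro r hr r' hr' h
          simp only [P, mem_filter, mem_univ, true_and] at hr hr'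
          exact Prod.ext (hr.2.trans hr'.2.symm) h
        · intro x hx
          rw [Set.mem_toFinset, SimpleGraph.mem_neighborSet] at hx
          refine ⟨(w, x), ?_, rfl⟩
          simp only [P, mem_filter, mem_univ, true_and]
          exact ⟨⟨hw.1, hx, hw.2⟩, trivial⟩
      rw [h1]
      exact hq w hw.1
    · have h1 : (P.filter fun r => r.1 = w) = ∅ := by
        apply Finset.filter_eq_empty_iff.2
        intro r hr hrw
        simp only [P, mem_filter, mem_univ, true_and] at hr
        rw [hrw] at hr
        exact hw ⟨hr.1, hr.2.2⟩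
      rw [h1]
      simp
  rw [hPcard] at hPdvd
  exact hBq hPdvd

end cay

end Pool.Agent.H907.ET
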