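import Mathlib

set_option autoImplicit false

/-!
# Products of powers of two primes are eventually dense in the multiplicative sense
-/

namespace Pool.Agent.H907.ET

theorem step_dense {P R a₁ b₁ : ℕ} (hP : 2 ≤ P) (hR : 2 ≤ R) (h1 : R ^ b₁ < P ^ a₁) {δ : ℝ}
    (h2 : (P : ℝ) ^ a₁ ≤ (1 + δ) * (R : ℝ) ^ b₁) :
    ∃ N₁ : ℕ, ∀ N ≥ N₁, ∃ a b : ℕ, P ^ a * R ^ b ≤ N ∧
      (N : ℝ) ≤ (1 + δ) * ((P : ℝ) ^ a * (R : ℝ) ^ b) := by
  have hR0 : (0 : ℝ) < R := by exact_mod_cast (by omega : 0 < R)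
  have hP0 : (0 : ℝ) < P := by exact_mod_cast (by omega : 0 < P)
  have h1' : (R : ℝ) ^ b₁ < (P : ℝ) ^ a₁ := by exact_mod_cast h1
  have hρ : 1 < (P : ℝ) ^ a₁ / (R : ℝ) ^ b₁ := by
    rw [lt_div_iff₀ (by positivity), one_mul]
    exact h1'
  obtain ⟨K, hK⟩ := pow_unbounded_of_one_lt (R : ℝ) hρ
  rw [div_pow, lt_div_iff₀ (by positivity)] at hK
  have hK' : R * (R ^ b₁) ^ K < (P ^ a₁) ^ K := by exact_mod_cast hK
  refine ⟨R ^ (K * b₁), fun N hN => ?_⟩
  have hN0 : N ≠ 0 := by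
    have : 0 < R ^ (K * b₁) := by positivity
    omega
  set L := Nat.log R N with hL
  have hL1 : R ^ L ≤ N := Nat.pow_log_le_self R hN0
  have hL2 : N < R ^ (L + 1) := Nat.lt_pow_succ_log_self (by omega) N
  have hL3 : K * b₁ ≤ L := Nat.le_log_of_pow_le (by omega) hN
  have hex : ∃ k, N < P ^ (k * a₁) * R ^ (L - k * b₁) := by
    refine ⟨K, ?_⟩
    calc N < R ^ (L + 1) := hL2
      _ = (R * (R ^ b₁) ^ K) * R ^ (L - K * b₁) := by
        rw [← pow_mul, mul_assoc, ← pow_add, mul_comm b₁ K, Nat.add_sub_cancel' hL3, pow_succ,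
          mul_comm]
      _ ≤ (P ^ a₁) ^ K * R ^ (L - K * b₁) := Nat.mul_le_mul_right _ hK'.le
      _ = _ := by rw [← pow_mul, mul_comm a₁ K]
  classical
  have hfK : Nat.find hex ≤ K := by
    apply Nat.find_min'
    calc N < R ^ (L + 1) := hL2
      _ = (R * (R ^ b₁) ^ K) * R ^ (L - K * b₁) := by
        rw [← pow_mul, mul_assoc, ← pow_add, mul_comm b₁ K, Nat.add_sub_cancel' hL3, pow_succ,
          mul_comm]
      _ ≤ (P ^ a₁) ^ K * R ^ (L - K * b₁) := Nat.mul_le_mul_right _ hK'.le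
      _ = _ := by rw [← pow_mul, mul_comm a₁ K]
  have hf0 : Nat.find hex ≠ 0 := by
    intro h0
    have := Nat.find_spec hex
    rw [h0] at this
    simp at this
    omega
  obtain ⟨k, hk⟩ := Nat.exists_eq_succ_of_ne_zero hf0
  have hspec := Nat.find_spec hex
  have hmin : ¬ N < P ^ (k * a₁) * R ^ (L - k * b₁) := Nat.find_min hex (by omega)
  rw [hk] at hspec hfK
  push Not at hmin
  refine ⟨k * a₁, L - k * b₁, hmin, ?_⟩
  have hkb : (k + 1) * b₁ ≤ L := le_trans (Nat.mul_le_mul_right _ hfK) hL3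
  have e1 : L - k * b₁ = (L - (k + 1) * b₁) + b₁ := by
    have : (k + 1) * b₁ = k * b₁ + b₁ := by ring
    omega
  have h3 : (N : ℝ) ≤ (P : ℝ) ^ ((k + 1) * a₁) * (R : ℝ) ^ (L - (k + 1) * b₁) := by
    exact_mod_cast hspec.le
  calc (N : ℝ) ≤ (P : ℝ) ^ ((k + 1) * a₁) * (R : ℝ) ^ (L - (k + 1) * b₁) := h3
    _ = ((P : ℝ) ^ (k * a₁) * (R : ℝ) ^ (L - (k + 1) * b₁)) * (P : ℝ) ^ a₁ := by ring
    _ ≤ ((P : ℝ) ^ (k * a₁) * (R : ℝ) ^ (L - (k + 1) * b₁)) * ((1 + δ) * (R : ℝ) ^ b₁) :=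
      mul_le_mul_of_nonneg_left h2 (by positivity)
    _ = (1 + δ) * ((P : ℝ) ^ (k * a₁) * ((R : ℝ) ^ (L - (k + 1) * b₁) * (R : ℝ) ^ b₁)) := by ring
    _ = (1 + δ) * ((P : ℝ) ^ (k * a₁) * (R : ℝ) ^ (L - k * b₁)) := by
      rw [← pow_add, ← e1]

theorem irr_log {p r : ℕ} (hp : p.Prime) (hr : r.Prime) (hpr : p ≠ r) :
    Irrational (Real.log p / Real.log r) := by
  rintro ⟨x, hx⟩
  have hlp : 0 < Real.log p := Real.log_pos (by exact_mod_cast hp.one_lt)
  have hlr : 0 < Real.log r := Real.log_pos (by exact_mod_cast hr.one_lt)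
  have hx0 : 0 < (x : ℝ) := by
    rw [hx]
    positivity
  have hx0' : 0 < x := by exact_mod_cast hx0
  have hnum : 0 < x.num := Rat.num_pos.2 hx0'
  have h1 : (x.num : ℝ) * Real.log r = (x.den : ℝ) * Real.log p := by
    have h2 : (x : ℝ) = x.num / x.den := by exact_mod_cast (Rat.num_div_den x).symm
    have h3 : (x.den : ℝ) ≠ 0 := by exact_mod_cast x.den_ne_zero
    rw [h2] at hx
    field_simp at hx
    linarith
  obtain ⟨m, hm⟩ := Int.eq_ofNat_of_zero_le hnum.le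
  rw [hm] at h1
  have h2 : Real.log ((r : ℝ) ^ m) = Real.log ((p : ℝ) ^ x.den) := by
    rw [Real.log_pow, Real.log_pow]
    exact_mod_cast h1
  have h3 : (r : ℝ) ^ m = (p : ℝ) ^ x.den :=
    Real.log_injOn_pos (Set.mem_Ioi.2 (pow_pos (by exact_mod_cast hr.pos) _))
      (Set.mem_Ioi.2 (pow_pos (by exact_mod_cast hp.pos) _)) h2
  have h4 : r ^ m = p ^ x.den := by exact_mod_cast h3
  have hm0 : m ≠ 0 := by
    rintro rfl
    rw [hm] at hnum
    simp at hnum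
  have h5 : r ∣ p ^ x.den := by
    rw [← h4]
    exact dvd_pow_self r hm0
  exact hpr ((Nat.prime_dvd_prime_iff_eq hr hp).1 (hr.dvd_of_dvd_pow h5)).symm

theorem exists_step {p r : ℕ} (hp : p.Prime) (hr : r.Prime) (hpr : p ≠ r) {δ : ℝ} (hδ : 0 < δ) :
    ∃ a b : ℕ, (r ^ b < p ^ a ∧ (p : ℝ) ^ a ≤ (1 + δ) * (r : ℝ) ^ b) ∨
      (p ^ a < r ^ b ∧ (r : ℝ) ^ b ≤ (1 + δ) * (p : ℝ) ^ a) := by
  have hlp : Real.log 2 ≤ Real.log p :=
    Real.log_le_log (by norm_num) (by exact_mod_cast hp.two_le)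
  have hlr : Real.log 2 ≤ Real.log r :=
    Real.log_le_log (by norm_num) (by exact_mod_cast hr.two_le)
  have hl2 : 0 < Real.log 2 := Real.log_pos (by norm_num)
  have hlδ : 0 < Real.log (1 + δ) := Real.log_pos (by linarith)
  have hd := dense_addSubgroupClosure_pair_iff.2 (irr_log hp hr hpr)
  obtain ⟨x, hx, hx1, hx2⟩ := hd.exists_between (lt_min hlδ hl2)
  obtain ⟨m, n, rfl⟩ := AddSubgroup.mem_closure_pair.1 hx
  have hx3 := hx2.trans_le (min_le_left _ _)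
  have hx4 := hx2.trans_le (min_le_right _ _)
  simp only [zsmul_eq_mul] at hx1 hx3 hx4
  have hpp : (0 : ℝ) < p := by exact_mod_cast hp.pos
  have hrp : (0 : ℝ) < r := by exact_mod_cast hr.pos
  rcases le_or_gt 0 m with hm | hm <;> rcases le_or_gt 0 n with hn | hn
  · exfalso
    obtain ⟨m, rfl⟩ := Int.eq_ofNat_of_zero_le hm
    obtain ⟨n, rfl⟩ := Int.eq_ofNat_of_zero_le hn
    simp only [Int.ofNat_eq_natCast, Int.cast_natCast] at *
    rcases Nat.eq_zero_or_pos m with h0 | h0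
    · rcases Nat.eq_zero_or_pos n with h0' | h0'
      · rw [h0, h0'] at hx1
        simp at hx1
      · have : (1 : ℝ) ≤ n := by exact_mod_cast h0'
        have h5 : (0 : ℝ) ≤ m * Real.log p := by positivity
        nlinarith
    · have : (1 : ℝ) ≤ m := by exact_mod_cast h0
      have h5 : (0 : ℝ) ≤ n * Real.log r := by positivity
      nlinarith
  · obtain ⟨a, rfl⟩ := Int.eq_ofNat_of_zero_le hm
    obtain ⟨b, hb⟩ := Int.eq_ofNat_of_zero_le (by omega : 0 ≤ -n)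
    have hn' : n = -(b : ℤ) := by omega
    subst hn'
    push_cast at hx1 hx3
    refine ⟨a, b, Or.inl ⟨?_, ?_⟩⟩
    · have h5 : Real.log ((r : ℝ) ^ b) < Real.log ((p : ℝ) ^ a) := by
        rw [Real.log_pow, Real.log_pow]
        linarith
      have h6 := (Real.log_lt_log_iff (by positivity) (by positivity)).1 h5
      exact_mod_cast h6
    · have h5 : Real.log ((p : ℝ) ^ a) < Real.log ((1 + δ) * (r : ℝ) ^ b) := by
        rw [Real.log_mul (by positivity) (by positivity), Real.log_pow, Real.log_pow]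
        linarith
      exact ((Real.log_lt_log_iff (by positivity) (by positivity)).1 h5).le
  · obtain ⟨b, rfl⟩ := Int.eq_ofNat_of_zero_le hn
    obtain ⟨a, ha⟩ := Int.eq_ofNat_of_zero_le (by omega : 0 ≤ -m)
    have hm' : m = -(a : ℤ) := by omega
    subst hm'
    push_cast at hx1 hx3
    refine ⟨a, b, Or.inr ⟨?_, ?_⟩⟩
    · have h5 : Real.log ((p : ℝ) ^ a) < Real.log ((r : ℝ) ^ b) := by
        rw [Real.log_pow, Real.log_pow]
        linarith
      have h6 := (Real.log_lt_log_iff (by positivity) (by positivity)).1 h5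
      exact_mod_cast h6
    · have h5 : Real.log ((r : ℝ) ^ b) < Real.log ((1 + δ) * (p : ℝ) ^ a) := by
        rw [Real.log_mul (by positivity) (by positivity), Real.log_pow, Real.log_pow]
        linarith
      exact ((Real.log_lt_log_iff (by positivity) (by positivity)).1 h5).le
  · exfalso
    have h5 : (m : ℝ) ≤ 0 := by exact_mod_cast hm.le
    have h6 : (n : ℝ) ≤ 0 := by exact_mod_cast hn.le
    nlinarith

/-- every large number is just above a product of powers of `p` and `r` -/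
theorem semigroup_dense {p r : ℕ} (hp : p.Prime) (hr : r.Prime) (hpr : p ≠ r) {δ : ℝ}
    (hδ : 0 < δ) : ∃ N₁ : ℕ, ∀ N ≥ N₁, ∃ a b : ℕ, p ^ a * r ^ b ≤ N ∧
      (N : ℝ) ≤ (1 + δ) * ((p : ℝ) ^ a * (r : ℝ) ^ b) := by
  obtain ⟨a₁, b₁, ⟨h1, h2⟩ | ⟨h1, h2⟩⟩ := exists_step hp hr hpr hδ
  · exact step_dense hp.two_le hr.two_le h1 h2
  · obtain ⟨N₁, h⟩ := step_dense hr.two_le hp.two_le h1 h2
    refine ⟨N₁, fun N hN => ?_⟩
    obtain ⟨b, a, h3, h4⟩ := h N hN
    exact ⟨a, b, by rw [mul_comm]; exact h3, by rw [mul_comm ((p : ℝ) ^ a)]; exact h4⟩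

end Pool.Agent.H907.ET
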