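import Pool.Agent.H907.ETBip
import Pool.Agent.H907.ETBip2

set_option autoImplicit false

/-!
# Graphs with a bounded vertex cover which fail the property
-/

namespace Pool.Agent.H907.ET

open Finset

theorem natCard_span_le {p a s : ℕ} [Fact p.Prime] {V : Type} [Finite V] (X : Set V)
    (hs : X.ncard ≤ s) (u : V → (Fin a → ZMod p)) :
    ∃ α ≤ s, Nat.card (Submodule.span (ZMod p) (u '' X)) = p ^ α := by
  classical
  have : Fintype V := Fintype.ofFinite V
  have : Fintype (u '' X) := Fintype.ofFinite _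
  refine ⟨Module.finrank (ZMod p) (Submodule.span (ZMod p) (u '' X)), ?_, ?_⟩
  · refine (finrank_span_le_card (R := ZMod p) (u '' X)).trans ?_
    rw [← Set.ncard_eq_toFinset_card']
    exact (Set.ncard_image_le (Set.toFinite X)).trans hs
  · rw [Module.natCard_eq_pow_finrank (K := ZMod p), Nat.card_zmod]

/-- graphs with a vertex cover of bounded size in which almost all edges are at outer vertices whose
degree is divisible by `q` -/
theorem cover_fails (s q : ℕ) (hq : 2 ≤ q) : ∃ δ : ℝ, 0 < δ ∧ ∃ e₀ : ℕ,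
    ∀ (V : Type) [Finite V] (G : SimpleGraph V) (X W : Set V), e₀ ≤ G.edgeSet.ncard →
      X.ncard ≤ s → (∀ x ∈ X, x ∉ W) → (∀ w ∈ W, ∀ x, G.Adj w x → x ∈ X) →
      (∀ w ∈ W, q ∣ (G.neighborSet w).ncard) →
      ({e | e ∈ G.edgeSet ∧ ∀ w ∈ W, w ∉ e}.ncard : ℝ) ≤ δ * G.edgeSet.ncard → Fails G := by
  obtain ⟨p, hp1, hp⟩ := Nat.exists_infinite_primes (q + 2)
  obtain ⟨r, hr1, hr⟩ := Nat.exists_infinite_primes (p + 1)
  have hpr : p ≠ r := by omega
  set D : ℕ := (p * r) ^ s with hD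
  have hD0 : 0 < D := pow_pos (Nat.mul_pos hp.pos hr.pos) _
  have hD0' : (0 : ℝ) < D := by exact_mod_cast hD0
  have hδ : (0 : ℝ) < 1 / (8 * D) := by positivity
  obtain ⟨N₁, hN₁⟩ := semigroup_dense hp hr hpr hδ
  refine ⟨1 / (8 * D), hδ, N₁ + 4 * D, ?_⟩
  intro V _ G X W he hX hXW hW hqW hbad
  haveI : Fact p.Prime := ⟨hp⟩
  haveI : Fact r.Prime := ⟨hr⟩
  set e := G.edgeSet.ncard with hedef
  obtain ⟨a, b, h1, h2⟩ := hN₁ (e + 1) (by omega)
  set N₀ : ℕ := p ^ a * r ^ b with hN₀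
  have h2' : ((e : ℝ) + 1) ≤ (1 + 1 / (8 * D)) * N₀ := by
    have : ((p : ℝ) ^ a * (r : ℝ) ^ b) = (N₀ : ℝ) := by
      rw [hN₀]
      push_cast
      ring
    rw [this] at h2
    exact_mod_cast h2
  set b' := {e | e ∈ G.edgeSet ∧ ∀ w ∈ W, w ∉ e}.ncard with hb'
  have hcardA : Fintype.card ((Fin a → ZMod p) × (Fin b → ZMod r)) = N₀ := by
    rw [Fintype.card_prod]
    simp [ZMod.card, hN₀]
  -- the numerical estimate
  have hD1 : (1 : ℝ) ≤ D := by exact_mod_cast hD0
  have h18 : 1 / (8 * (D : ℝ)) ≤ 1 / 8 := by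
    apply one_div_le_one_div_of_le (by norm_num)
    linarith
  have hN₀0 : (0 : ℝ) ≤ N₀ := Nat.cast_nonneg _
  have hE1 : (e : ℝ) ≤ 2 * N₀ := by nlinarith
  have he' : (4 : ℝ) * D ≤ e := by
    have : 4 * D ≤ e := by omega
    exact_mod_cast this
  have hj : (((e + 1 - N₀ : ℕ) : ℝ)) ≤ 1 / (8 * D) * N₀ := by
    rw [Nat.cast_sub h1]
    push_cast
    linarith
  have hmain : (1 + b' + (e + 1 - N₀)) * D < N₀ := by
    have h3 : (((1 + b' + (e + 1 - N₀)) * D : ℕ) : ℝ) < N₀ := by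
      push_cast [-Nat.cast_sub]
      have h4 : (b' : ℝ) ≤ 1 / (8 * D) * (2 * N₀) := hbad.trans
        (mul_le_mul_of_nonneg_left hE1 hδ.le)
      have h5 : (1 + (b' : ℝ) + ((e + 1 - N₀ : ℕ) : ℝ)) * D ≤
          (1 + 1 / (8 * D) * (2 * N₀) + 1 / (8 * D) * N₀) * D := by
        apply mul_le_mul_of_nonneg_right _ hD0'.le
        linarith
      have h6 : (1 + 1 / (8 * D) * (2 * (N₀ : ℝ)) + 1 / (8 * D) * N₀) * D = D + 3 / 8 * N₀ := by
        field_simp
        ring
      rw [h6] at h5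
      refine h5.trans_lt ?_
      nlinarith
    exact_mod_cast h3
  refine cay_fails (A := (Fin a → ZMod p) × (Fin b → ZMod r)) (e + 1 - N₀) G
    (by rw [hcardA]; omega) X W hXW hW q hqW b' le_rfl ?_
  intro u
  obtain ⟨α, hα, hα'⟩ := natCard_span_le (p := p) X hX (fun v => (u v).1)
  obtain ⟨β, hβ, hβ'⟩ := natCard_span_le (p := r) X hX (fun v => (u v).2)
  set B₁ := Submodule.span (ZMod p) ((fun v => (u v).1) '' X) with hB₁
  set B₂ := Submodule.span (ZMod r) ((fun v => (u v).2) '' X) with hB₂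
  have hcardB : Nat.card (B₁.toAddSubgroup.prod B₂.toAddSubgroup) = p ^ α * r ^ β := by
    rw [Nat.card_congr (AddSubgroup.prodEquiv _ _).toEquiv, Nat.card_prod, ← hα', ← hβ']
    rfl
  refine ⟨0, B₁.toAddSubgroup.prod B₂.toAddSubgroup, ?_, ?_, ?_⟩
  · intro x hx
    rw [sub_zero, AddSubgroup.mem_prod]
    exact ⟨Submodule.subset_span ⟨x, hx, rfl⟩, Submodule.subset_span ⟨x, hx, rfl⟩⟩
  · rw [hcardB]
    intro hdvd
    have hm := Nat.minFac_prime (by omega : q ≠ 1)
    have hmq : q.minFac ≤ q := Nat.minFac_le (by omega)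
    rcases (hm.dvd_mul).1 ((Nat.minFac_dvd q).trans hdvd) with h | h
    · have := (Nat.prime_dvd_prime_iff_eq hm hp).1 (hm.dvd_of_dvd_pow h)
      omega
    · have := (Nat.prime_dvd_prime_iff_eq hm hr).1 (hm.dvd_of_dvd_pow h)
      omega
  · rw [hcardB, hcardA]
    refine lt_of_le_of_lt ?_ hmain
    apply Nat.mul_le_mul_left
    rw [hD, mul_pow]
    exact Nat.mul_le_mul (Nat.pow_le_pow_right hp.pos hα) (Nat.pow_le_pow_right hr.pos hβ)

/-- a fixed nonempty set of at least two vertices completely joined to many independent vertices -/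
theorem join_fails (U : Type) [Finite U] (hU : 2 ≤ Nat.card U) : ∃ t₀ : ℕ, ∀ t ≥ t₀,
    ∀ G : SimpleGraph (U ⊕ Fin t), (∀ a i, G.Adj (Sum.inl a) (Sum.inr i)) →
      (∀ i k, ¬ G.Adj (Sum.inr i) (Sum.inr k)) → Fails G := by
  classical
  obtain ⟨δ, hδ, e₀, h⟩ := cover_fails (Nat.card U) (Nat.card U) hU
  obtain ⟨T, hT⟩ := exists_nat_ge (((Nat.card U * Nat.card U : ℕ) : ℝ) / δ)
  refine ⟨e₀ + T, fun t ht G hG1 hG2 => ?_⟩
  have : Nonempty U := by
    by_contra hne
    rw [not_nonempty_iff] at hne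
    rw [Nat.card_of_isEmpty] at hU
    omega
  obtain ⟨a₀⟩ := this
  have he : t ≤ G.edgeSet.ncard := by
    have h1 : ((fun i : Fin t => s(Sum.inl a₀, Sum.inr i)) '' Set.univ : Set (Sym2 (U ⊕ Fin t))) ⊆
        G.edgeSet := by
      rintro _ ⟨i, -, rfl⟩
      exact hG1 a₀ i
    have h2 := Set.ncard_le_ncard h1 (Set.toFinite _)
    rw [Set.ncard_image_of_injective, Set.ncard_univ, Nat.card_eq_fintype_card,
      Fintype.card_fin] at h2
    · exact h2
    · intro i k hik
      simp only [Sym2.eq_iff] at hik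
      rcases hik with ⟨-, h⟩ | ⟨h, -⟩
      · exact Sum.inr_injective h
      · cases h
  refine h _ G (Set.range Sum.inl) (Set.range Sum.inr) (by omega) ?_ ?_ ?_ ?_ ?_
  · rw [← Set.image_univ, Set.ncard_image_of_injective _ Sum.inl_injective, Set.ncard_univ]
  · rintro _ ⟨a, rfl⟩ ⟨i, hi⟩
    cases hi
  · rintro _ ⟨i, rfl⟩ x hx
    rcases x with a | k
    · exact ⟨a, rfl⟩
    · exact absurd hx (hG2 i k)
  · rintro _ ⟨i, rfl⟩
    have h1 : G.neighborSet (Sum.inr i) = Set.range Sum.inl := by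
      ext x
      rw [SimpleGraph.mem_neighborSet]
      constructor
      · intro hx
        rcases x with a | k
        · exact ⟨a, rfl⟩
        · exact absurd hx (hG2 i k)
      · rintro ⟨a, rfl⟩
        exact (hG1 a i).symm
    rw [h1, ← Set.image_univ, Set.ncard_image_of_injective _ Sum.inl_injective, Set.ncard_univ]
  · have h1 : {e | e ∈ G.edgeSet ∧ ∀ w ∈ Set.range (Sum.inr : Fin t → U ⊕ Fin t), w ∉ e} ⊆
        (fun r : U × U => (s(Sum.inl r.1, Sum.inl r.2) : Sym2 (U ⊕ Fin t))) '' Set.univ := by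
      rintro e ⟨he, he'⟩
      induction e using Sym2.ind with
      | _ x y =>
        rcases x with a | k
        · rcases y with b | l
          · exact ⟨(a, b), Set.mem_univ _, rfl⟩
          · exact absurd (Sym2.mem_mk_right _ _) (he' _ ⟨l, rfl⟩)
        · exact absurd (Sym2.mem_mk_left _ _) (he' _ ⟨k, rfl⟩)
    have h2 := (Set.ncard_le_ncard h1 (Set.toFinite _)).trans
      (Set.ncard_image_le (Set.toFinite _))
    rw [Set.ncard_univ, Nat.card_prod] at h2
    have h3 : (({e | e ∈ G.edgeSet ∧ ∀ w ∈ Set.range (Sum.inr : Fin t → U ⊕ Fin t),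
        w ∉ e}.ncard : ℕ) : ℝ) ≤ ((Nat.card U * Nat.card U : ℕ) : ℝ) := by exact_mod_cast h2
    refine h3.trans ?_
    rw [div_le_iff₀ hδ] at hT
    have h4 : (T : ℝ) ≤ G.edgeSet.ncard := by
      have : T ≤ G.edgeSet.ncard := by omega
      exact_mod_cast this
    nlinarith

/-- `K_{2,t}` fails whenever `2 t + 1` is divisible by the square of a prime -/
theorem two_fails (t p : ℕ) (hp : p.Prime) (hpt : p * p ∣ 2 * t + 1)
    (G : SimpleGraph (Fin 2 ⊕ Fin t)) (hG0 : ∀ a b, ¬ G.Adj (Sum.inl a) (Sum.inl b))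
    (hG1 : ∀ a i, G.Adj (Sum.inl a) (Sum.inr i))
    (hG2 : ∀ i k, ¬ G.Adj (Sum.inr i) (Sum.inr k)) : Fails G := by
  classical
  obtain ⟨k, hk⟩ := hpt
  have hp0 := hp.pos
  have hk0 : k ≠ 0 := by
    rintro rfl
    omega
  haveI : NeZero p := ⟨hp0.ne'⟩
  haveI : NeZero (p * k) := ⟨Nat.mul_ne_zero hp0.ne' hk0⟩
  have hcardA : Fintype.card (ZMod p × ZMod (p * k)) = 2 * t + 1 := by
    rw [Fintype.card_prod, ZMod.card, ZMod.card, hk]
    ring
  have hedge : G.edgeSet = (fun r : Fin 2 × Fin t =>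
      (s(Sum.inl r.1, Sum.inr r.2) : Sym2 (Fin 2 ⊕ Fin t))) '' Set.univ := by
    ext e
    induction e using Sym2.ind with
    | _ x y =>
      constructor
      · intro hxy
        rcases x with a | i <;> rcases y with b | l
        · exact absurd hxy (hG0 a b)
        · exact ⟨(a, l), Set.mem_univ _, rfl⟩
        · exact ⟨(b, i), Set.mem_univ _, Sym2.eq_swap⟩
        · exact absurd hxy (hG2 i l)
      · rintro ⟨⟨a, i⟩, -, h⟩
        rw [← h]
        exact hG1 a i
  have hncard : G.edgeSet.ncard = 2 * t := by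
    rw [hedge, Set.ncard_image_of_injective, Set.ncard_univ, Nat.card_prod]
    · simp
    · rintro ⟨a, i⟩ ⟨b, l⟩ h
      simp only [Sym2.eq_iff] at h
      rcases h with ⟨h1, h2⟩ | ⟨h1, -⟩
      · rw [Sum.inl_injective h1, Sum.inr_injective h2]
      · cases h1
  refine cay_fails (A := ZMod p × ZMod (p * k)) 0 G (by rw [hcardA, hncard]) (Set.range Sum.inl)
    (Set.range Sum.inr) ?_ ?_ 2 ?_ 0 ?_ ?_
  · rintro _ ⟨a, rfl⟩ ⟨i, hi⟩
    cases hi
  · rintro _ ⟨i, rfl⟩ x hx
    rcases x with a | k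
    · exact ⟨a, rfl⟩
    · exact absurd hx (hG2 i k)
  · rintro _ ⟨i, rfl⟩
    have h1 : G.neighborSet (Sum.inr i) = Set.range Sum.inl := by
      ext x
      rw [SimpleGraph.mem_neighborSet]
      constructor
      · intro hx
        rcases x with a | k
        · exact ⟨a, rfl⟩
        · exact absurd hx (hG2 i k)
      · rintro ⟨a, rfl⟩
        exact (hG1 a i).symm
    rw [h1, ← Set.image_univ, Set.ncard_image_of_injective _ Sum.inl_injective, Set.ncard_univ]
    simp
  · rw [Nat.le_zero, Set.ncard_eq_zero (Set.toFinite _), Set.eq_empty_iff_forall_notMem]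
    rintro e ⟨he, he'⟩
    rw [hedge] at he
    obtain ⟨⟨a, i⟩, -, rfl⟩ := he
    exact he' (Sum.inr i) ⟨i, rfl⟩ (Sym2.mem_mk_right _ _)
  · intro u
    refine ⟨u (Sum.inl 0), AddSubgroup.zmultiples (u (Sum.inl 1) - u (Sum.inl 0)), ?_, ?_, ?_⟩
    · rintro _ ⟨a, rfl⟩
      fin_cases a
      · simp
      · simp
    all_goals
      have h1 : Nat.card (AddSubgroup.zmultiples (u (Sum.inl 1) - u (Sum.inl 0))) ∣ p * k := by
        rw [Nat.card_zmultiples]
        apply addOrderOf_dvd_of_nsmul_eq_zero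
        apply Prod.ext
        · rw [Prod.smul_fst, mul_nsmul, nsmul_eq_mul p]
          simp
        · rw [Prod.smul_snd, nsmul_eq_mul, ZMod.natCast_self, zero_mul]
          rfl
    · intro h2
      have h3 : 2 ∣ 2 * t + 1 := by
        rw [hk]
        exact (h2.trans h1).trans ⟨p, by ring⟩
      omega
    · have h2 := Nat.le_of_dvd (Nat.pos_of_ne_zero (Nat.mul_ne_zero hp0.ne' hk0)) h1
      rw [hcardA, hk]
      have h3 := hp.two_le
      have h4 : 0 < p * k := Nat.pos_of_ne_zero (Nat.mul_ne_zero hp0.ne' hk0)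
      calc (1 + 0 + 0) * Nat.card (AddSubgroup.zmultiples (u (Sum.inl 1) - u (Sum.inl 0)))
          ≤ p * k := by omega
        _ < p * (p * k) := by nlinarith
        _ = p * p * k := by ring

end Pool.Agent.H907.ET
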