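import Mathlib

set_option autoImplicit false

/-!
# Numerical estimates for the union bound
-/

namespace Pool.Agent.H907.ET

theorem pow_succ_le (t : ℕ) (ht : 0 < t) : (t + 1) ^ t ≤ 3 * t ^ t := by
  have ht' : (0 : ℝ) < t := by exact_mod_cast ht
  have h1 : (1 + 1 / (t : ℝ)) ^ t ≤ 3 := by
    calc (1 + 1 / (t : ℝ)) ^ t ≤ (Real.exp (1 / t)) ^ t := by
          apply pow_le_pow_left₀ (by positivity)
          have := Real.add_one_le_exp (1 / (t : ℝ))
          linarith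
      _ = Real.exp (t * (1 / t)) := (Real.exp_nat_mul _ _).symm
      _ = Real.exp 1 := by
          congr 1
          field_simp
      _ ≤ 3 := by
          have := Real.exp_one_lt_d9
          linarith
  have h2 : (((t + 1 : ℕ) : ℝ)) ^ t ≤ 3 * (t : ℝ) ^ t := by
    have h3 : (((t + 1 : ℕ) : ℝ)) = t * (1 + 1 / t) := by
      push_cast
      field_simp
    rw [h3, mul_pow]
    nlinarith [pow_pos ht' t]
  exact_mod_cast h2

theorem pow_le_factorial (t : ℕ) : t ^ t ≤ 3 ^ t * t.factorial := by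
  induction t with
  | zero => simp
  | succ t ih =>
    rcases Nat.eq_zero_or_pos t with rfl | ht
    · simp
    · calc (t + 1) ^ (t + 1) = (t + 1) * (t + 1) ^ t := by ring
        _ ≤ (t + 1) * (3 * t ^ t) := Nat.mul_le_mul_left _ (pow_succ_le t ht)
        _ ≤ (t + 1) * (3 * (3 ^ t * t.factorial)) :=
          Nat.mul_le_mul_left _ (Nat.mul_le_mul_left _ ih)
        _ = 3 ^ (t + 1) * (t + 1).factorial := by
          rw [Nat.factorial_succ]
          ring

theorem lin_le_pow (a : ℕ) (ha : 32 ≤ a) : 4 * (32 * a + 31) ^ 2 ≤ 2 ^ a := by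
  induction a, ha using Nat.le_induction with
  | base => norm_num
  | succ a ha ih =>
    rw [pow_succ 2 a]
    nlinarith

theorem choose_bound (s t N : ℕ) (ht : 1 ≤ t) (hN : N ≤ 2 * (s * t)) :
    (2 * N).choose t ≤ (12 * s) ^ t := by
  have h1 : ((2 * N).choose t : ℝ) ≤ ((2 * N : ℕ) : ℝ) ^ t / t.factorial :=
    Nat.choose_le_pow_div t _
  have hf : (0 : ℝ) < t.factorial := by exact_mod_cast t.factorial_pos
  rw [le_div_iff₀ hf] at h1
  have h2 : (2 * N).choose t * t.factorial ≤ (2 * N) ^ t := by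
    exact_mod_cast h1
  have h3 := pow_le_factorial t
  have h4 : (2 * N).choose t * t ^ t ≤ (12 * s) ^ t * t ^ t := by
    calc (2 * N).choose t * t ^ t ≤
        (2 * N).choose t * (3 ^ t * t.factorial) := Nat.mul_le_mul_left _ h3
      _ = 3 ^ t * ((2 * N).choose t * t.factorial) := by ring
      _ ≤ 3 ^ t * (2 * N) ^ t := Nat.mul_le_mul_left _ h2
      _ = (6 * N) ^ t := by
        rw [← mul_pow]
        congr 1
        ring
      _ ≤ (12 * s * t) ^ t := by
        apply Nat.pow_le_pow_left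
        nlinarith
      _ = _ := by rw [← mul_pow]
  exact Nat.le_of_mul_le_mul_right h4 (by positivity)

theorem three_pow (m : ℕ) : 2 ^ (m / 2) * 2 ^ m ≤ 3 ^ m := by
  have e1 : m = 2 * (m / 2) + m % 2 := by omega
  have e2 : (8 : ℕ) ^ (m / 2) ≤ 9 ^ (m / 2) := Nat.pow_le_pow_left (by norm_num) _
  have e3 : (2 : ℕ) ^ (m % 2) ≤ 3 ^ (m % 2) := Nat.pow_le_pow_left (by norm_num) _
  calc 2 ^ (m / 2) * 2 ^ m = 2 ^ (m / 2) * 2 ^ (2 * (m / 2) + m % 2) := by rw [← e1]
    _ = 8 ^ (m / 2) * 2 ^ (m % 2) := by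
      rw [show (8 : ℕ) = 2 ^ 3 by norm_num, ← pow_mul, pow_add, ← mul_assoc, ← pow_add]
      congr 2
      ring
    _ ≤ 9 ^ (m / 2) * 3 ^ (m % 2) := Nat.mul_le_mul e2 e3
    _ = 3 ^ (2 * (m / 2) + m % 2) := by
      rw [show (9 : ℕ) = 3 ^ 2 by norm_num, ← pow_mul, pow_add]
    _ = 3 ^ m := by rw [← e1]

/-- the numerical estimate -/
theorem num_bound (s t N : ℕ) (hs : 1024 ≤ s) (ht : s ≤ t) (hN1 : s * t + 1 ≤ N)
    (hN2 : 2 * N ≤ 3 * (s * t) + 2) {m : ℕ} (hm : m = s * t - N / 2 - 1) :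
    (2 * N) ^ s * (2 * N).choose t * 2 ^ m < 3 ^ m := by
  have hP : 1024 * 1024 ≤ s * t := Nat.mul_le_mul hs (hs.trans ht)
  set P := s * t with hPdef
  have h1 : (2 * N).choose t ≤ 2 ^ (P / 32) := by
    have h2 : 12 * s ≤ 2 ^ (s / 32) := by
      have h3 := lin_le_pow (s / 32) (by omega)
      have h4 : s ≤ 32 * (s / 32) + 31 := by omega
      nlinarith
    calc (2 * N).choose t ≤ (12 * s) ^ t := choose_bound s t N (by omega) (by omega)
      _ ≤ (2 ^ (s / 32)) ^ t := Nat.pow_le_pow_left h2 t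
      _ = 2 ^ (s / 32 * t) := by rw [← pow_mul]
      _ ≤ 2 ^ (P / 32) := by
        apply Nat.pow_le_pow_right (by norm_num)
        rw [Nat.le_div_iff_mul_le (by norm_num)]
        have : s / 32 * 32 ≤ s := Nat.div_mul_le_self s 32
        nlinarith
  have h2 : (2 * N) ^ s ≤ 2 ^ (P / 32) := by
    have h3 : 2 * N ≤ 2 ^ (t / 32) := by
      have h3 := lin_le_pow (t / 32) (by omega)
      have h4 : t ≤ 32 * (t / 32) + 31 := by omega
      have h5 : P ≤ t * t := Nat.mul_le_mul_right t ht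
      have h6 : t * t ≤ (32 * (t / 32) + 31) * (32 * (t / 32) + 31) := Nat.mul_le_mul h4 h4
      nlinarith
    calc (2 * N) ^ s ≤ (2 ^ (t / 32)) ^ s := Nat.pow_le_pow_left h3 s
      _ = 2 ^ (t / 32 * s) := by rw [← pow_mul]
      _ ≤ 2 ^ (P / 32) := by
        apply Nat.pow_le_pow_right (by norm_num)
        rw [Nat.le_div_iff_mul_le (by norm_num)]
        have : t / 32 * 32 ≤ t := Nat.div_mul_le_self t 32
        nlinarith
  calc (2 * N) ^ s * (2 * N).choose t * 2 ^ m ≤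
      2 ^ (P / 32) * 2 ^ (P / 32) * 2 ^ m := Nat.mul_le_mul_right _ (Nat.mul_le_mul h2 h1)
    _ < 2 ^ (m / 2) * 2 ^ m := by
      apply Nat.mul_lt_mul_of_pos_right _ (by positivity)
      rw [← pow_add]
      apply Nat.pow_lt_pow_right (by norm_num)
      omega
    _ ≤ 3 ^ m := three_pow m

/-- the numerical estimate for dense graphs -/
theorem num_bound' (n N : ℕ) (hn : 4096 ≤ n) (hN : n * n ≤ 4 * N) (hN2 : 2 * N ≤ n * n + 2)
    {m : ℕ} (hm : m = N - 1 - N / 2 - 1) : (2 * N) ^ n * 2 ^ m < 3 ^ m := by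
  have hP : 4096 * 4096 ≤ n * n := Nat.mul_le_mul hn hn
  have h3 : 2 * N ≤ 2 ^ (n / 32) := by
    have h3 := lin_le_pow (n / 32) (by omega)
    have h4 : n ≤ 32 * (n / 32) + 31 := by omega
    have h6 : n * n ≤ (32 * (n / 32) + 31) * (32 * (n / 32) + 31) := Nat.mul_le_mul h4 h4
    nlinarith
  have h2 : (2 * N) ^ n ≤ 2 ^ (n * n / 32) := by
    calc (2 * N) ^ n ≤ (2 ^ (n / 32)) ^ n := Nat.pow_le_pow_left h3 n
      _ = 2 ^ (n / 32 * n) := by rw [← pow_mul]
      _ ≤ 2 ^ (n * n / 32) := by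
        apply Nat.pow_le_pow_right (by norm_num)
        rw [Nat.le_div_iff_mul_le (by norm_num)]
        have : n / 32 * 32 ≤ n := Nat.div_mul_le_self n 32
        nlinarith
  set Q := n * n with hQ
  calc (2 * N) ^ n * 2 ^ m ≤ 2 ^ (Q / 32) * 2 ^ m := Nat.mul_le_mul_right _ h2
    _ < 2 ^ (m / 2) * 2 ^ m := by
      apply Nat.mul_lt_mul_of_pos_right _ (by positivity)
      apply Nat.pow_lt_pow_right (by norm_num)
      omega
    _ ≤ 3 ^ m := three_pow m

end Pool.Agent.H907.ET
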