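import Pool.Agent.H907.ETNeg
import Pool.Agent.H907.ETBip4

set_option autoImplicit false

/-!
# Random sum colourings without large rainbow complete bipartite graphs
-/

namespace Pool.Agent.H907.ET

open Finset

/-- the three partitions of four elements into two pairs -/
def prt : Fin 3 → Fin 4 → ℕ := ![![0, 0, 1, 1], ![0, 1, 0, 1], ![0, 1, 1, 0]]

theorem prt_lt : ∀ ρ c, prt ρ c < 2 := by decide

theorem prt_card : ∀ ρ, ∀ ε : Fin 2, (univ.filter fun c => prt ρ c = ε.1).card = 2 := by decide

theorem prt_pair : ∀ c d, c ≠ d → ∃ ρ, prt ρ c = prt ρ d := by decide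

/-- the colour of the number `a`: blocks of four numbers receive two colours each -/
def fr (k : ℕ) (r : Fin k → Fin 3) (a : ℕ) : ℕ :=
  if h : a / 4 < k then
    2 * (a / 4) + prt (r ⟨a / 4, h⟩) ⟨a % 4, Nat.mod_lt _ (by norm_num)⟩
  else 2 * k

theorem fr_lt {N a : ℕ} (r : Fin (N / 2) → Fin 3) (ha : a < 2 * N) : fr (N / 2) r a < N := by
  unfold fr
  split_ifs with h
  · have := prt_lt (r ⟨a / 4, h⟩) ⟨a % 4, Nat.mod_lt _ (by norm_num)⟩
    omega
  · omega

theorem fr_card {N : ℕ} (r : Fin (N / 2) → Fin 3) (q : ℕ) (hq : q < N) :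
    ((Finset.range (2 * N)).filter fun a => fr (N / 2) r a = q).card = 2 := by
  by_cases h : q / 2 < N / 2
  · refine Eq.trans (Eq.symm ?_) (prt_card (r ⟨q / 2, h⟩) ⟨q % 2, Nat.mod_lt _ (by norm_num)⟩)
    apply Finset.card_bij (fun c _ => 4 * (q / 2) + c.1)
    · intro c hc
      simp only [mem_filter, mem_univ, true_and] at hc
      have hc4 := c.2
      have e1 : (4 * (q / 2) + c.1) / 4 = q / 2 := by omega
      have e2 : (4 * (q / 2) + c.1) % 4 = c.1 := by omega
      rw [mem_filter, mem_range]
      refine ⟨by omega, ?_⟩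
      unfold fr
      simp only [e1, e2, h, dif_pos]
      rw [hc]
      omega
    · intro c _ d _ hcd
      apply Fin.ext
      omega
    · intro a ha
      rw [mem_filter, mem_range] at ha
      obtain ⟨ha1, ha2⟩ := ha
      unfold fr at ha2
      split_ifs at ha2 with h'
      · have hl := prt_lt (r ⟨a / 4, h'⟩) ⟨a % 4, Nat.mod_lt _ (by norm_num)⟩
        have e1 : a / 4 = q / 2 := by omega
        refine ⟨⟨a % 4, Nat.mod_lt _ (by norm_num)⟩, ?_, ?_⟩
        · simp only [mem_filter, mem_univ, true_and]
          have e2 : (⟨a / 4, h'⟩ : Fin (N / 2)) = ⟨q / 2, h⟩ := Fin.ext e1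
          rw [e2] at ha2 hl
          omega
        · simp only
          omega
      · omega
  · have e : ((Finset.range (2 * N)).filter fun a => fr (N / 2) r a = q) =
        {4 * (N / 2), 4 * (N / 2) + 1} := by
      ext a
      rw [mem_filter, mem_range, mem_insert, mem_singleton]
      constructor
      · rintro ⟨h1, h2⟩
        unfold fr at h2
        split_ifs at h2 with h'
        · have := prt_lt (r ⟨a / 4, h'⟩) ⟨a % 4, Nat.mod_lt _ (by norm_num)⟩
          omega
        · omega
      · intro h1
        have h2 : ¬ a / 4 < N / 2 := by omega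
        refine ⟨by omega, ?_⟩
        unfold fr
        rw [dif_neg h2]
        omega
    rw [e, Finset.card_pair (by omega)]

section
variable {N : ℕ} [NeZero (2 * N)]

/-- the colour of a residue class modulo `2 N` -/
def fz (r : Fin (N / 2) → Fin 3) (a : ZMod (2 * N)) : Fin N :=
  ⟨fr (N / 2) r a.val, fr_lt r (ZMod.val_lt a)⟩

theorem fz_card (r : Fin (N / 2) → Fin 3) (x : ZMod (2 * N)) (q : Fin N) :
    (univ.filter fun y : ZMod (2 * N) => fz r (x + y) = q).card = 2 := by
  refine Eq.trans ?_ (fr_card r q.1 q.2)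
  apply Finset.card_bij (fun y _ => (x + y).val)
  · intro y hy
    simp only [mem_filter, mem_univ, true_and] at hy
    rw [mem_filter, mem_range]
    exact ⟨ZMod.val_lt _, congrArg Fin.val hy⟩
  · intro y _ y' _ h
    exact add_left_cancel (ZMod.val_injective _ h)
  · intro a ha
    rw [mem_filter, mem_range] at ha
    refine ⟨(a : ZMod (2 * N)) - x, ?_, ?_⟩
    · simp only [mem_filter, mem_univ, true_and]
      apply Fin.ext
      rw [add_sub_cancel]
      simp only [fz]
      rw [ZMod.val_natCast_of_lt ha.1]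
      exact ha.2
    · rw [add_sub_cancel]
      exact ZMod.val_natCast_of_lt ha.1

/-- the blocks with at least two elements of `S` -/
def I2 (S : Finset (ZMod (2 * N))) : Finset (Fin (N / 2)) :=
  univ.filter fun i => 2 ≤ (S.filter fun a => a.val / 4 = i.1).card

theorem le_I2 (S : Finset (ZMod (2 * N))) (r : Fin (N / 2) → Fin 3)
    (hr : Set.InjOn (fz r) (S : Set (ZMod (2 * N)))) : S.card ≤ N / 2 + (I2 S).card + 1 := by
  have h1 : (S.filter fun a => ¬ a.val / 4 < N / 2).card ≤ 1 := by
    rw [Finset.card_le_one]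
    intro a ha b hb
    rw [mem_filter] at ha hb
    apply hr ha.1 hb.1
    apply Fin.ext
    simp only [fz, fr]
    rw [dif_neg ha.2, dif_neg hb.2]
  have h2 : ∀ i : Fin (N / 2), (S.filter fun a => a.val / 4 = i.1).card ≤
      1 + if i ∈ I2 S then 1 else 0 := by
    intro i
    have h3 : (S.filter fun a => a.val / 4 = i.1).card ≤ 2 := by
      have h4 : (S.filter fun a => a.val / 4 = i.1).card ≤
          ({2 * i.1, 2 * i.1 + 1} : Finset ℕ).card := by
        apply Finset.card_le_card_of_injOn (fun a => (fz r a).1)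
        · intro a ha
          rw [mem_coe, mem_filter] at ha
          have hlt : a.val / 4 < N / 2 := by
            rw [ha.2]
            exact i.2
          have := prt_lt (r ⟨a.val / 4, hlt⟩) ⟨a.val % 4, Nat.mod_lt _ (by norm_num)⟩
          simp only [fz, fr]
          rw [dif_pos hlt]
          simp only [coe_insert, coe_singleton, Set.mem_insert_iff, Set.mem_singleton_iff]
          omega
        · intro a ha b hb hab
          rw [mem_coe, mem_filter] at ha hb
          exact hr ha.1 hb.1 (Fin.ext hab)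
      exact h4.trans Finset.card_le_two
    by_cases h5 : i ∈ I2 S
    · rw [if_pos h5]
      omega
    · rw [if_neg h5]
      simp only [I2, mem_filter, mem_univ, true_and, not_le] at h5
      omega
  have h3 : (S.filter fun a => a.val / 4 < N / 2).card ≤ N / 2 + (I2 S).card := by
    have h4 : (S.filter fun a => a.val / 4 < N / 2) ⊆
        univ.biUnion fun i : Fin (N / 2) => S.filter fun a => a.val / 4 = i.1 := by
      intro a ha
      rw [mem_filter] at ha
      rw [mem_biUnion]
      exact ⟨⟨a.val / 4, ha.2⟩, mem_univ _, mem_filter.2 ⟨ha.1, rfl⟩⟩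
    calc _ ≤ ∑ i : Fin (N / 2), (S.filter fun a => a.val / 4 = i.1).card :=
          (Finset.card_le_card h4).trans Finset.card_biUnion_le
      _ ≤ ∑ i : Fin (N / 2), (1 + if i ∈ I2 S then 1 else 0) :=
          Finset.sum_le_sum fun i _ => h2 i
      _ = _ := by
          rw [Finset.sum_add_distrib]
          simp
  have h4 := Finset.card_filter_add_card_filter_not (s := S) (fun a => a.val / 4 < N / 2)
  omega

theorem good_card (S : Finset (ZMod (2 * N))) {m : ℕ} (hm : m = S.card - N / 2 - 1) :
    (univ.filter fun r : Fin (N / 2) → Fin 3 =>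
      Set.InjOn (fz r) (S : Set (ZMod (2 * N)))).card ≤ 2 ^ m * 3 ^ (N / 2 - m) := by
  classical
  rcases Finset.eq_empty_or_nonempty (univ.filter fun r : Fin (N / 2) → Fin 3 =>
      Set.InjOn (fz r) (S : Set (ZMod (2 * N)))) with h0 | ⟨r₀, hr₀⟩
  · rw [h0, card_empty]
    exact Nat.zero_le _
  have hle := le_I2 S r₀ (mem_filter.1 hr₀).2
  have hI : (I2 S).card ≤ N / 2 := by
    have := Finset.card_le_univ (I2 S)
    rwa [Fintype.card_fin] at this
  have hex : ∀ i : Fin (N / 2), ∃ ρ : Fin 3, i ∈ I2 S → ∀ r : Fin (N / 2) → Fin 3,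
      Set.InjOn (fz r) (S : Set (ZMod (2 * N))) → r i ≠ ρ := by
    intro i
    by_cases hi : i ∈ I2 S
    · simp only [I2, mem_filter, mem_univ, true_and] at hi
      obtain ⟨a, ha, b, hb, hab⟩ := Finset.one_lt_card.1 (lt_of_lt_of_le Nat.one_lt_two hi)
      rw [mem_filter] at ha hb
      have hne : (⟨a.val % 4, Nat.mod_lt _ (by norm_num)⟩ : Fin 4) ≠
          ⟨b.val % 4, Nat.mod_lt _ (by norm_num)⟩ := by
        intro h
        have h' := congrArg Fin.val h
        simp only at h'
        apply hab
        apply ZMod.val_injective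
        omega
      obtain ⟨ρ, hρ⟩ := prt_pair _ _ hne
      refine ⟨ρ, fun _ r hr hri => hab ?_⟩
      apply hr ha.1 hb.1
      apply Fin.ext
      have ha' : a.val / 4 < N / 2 := by
        rw [ha.2]
        exact i.2
      have hb' : b.val / 4 < N / 2 := by
        rw [hb.2]
        exact i.2
      have ea : (⟨a.val / 4, ha'⟩ : Fin (N / 2)) = i := Fin.ext ha.2
      have eb : (⟨b.val / 4, hb'⟩ : Fin (N / 2)) = i := Fin.ext hb.2
      simp only [fz, fr]
      rw [dif_pos ha', dif_pos hb', ea, eb, hri, hρ, ha.2, hb.2]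
    · exact ⟨0, fun h => absurd h hi⟩
  choose ρ hρ using hex
  have hsub : (univ.filter fun r : Fin (N / 2) → Fin 3 =>
      Set.InjOn (fz r) (S : Set (ZMod (2 * N)))) ⊆
      Fintype.piFinset fun i => if i ∈ I2 S then univ.erase (ρ i) else univ := by
    intro r hr
    rw [mem_filter] at hr
    rw [Fintype.mem_piFinset]
    intro i
    by_cases hi : i ∈ I2 S
    · rw [if_pos hi, mem_erase]
      exact ⟨hρ i hi r hr.2, mem_univ _⟩
    · rw [if_neg hi]
      exact mem_univ _
  have h1 := Finset.card_le_card hsub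
  rw [Fintype.card_piFinset] at h1
  have h2 : ∀ i : Fin (N / 2), (if i ∈ I2 S then (univ : Finset (Fin 3)).erase (ρ i) else
      univ).card = if i ∈ I2 S then 2 else 3 := by
    intro i
    by_cases hi : i ∈ I2 S
    · rw [if_pos hi, if_pos hi, Finset.card_erase_of_mem (mem_univ _)]
      simp
    · rw [if_neg hi, if_neg hi]
      simp
  rw [Finset.prod_congr rfl fun i _ => h2 i, Finset.prod_ite, Finset.prod_const,
    Finset.prod_const] at h1
  have h3 : (univ.filter fun i => i ∈ I2 S).card = (I2 S).card := by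
    congr 1
    ext i
    simp
  have h4 : (univ.filter fun i => i ∉ I2 S).card = N / 2 - (I2 S).card := by
    have := Finset.card_filter_add_card_filter_not (s := (univ : Finset (Fin (N / 2))))
      (fun i => i ∈ I2 S)
    rw [h3, Finset.card_univ, Fintype.card_fin] at this
    omega
  rw [h3, h4] at h1
  refine h1.trans ?_
  obtain ⟨d, hd⟩ := Nat.exists_eq_add_of_le (by omega : m ≤ (I2 S).card)
  rw [hd]
  calc 2 ^ (m + d) * 3 ^ (N / 2 - (m + d)) = 2 ^ m * (2 ^ d * 3 ^ (N / 2 - (m + d))) := by ring
    _ ≤ 2 ^ m * (3 ^ d * 3 ^ (N / 2 - (m + d))) :=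
      Nat.mul_le_mul_left _ (Nat.mul_le_mul_right _ (Nat.pow_le_pow_left (by norm_num) d))
    _ = 2 ^ m * 3 ^ (N / 2 - m) := by
      rw [← pow_add]
      congr 2
      omega

end

end Pool.Agent.H907.ET
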