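import Pool.Agent.H907.ETBip3
import Pool.Agent.H907.ETBip5

set_option autoImplicit false

/-!
# Joins with large independent sets and dense graphs fail
-/

namespace Pool.Agent.H907.ET

open Finset

/-- the union bound -/
theorem union_bound {κ : Type} {N : ℕ} [NeZero (2 * N)] (Q : Finset κ)
    (S : κ → Finset (ZMod (2 * N))) (M : ℕ) {m : ℕ} (hm : m = M - N / 2 - 1) (hmN : m ≤ N / 2)
    (h : Q.card * 2 ^ m < 3 ^ m) : ∃ r : Fin (N / 2) → Fin 3, ∀ q ∈ Q, (S q).card = M →
      ¬ Set.InjOn (fz r) (S q : Set (ZMod (2 * N))) := by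
  classical
  by_contra hcon
  push Not at hcon
  let good : Finset (ZMod (2 * N)) → Finset (Fin (N / 2) → Fin 3) := fun S =>
    if S.card = M then univ.filter fun r => Set.InjOn (fz r) (S : Set (ZMod (2 * N))) else ∅
  have hgood : ∀ S, (good S).card ≤ 2 ^ m * 3 ^ (N / 2 - m) := by
    intro S
    by_cases h : S.card = M
    · simp only [good, h, if_true]
      exact good_card S (by rw [h, hm])
    · simp only [good, h, if_false, card_empty]
      exact Nat.zero_le _
  have hcov : (univ : Finset (Fin (N / 2) → Fin 3)) ⊆ Q.biUnion fun q => good (S q) := by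
    intro r _
    obtain ⟨q, h1, h2, h3⟩ := hcon r
    rw [mem_biUnion]
    refine ⟨q, h1, ?_⟩
    simp only [good, h2, if_true, mem_filter, mem_univ, true_and]
    exact h3
  have h1 := Finset.card_le_card hcov
  have h2 : (Q.biUnion fun q => good (S q)).card ≤ Q.card * (2 ^ m * 3 ^ (N / 2 - m)) := by
    refine Finset.card_biUnion_le.trans ((Finset.sum_le_card_nsmul _ _ _
      (fun q _ => hgood (S q))).trans (le_of_eq ?_))
    rw [smul_eq_mul]
  rw [Finset.card_univ, Fintype.card_fun, Fintype.card_fin, Fintype.card_fin] at h1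
  have h4 : 3 ^ m * 3 ^ (N / 2 - m) ≤ (Q.card * 2 ^ m) * 3 ^ (N / 2 - m) := by
    calc 3 ^ m * 3 ^ (N / 2 - m) = 3 ^ (N / 2) := by
          rw [← pow_add]
          congr 1
          omega
      _ ≤ _ := h1.trans h2
      _ = _ := by ring
  have h5 := Nat.le_of_mul_le_mul_right h4 (by positivity)
  omega

/-- the number of edges of a join -/
theorem join_edges (s t : ℕ) (G : SimpleGraph (Fin s ⊕ Fin t))
    (hG1 : ∀ a i, G.Adj (Sum.inl a) (Sum.inr i)) (hG2 : ∀ i k, ¬ G.Adj (Sum.inr i) (Sum.inr k)) :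
    s * t ≤ G.edgeSet.ncard ∧ G.edgeSet.ncard ≤ s * t + s.choose 2 := by
  classical
  set cross : Set (Sym2 (Fin s ⊕ Fin t)) := (fun r : Fin s × Fin t =>
      (s(Sum.inl r.1, Sum.inr r.2) : Sym2 (Fin s ⊕ Fin t))) '' Set.univ with hcross
  have hc : cross.ncard = s * t := by
    rw [hcross, Set.ncard_image_of_injective, Set.ncard_univ, Nat.card_prod]
    · simp
    · rintro ⟨a, i⟩ ⟨b, l⟩ h
      simp only [Sym2.eq_iff] at h
      rcases h with ⟨h1, h2⟩ | ⟨h1, -⟩
      · rw [Sum.inl_injective h1, Sum.inr_injective h2]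
      · cases h1
  constructor
  · rw [← hc]
    apply Set.ncard_le_ncard _ (Set.toFinite _)
    rintro _ ⟨⟨a, i⟩, -, rfl⟩
    exact hG1 a i
  · have h1 : G.edgeSet ⊆ cross ∪
        Sym2.map Sum.inl '' (G.comap (Sum.inl : Fin s → Fin s ⊕ Fin t)).edgeSet := by
      intro e he
      induction e using Sym2.ind with
      | _ x y =>
        rcases x with a | i <;> rcases y with b | l
        · exact Or.inr ⟨s(a, b), he, rfl⟩
        · exact Or.inl ⟨(a, l), Set.mem_univ _, rfl⟩
        · exact Or.inl ⟨(b, i), Set.mem_univ _, Sym2.eq_swap⟩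
        · exact absurd he (hG2 i l)
    have h2 : (G.comap (Sum.inl : Fin s → Fin s ⊕ Fin t)).edgeSet.ncard ≤ s.choose 2 := by
      rw [← SimpleGraph.coe_edgeFinset, Set.ncard_coe_finset]
      have := (G.comap (Sum.inl : Fin s → Fin s ⊕ Fin t)).card_edgeFinset_le_card_choose_two
      rwa [Fintype.card_fin] at this
    calc G.edgeSet.ncard ≤ (cross ∪
          Sym2.map Sum.inl '' (G.comap (Sum.inl : Fin s → Fin s ⊕ Fin t)).edgeSet).ncard :=
        Set.ncard_le_ncard h1 (Set.toFinite _)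
      _ ≤ cross.ncard +
          (Sym2.map Sum.inl '' (G.comap (Sum.inl : Fin s → Fin s ⊕ Fin t)).edgeSet).ncard :=
        Set.ncard_union_le _ _
      _ ≤ s * t + s.choose 2 := by
        rw [hc]
        exact Nat.add_le_add_left ((Set.ncard_image_le (Set.toFinite _)).trans h2) _

/-- large joins fail -/
theorem big_fails (s t : ℕ) (hs : 1024 ≤ s) (ht : s ≤ t) (G : SimpleGraph (Fin s ⊕ Fin t))
    (hG1 : ∀ a i, G.Adj (Sum.inl a) (Sum.inr i))
    (hG2 : ∀ i k, ¬ G.Adj (Sum.inr i) (Sum.inr k)) : Fails G := by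
  classical
  obtain ⟨he1, he2⟩ := join_edges s t G hG1 hG2
  set N := G.edgeSet.ncard + 1 with hNdef
  have hN1 : s * t + 1 ≤ N := by omega
  have hN2 : 2 * N ≤ 3 * (s * t) + 2 := by
    have h1 : 2 * s.choose 2 ≤ s * t := by
      rw [Nat.choose_two_right]
      have h2 : 2 * (s * (s - 1) / 2) ≤ s * (s - 1) := Nat.mul_div_le _ _
      have h3 : s * (s - 1) ≤ s * t := Nat.mul_le_mul_left s (by omega)
      omega
    omega
  haveI : NeZero (2 * N) := ⟨by omega⟩
  have hP : 1024 * 1024 ≤ s * t := Nat.mul_le_mul hs (hs.trans ht)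
  obtain ⟨r, hr⟩ := union_bound (N := N)
    ((univ : Finset (Fin s → ZMod (2 * N))) ×ˢ powersetCard t (univ : Finset (ZMod (2 * N))))
    (fun q => (univ ×ˢ q.2).image fun p : Fin s × ZMod (2 * N) => q.1 p.1 + p.2) (s * t) rfl
    (by omega) (by
      rw [card_product, card_powersetCard, Finset.card_univ, Finset.card_univ,
        Fintype.card_fun, ZMod.card, Fintype.card_fin]
      exact num_bound s t N hs ht hN1 hN2 rfl)
  intro n₀
  obtain ⟨n, hn, c, hc, π, hπ⟩ := blowup_core (X := ZMod (2 * N))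
    (fun x y => fz r (x + y)) (fun x y => by rw [add_comm]) (fun x i => by
      rw [fz_card, ZMod.card]) n₀
  refine ⟨n, hn, c, hc, ?_⟩
  rintro ⟨f, hf⟩
  let x : Fin s → ZMod (2 * N) := fun i => π (f (Sum.inl i))
  let w : Fin t → ZMod (2 * N) := fun k => π (f (Sum.inr k))
  have key : ∀ i k i' k', fz r (x i + w k) = fz r (x i' + w k') → i = i' ∧ k = k' := by
    intro i k i' k' h
    have h1 := hf _ _ _ _ (hG1 i k) (hG1 i' k') (by rw [hπ, hπ]; exact h)
    rw [Sym2.eq_iff] at h1
    rcases h1 with ⟨h1, h2⟩ | ⟨h1, -⟩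
    · exact ⟨Sum.inl_injective h1, Sum.inr_injective h2⟩
    · cases h1
  have hw : Function.Injective w := by
    intro k k' h
    exact (key ⟨0, by omega⟩ k ⟨0, by omega⟩ k' (by rw [h])).2
  have hT : (univ.image w).card = t := by
    rw [Finset.card_image_of_injective _ hw]
    simp
  refine hr (x, univ.image w) ?_ ?_ ?_
  · rw [mem_product, mem_powersetCard]
    exact ⟨mem_univ _, subset_univ _, hT⟩
  · show ((univ ×ˢ univ.image w).image fun p : Fin s × ZMod (2 * N) => x p.1 + p.2).card = s * t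
    rw [Finset.card_image_of_injOn, card_product, hT, Finset.card_univ, Fintype.card_fin]
    rintro ⟨i, a⟩ ha ⟨i', a'⟩ ha' h
    simp only [coe_product, coe_univ, coe_image, Set.image_univ, Set.mem_prod, Set.mem_univ,
      Set.mem_range, true_and] at ha ha' h
    obtain ⟨k, rfl⟩ := ha
    obtain ⟨k', rfl⟩ := ha'
    obtain ⟨rfl, rfl⟩ := key i k i' k' (by rw [h])
    rfl
  · intro a ha a' ha' h
    simp only [coe_image, coe_product, coe_univ, Set.image_univ, Set.mem_image, Set.mem_prod,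
      Set.mem_univ, Set.mem_range, true_and, Prod.exists] at ha ha'
    obtain ⟨i, b, ⟨k, rfl⟩, rfl⟩ := ha
    obtain ⟨i', b', ⟨k', rfl⟩, rfl⟩ := ha'
    obtain ⟨rfl, rfl⟩ := key i k i' k' h
    rfl

theorem Fails.of_iso {V V' : Type} {G : SimpleGraph V} {G' : SimpleGraph V'} (φ : G ≃g G')
    (h : Fails G) : Fails G' := by
  have hcard : G.edgeSet.ncard = G'.edgeSet.ncard := by
    rw [← Nat.card_coe_set_eq, ← Nat.card_coe_set_eq]
    exact Nat.card_congr φ.mapEdgeSet
  unfold Fails at h ⊢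
  rw [← hcard]
  intro n₀
  obtain ⟨n, hn, c, hc, hr⟩ := h n₀
  refine ⟨n, hn, c, hc, ?_⟩
  rintro ⟨f, hf⟩
  apply hr
  refine ⟨φ.toEquiv.toEmbedding.trans f, ?_⟩
  intro a b a' b' h1 h2 h3
  have h4 := hf (φ a) (φ b) (φ a') (φ b') (φ.map_adj_iff.2 h1) (φ.map_adj_iff.2 h2) h3
  rw [Sym2.eq_iff] at h4 ⊢
  simpa [φ.injective.eq_iff] using h4

/-- all joins of a graph on at least two vertices with an independent set which is at least as large
fail, up to finitely many exceptions -/
theorem joins_fail : ∃ C : ℕ, ∀ s t : ℕ, 2 ≤ s → s ≤ t → C ≤ s + t →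
    ∀ G : SimpleGraph (Fin s ⊕ Fin t), (∀ a i, G.Adj (Sum.inl a) (Sum.inr i)) →
      (∀ i k, ¬ G.Adj (Sum.inr i) (Sum.inr k)) → Fails G := by
  have h1 : ∀ s : ℕ, ∃ t₀ : ℕ, 2 ≤ s → ∀ t ≥ t₀, ∀ G : SimpleGraph (Fin s ⊕ Fin t),
      (∀ a i, G.Adj (Sum.inl a) (Sum.inr i)) → (∀ i k, ¬ G.Adj (Sum.inr i) (Sum.inr k)) →
      Fails G := by
    intro s
    by_cases hs : 2 ≤ s
    · obtain ⟨t₀, h⟩ := join_fails (Fin s) (by simpa using hs)
      exact ⟨t₀, fun _ => h⟩
    · exact ⟨0, fun h => absurd h hs⟩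
  choose t₀ ht₀ using h1
  refine ⟨1024 + (Finset.range 1024).sup t₀, fun s t hs hst hC G hG1 hG2 => ?_⟩
  by_cases h : 1024 ≤ s
  · exact big_fails s t h hst G hG1 hG2
  · have h2 : t₀ s ≤ (Finset.range 1024).sup t₀ :=
      Finset.le_sup (f := t₀) (Finset.mem_range.2 (by omega))
    exact ht₀ s hs t (by omega) G hG1 hG2

/-- dense graphs fail -/
theorem dense_fails {V : Type} [Finite V] (G : SimpleGraph V) (hn : 4096 ≤ Nat.card V)
    (he : Nat.card V * Nat.card V ≤ 4 * (G.edgeSet.ncard + 1)) : Fails G := by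
  classical
  have : Fintype V := Fintype.ofFinite V
  set n := Nat.card V with hndef
  have hP : 4096 * 4096 ≤ n * n := Nat.mul_le_mul hn hn
  have he2 : 2 * (G.edgeSet.ncard + 1) ≤ n * n + 2 := by
    have h1 : G.edgeSet.ncard ≤ n.choose 2 := by
      rw [← SimpleGraph.coe_edgeFinset, Set.ncard_coe_finset]
      have := G.card_edgeFinset_le_card_choose_two
      rwa [← Nat.card_eq_fintype_card] at this
    rw [Nat.choose_two_right] at h1
    have h2 : 2 * (n * (n - 1) / 2) ≤ n * (n - 1) := Nat.mul_div_le _ _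
    have h3 : n * (n - 1) ≤ n * n := Nat.mul_le_mul_left n (by omega)
    omega
  set N := G.edgeSet.ncard + 1 with hNdef
  haveI : NeZero (2 * N) := ⟨by omega⟩
  obtain ⟨r, hr⟩ := union_bound (N := N) (univ : Finset (V → ZMod (2 * N)))
    (fun x => (univ.filter fun p : V × V => G.Adj p.1 p.2).image fun p => x p.1 + x p.2)
    (N - 1) rfl (by omega) (by
      rw [Finset.card_univ, Fintype.card_fun, ZMod.card, ← Nat.card_eq_fintype_card]
      exact num_bound' n N hn he he2 rfl)
  intro n₀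
  obtain ⟨l, hn, c, hc, π, hπ⟩ := blowup_core (X := ZMod (2 * N))
    (fun x y => fz r (x + y)) (fun x y => by rw [add_comm]) (fun x i => by
      rw [fz_card, ZMod.card]) n₀
  refine ⟨l, hn, c, hc, ?_⟩
  rintro ⟨f, hf⟩
  let x : V → ZMod (2 * N) := fun v => π (f v)
  have key : ∀ a b a' b', G.Adj a b → G.Adj a' b' → fz r (x a + x b) = fz r (x a' + x b') →
      s(a, b) = s(a', b') := by
    intro a b a' b' h1 h2 h
    exact hf _ _ _ _ h1 h2 (by rw [hπ, hπ]; exact h)
  have hsum : ∀ a b a' b', s(a, b) = s(a', b') → x a + x b = x a' + x b' := by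
    intro a b a' b' h
    rw [Sym2.eq_iff] at h
    rcases h with ⟨rfl, rfl⟩ | ⟨rfl, rfl⟩
    · rfl
    · exact add_comm _ _
  refine hr x (mem_univ _) ?_ ?_
  · show ((univ.filter fun p : V × V => G.Adj p.1 p.2).image fun p => x p.1 + x p.2).card = N - 1
    have h1 : N - 1 = G.edgeFinset.card := by
      rw [← Set.ncard_coe_finset, SimpleGraph.coe_edgeFinset]
      omega
    rw [h1]
    symm
    let σ : Sym2 V → ZMod (2 * N) := Sym2.lift ⟨fun a b => x a + x b, fun a b => add_comm _ _⟩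
    apply Finset.card_bij (fun e _ => σ e)
    · intro e he
      induction e using Sym2.ind with
      | _ a b =>
        rw [SimpleGraph.mem_edgeFinset, SimpleGraph.mem_edgeSet] at he
        exact mem_image.2 ⟨(a, b), by simpa using he, rfl⟩
    · intro e he e' he' h
      induction e using Sym2.ind with
      | _ a b =>
        induction e' using Sym2.ind with
        | _ a' b' =>
          rw [SimpleGraph.mem_edgeFinset, SimpleGraph.mem_edgeSet] at he he'
          have h' : x a + x b = x a' + x b' := h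
          exact key a b a' b' he he' (by rw [h'])
    · intro y hy
      obtain ⟨⟨a, b⟩, hab, rfl⟩ := mem_image.1 hy
      refine ⟨s(a, b), ?_, rfl⟩
      rw [SimpleGraph.mem_edgeFinset, SimpleGraph.mem_edgeSet]
      simpa using hab
  · intro y hy y' hy' h
    obtain ⟨⟨a, b⟩, hab, rfl⟩ := mem_image.1 (mem_coe.1 hy)
    obtain ⟨⟨a', b'⟩, hab', rfl⟩ := mem_image.1 (mem_coe.1 hy')
    simp only [mem_filter, mem_univ, true_and] at hab hab'
    exact hsum a b a' b' (key a b a' b' hab hab' h)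

end Pool.Agent.H907.ET
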