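import Pool.Agent.H907.ETPos7

set_option autoImplicit false

/-!
# Small cores: the theorem
-/

namespace Pool.Agent.H907.ET

open Finset

theorem eq_A4 (B : Fin 4 → Fin 4 → Bool) (hs : ∀ i j, B i j = B j i) (h0 : ∀ i, B i i = false) :
    B = A4 (B 0 1) (B 0 2) (B 0 3) (B 1 2) (B 1 3) (B 2 3) := by
  funext i j
  fin_cases i <;> fin_cases j <;> simp [A4, h0, hs 1 0, hs 2 0, hs 3 0, hs 2 1, hs 3 1, hs 3 2]

theorem eq_A5 (B : Fin 5 → Fin 5 → Bool) (hs : ∀ i j, B i j = B j i) (h0 : ∀ i, B i i = false) :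
    B = A5 (B 0 1) (B 0 2) (B 0 3) (B 0 4) (B 1 2) (B 1 3) (B 1 4) (B 2 3) (B 2 4) (B 3 4) := by
  funext i j
  fin_cases i <;> fin_cases j <;> simp [A5, h0, hs 1 0, hs 2 0, hs 3 0, hs 4 0, hs 2 1, hs 3 1,
    hs 4 1, hs 3 2, hs 4 2, hs 4 3]

variable {V : Type} {n N : ℕ}

/-- the part of `G` on `T` has a rainbow copy -/
def RainbowOn (c : EdgeColouring n N) (G : SimpleGraph V) (T : Finset V) : Prop :=
  ∃ F : V → Fin n, Set.InjOn F T ∧ ∀ a ∈ T, ∀ b ∈ T, ∀ a' ∈ T, ∀ b' ∈ T, G.Adj a b →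
    G.Adj a' b' → c.col (F a) (F b) = c.col (F a') (F b') → s(a, b) = s(a', b')

theorem exists_theta [DecidableEq V] {T : Finset V} {k : ℕ} (hk : T.card = k) :
    ∃ θ : Fin k → V, Function.Injective θ ∧ (∀ i, θ i ∈ T) ∧ ∀ v ∈ T, ∃ i, θ i = v := by
  let e := T.equivFinOfCardEq hk
  refine ⟨fun i => (e.symm i : V), ?_, fun i => (e.symm i).2, ?_⟩
  · intro i j h
    exact e.symm.injective (Subtype.ext h)
  · intro v hv
    exact ⟨e ⟨v, hv⟩, by simp⟩

theorem rainbowOn_of_pattern {c : EdgeColouring n N} {G : SimpleGraph V} {T : Finset V} {k : ℕ}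
    {H : SimpleGraph (Fin k)} (hH : c.HasRainbow H) (hk0 : 0 < k) {θ : Fin k → V}
    (hθ : Function.Injective θ) (hθT : ∀ v ∈ T, ∃ i, θ i = v) {σ : Fin k → Fin k}
    (hσ : Function.Injective σ) (hσH : ∀ i j, G.Adj (θ i) (θ j) → H.Adj (σ i) (σ j)) :
    RainbowOn c G T := by
  classical
  obtain ⟨f, hf⟩ := hH
  have : Nonempty (Fin k) := ⟨⟨0, hk0⟩⟩
  let ψ : V → Fin k := Function.invFun θ
  have hψ : ∀ i, ψ (θ i) = i := fun i => Function.leftInverse_invFun hθ i
  refine ⟨fun v => f (σ (ψ v)), ?_, ?_⟩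
  · intro v hv v' hv' h
    obtain ⟨i, rfl⟩ := hθT v hv
    obtain ⟨j, rfl⟩ := hθT v' hv'
    simp only [hψ] at h
    rw [hσ (f.injective h)]
  · intro a ha b hb a' ha' b' hb' hab hab' h
    obtain ⟨i, rfl⟩ := hθT a ha
    obtain ⟨j, rfl⟩ := hθT b hb
    obtain ⟨i', rfl⟩ := hθT a' ha'
    obtain ⟨j', rfl⟩ := hθT b' hb'
    simp only [hψ] at h
    have h1 := hf _ _ _ _ (hσH i j hab) (hσH i' j' hab') h
    rw [Sym2.eq_iff] at h1 ⊢
    rcases h1 with ⟨h1, h2⟩ | ⟨h1, h2⟩
    · exact Or.inl ⟨by rw [hσ h1], by rw [hσ h2]⟩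
    · exact Or.inr ⟨by rw [hσ h1], by rw [hσ h2]⟩

open Classical in
/-- the number of neighbours of `v` in `T` -/
noncomputable def dg (G : SimpleGraph V) (T : Finset V) (v : V) : ℕ := (T.filter (G.Adj v)).card

theorem dg_eq {G : SimpleGraph V} {T : Finset V} {k : ℕ} {θ : Fin k → V}
    (hθ : Function.Injective θ) (hθ1 : ∀ i, θ i ∈ T) (hθ2 : ∀ v ∈ T, ∃ i, θ i = v)
    (B : Fin k → Fin k → Bool) (hB : ∀ i j, B i j = true ↔ G.Adj (θ i) (θ j)) (i : Fin k) :
    bdeg B i = dg G T (θ i) := by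
  classical
  unfold bdeg dg
  have h1 : ∑ j, (B i j).toNat = (univ.filter fun j => B i j = true).card := by
    rw [Finset.card_filter]
    refine Finset.sum_congr rfl fun j _ => ?_
    cases B i j <;> simp
  rw [h1]
  apply Finset.card_bij (fun j _ => θ j)
  · intro j hj
    simp only [mem_filter, mem_univ, true_and] at hj ⊢
    exact ⟨hθ1 j, (hB i j).1 hj⟩
  · intro j _ j' _ h
    exact hθ h
  · intro v hv
    simp only [mem_filter] at hv
    obtain ⟨j, rfl⟩ := hθ2 v hv.1
    exact ⟨j, by simpa using (hB i j).2 hv.2, rfl⟩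

theorem sum_dg [DecidableEq V] (G : SimpleGraph V) (T : Finset V) :
    ∑ v ∈ T, dg G T v = 2 * (G.induce (T : Set V)).edgeSet.ncard := by
  classical
  have h1 := (G.induce (T : Set V)).sum_degrees_eq_twice_card_edges
  rw [← SimpleGraph.coe_edgeFinset, Set.ncard_coe_finset, ← h1]
  rw [Finset.sum_subtype (p := fun v => v ∈ (T : Set V)) T (fun x => by simp) (dg G T)]
  refine Finset.sum_congr rfl fun v _ => ?_
  rw [← SimpleGraph.card_neighborFinset_eq_degree]
  unfold dg
  symm
  apply Finset.card_bij (fun (w : {v : V // v ∈ (T : Set V)}) _ => (w : V))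
  · intro w hw
    rw [SimpleGraph.mem_neighborFinset] at hw
    simp only [mem_filter]
    exact ⟨w.2, hw⟩
  · intro w _ w' _ h
    exact Subtype.ext h
  · intro w hw
    simp only [mem_filter] at hw
    exact ⟨⟨w, hw.1⟩, by rw [SimpleGraph.mem_neighborFinset]; exact hw.2, rfl⟩

theorem ncard_induce_le [Finite V] (G : SimpleGraph V) (T : Finset V) :
    (G.induce (T : Set V)).edgeSet.ncard ≤ G.edgeSet.ncard := by
  apply Set.ncard_le_ncard_of_injOn (Sym2.map Subtype.val)
  · intro e he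
    induction e using Sym2.ind with
    | _ a b => exact he
  · exact (Sym2.map.injective Subtype.val_injective).injOn

/-- a set all of whose vertices have at least two neighbours inside and which spans at most five
edges has a rainbow copy -/
theorem rainbowOn_core [DecidableEq V] {c : EdgeColouring n N} {ε : ℝ} (hε : 0 ≤ ε)
    (hb : c.Balanced ε) (hε2 : 100 * (N : ℝ) ^ 2 * ε ≤ 1)
    (hn : 10000 * N * (2 ^ (N * N) + 10) < n) {G : SimpleGraph V} {T : Finset V}
    (hT : T.Nonempty) (hdeg : ∀ v ∈ T, 2 ≤ dg G T v)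
    (h5 : (G.induce (T : Set V)).edgeSet.ncard ≤ 5)
    (hN : (G.induce (T : Set V)).edgeSet.ncard + 1 ≤ N) : RainbowOn c G T := by
  classical
  have hsum := sum_dg G T
  set E := (G.induce (T : Set V)).edgeSet.ncard with hE
  have hlow : T.card * 2 ≤ ∑ v ∈ T, dg G T v := by
    have := Finset.card_nsmul_le_sum T (dg G T) 2 hdeg
    simpa using this
  have hup : ∀ v ∈ T, dg G T v + 1 ≤ T.card := by
    intro v hv
    have h1 : T.filter (G.Adj v) ⊆ T.erase v := by
      intro w hw
      rw [Finset.mem_filter] at hw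
      rw [Finset.mem_erase]
      exact ⟨fun e => G.loopless.irrefl v (by rw [e] at hw; exact hw.2), hw.1⟩
    have h2 := Finset.card_le_card h1
    rw [Finset.card_erase_of_mem hv] at h2
    have h3 : 0 < T.card := Finset.card_pos.2 ⟨v, hv⟩
    unfold dg
    omega
  obtain ⟨v₀, hv₀⟩ := hT
  have hc3 : 3 ≤ T.card := by
    have h1 := hdeg v₀ hv₀
    have h2 := hup v₀ hv₀
    omega
  have hc5 : T.card ≤ 5 := by omega
  have hn1 : 100000 * N < n := by
    have : 0 < 2 ^ (N * N) := by positivity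
    nlinarith
  have hε3 : 2 * (N : ℝ) ^ 2 * ε ≤ 1 := by
    have : 0 ≤ (N : ℝ) ^ 2 * ε := by positivity
    linarith
  obtain ⟨k, hk⟩ : ∃ k, T.card = k := ⟨_, rfl⟩
  obtain ⟨θ, hθ, hθ1, hθ2⟩ := exists_theta hk
  let B : Fin k → Fin k → Bool := fun i j => decide (G.Adj (θ i) (θ j))
  have hB : ∀ i j, B i j = true ↔ G.Adj (θ i) (θ j) := fun i j => by simp [B]
  have hBs : ∀ i j, B i j = B j i := fun i j => by simp [B, G.adj_comm]
  have hB0 : ∀ i, B i i = false := fun i => by simp [B]
  have hBd : ∀ i, 2 ≤ bdeg B i := fun i => by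
    rw [dg_eq hθ hθ1 hθ2 B hB i]
    exact hdeg _ (hθ1 i)
  have hBsum : ∑ i, bdeg B i = 2 * E := by
    rw [← hsum]
    rw [Finset.sum_congr rfl (fun i _ => dg_eq hθ hθ1 hθ2 B hB i)]
    have himg : T = univ.image θ := by
      ext v
      simp only [mem_image, mem_univ, true_and]
      exact ⟨fun hv => hθ2 v hv, fun ⟨i, hi⟩ => hi ▸ hθ1 i⟩
    conv_rhs => rw [himg]
    rw [Finset.sum_image (fun i _ j _ h => hθ h), ← himg]
  rw [hk] at hc3 hc5 hlow
  interval_cases k
  · -- three vertices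
    have hN4 : 4 ≤ N := by omega
    refine rainbowOn_of_pattern (EdgeColouring.rainbow_P3 hε hb hN4 hε3 (by omega)) (by norm_num)
      hθ hθ2 (σ := id) Function.injective_id ?_
    intro i j hij
    intro e
    have e' : i = j := e
    rw [e'] at hij
    exact G.loopless.irrefl _ hij
  · -- four vertices
    rcases Nat.lt_or_ge E 5 with h4 | h4
    · have hE4 : E = 4 := by omega
      have hA := eq_A4 B hBs hB0
      obtain ⟨σ, hσ, hσH⟩ := cls4 (B 0 1) (B 0 2) (B 0 3) (B 1 2) (B 1 3) (B 2 3)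
        (by rw [← hA]; exact hBd) (by rw [← hA, hBsum, hE4])
      rw [← hA] at hσH
      exact rainbowOn_of_pattern (EdgeColouring.rainbow_P4 hε hb (by omega) hε3 (by omega))
        (by norm_num) hθ hθ2 hσ (fun i j hij => hσH i j ((hB i j).2 hij))
    · have hA := eq_A4 B hBs hB0
      obtain ⟨σ, hσ, hσH⟩ := cls4' (B 0 1) (B 0 2) (B 0 3) (B 1 2) (B 1 3) (B 2 3)
        (by rw [← hA, hBsum]; omega)
      rw [← hA] at hσH
      exact rainbowOn_of_pattern (EdgeColouring.rainbow_Pd hε hb (by omega) hε2 (by omega))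
        (by norm_num) hθ hθ2 hσ (fun i j hij => hσH i j ((hB i j).2 hij))
  · -- five vertices
    have hA := eq_A5 B hBs hB0
    obtain ⟨s₁, s₂, s₃, s₄, hσ, hσH⟩ := cls5_aux (B 0 1) (B 0 2) (B 0 3) (B 0 4) (B 1 2) (B 1 3)
      (B 1 4) (B 2 3) (B 2 4) (B 3 4) (by rw [← hA]; exact hBd) (by rw [← hA, hBsum]; omega)
    rw [← hA] at hσH
    exact rainbowOn_of_pattern (EdgeColouring.rainbow_P5 hε hb (by omega) hε2 hn)
      (by norm_num) hθ hθ2 hσ (fun i j hij => hσH i j ((hB i j).2 hij))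

/-- adding a vertex with at most one neighbour -/
theorem rainbowOn_ext [DecidableEq V] [Finite V] {c : EdgeColouring n N} {G : SimpleGraph V}
    {T : Finset V} (hTn : T.card < n) (hN : G.edgeSet.ncard < N)
    (hdeg : ∀ x p, T.card < c.deg x p) {v : V} (hv : v ∈ T) (h1 : dg G T v ≤ 1)
    (h : RainbowOn c G (T.erase v)) : RainbowOn c G T := by
  classical
  let _ : Fintype V := Fintype.ofFinite V
  obtain ⟨F, hF, hFr⟩ := h
  have hcard : ((T.erase v).image F).card ≤ T.card :=
    Finset.card_image_le.trans (Finset.card_le_card (Finset.erase_subset _ _))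
  -- a suitable new vertex
  have key : ∀ S : Finset (Fin n), T.card < S.card → ∃ z ∈ S, z ∉ (T.erase v).image F := by
    intro S hS
    by_contra hcon
    push Not at hcon
    have := Finset.card_le_card (show S ⊆ (T.erase v).image F from hcon)
    omega
  -- every embedding of this kind is injective
  have hinj : ∀ z, z ∉ (T.erase v).image F → Set.InjOn (Function.update F v z) T := by
    intro z hz a ha b hb hab
    by_cases h2 : a = v <;> by_cases h3 : b = v
    · rw [h2, h3]
    · rw [h2, Function.update_self, Function.update_of_ne h3] at hab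
      exact absurd (Finset.mem_image.2 ⟨b, Finset.mem_erase.2 ⟨h3, hb⟩, hab.symm⟩) hz
    · rw [h3, Function.update_self, Function.update_of_ne h2] at hab
      exact absurd (Finset.mem_image.2 ⟨a, Finset.mem_erase.2 ⟨h2, ha⟩, hab⟩) hz
    · rw [Function.update_of_ne h3, Function.update_of_ne h2] at hab
      exact hF (Finset.mem_coe.2 (Finset.mem_erase.2 ⟨h2, ha⟩))
        (Finset.mem_coe.2 (Finset.mem_erase.2 ⟨h3, hb⟩)) hab
  by_cases h0 : ∃ u ∈ T, G.Adj v u
  · obtain ⟨u, hu, huv⟩ := h0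
    have huniq : ∀ w ∈ T, G.Adj v w → w = u := by
      intro w hw hvw
      have h2 := Finset.card_le_one.1 h1
      exact h2 w (by simp [hw, hvw]) u (by simp [hu, huv])
    let C : Sym2 V → Fin N := Sym2.lift ⟨fun a b => c.col (F a) (F b), fun a b => c.symm _ _⟩
    obtain ⟨p, hp⟩ : ∃ p, p ∉ G.edgeFinset.image C := by
      by_contra hcon
      push Not at hcon
      have h2 := Finset.card_le_card (show (univ : Finset (Fin N)) ⊆ G.edgeFinset.image C from
        fun p _ => hcon p)
      rw [Finset.card_univ, Fintype.card_fin] at h2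
      have h3 := h2.trans Finset.card_image_le
      rw [← SimpleGraph.coe_edgeFinset, Set.ncard_coe_finset] at hN
      omega
    have hpC : ∀ a b, G.Adj a b → c.col (F a) (F b) ≠ p := by
      intro a b hab e
      exact hp (Finset.mem_image.2 ⟨s(a, b), by simpa using hab, e⟩)
    obtain ⟨z, hz1, hz2⟩ := key _ (hdeg (F u) p)
    simp only [mem_filter, mem_univ, true_and] at hz1
    refine ⟨Function.update F v z, hinj z hz2, ?_⟩
    -- the edges in `T`
    have hedge : ∀ a ∈ T, ∀ b ∈ T, G.Adj a b → (a ∈ T.erase v ∧ b ∈ T.erase v ∧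
        c.col (Function.update F v z a) (Function.update F v z b) = c.col (F a) (F b)) ∨
        (s(a, b) = s(u, v) ∧
          c.col (Function.update F v z a) (Function.update F v z b) = p) := by
      intro a ha b hb hab
      by_cases h2 : a = v
      · right
        have h3 : b = u := huniq b hb (h2 ▸ hab)
        rw [h2, h3, Function.update_self, Function.update_of_ne huv.ne']
        refine ⟨Sym2.eq_swap, ?_⟩
        rw [c.symm]
        exact hz1.2
      · by_cases h3 : b = v
        · right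
          have h4 : a = u := huniq a ha (h3 ▸ hab.symm)
          rw [h3, h4, Function.update_self, Function.update_of_ne huv.ne']
          exact ⟨rfl, hz1.2⟩
        · left
          rw [Function.update_of_ne h2, Function.update_of_ne h3]
          exact ⟨Finset.mem_erase.2 ⟨h2, ha⟩, Finset.mem_erase.2 ⟨h3, hb⟩, rfl⟩
    intro a ha b hb a' ha' b' hb' hab hab' hcol
    rcases hedge a ha b hb hab with ⟨g1, g2, g3⟩ | ⟨g1, g2⟩ <;>
      rcases hedge a' ha' b' hb' hab' with ⟨g1', g2', g3'⟩ | ⟨g1', g2'⟩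
    · rw [g3, g3'] at hcol
      exact hFr a g1 b g2 a' g1' b' g2' hab hab' hcol
    · rw [g3, g2'] at hcol
      exact absurd hcol (hpC a b hab)
    · rw [g2, g3'] at hcol
      exact absurd hcol.symm (hpC a' b' hab')
    · rw [g1, g1']
  · push Not at h0
    obtain ⟨z, -, hz2⟩ := key univ (by rw [Finset.card_univ, Fintype.card_fin]; exact hTn)
    refine ⟨Function.update F v z, hinj z hz2, ?_⟩
    have hne : ∀ a ∈ T, ∀ b ∈ T, G.Adj a b → a ≠ v ∧ b ≠ v := by
      intro a ha b hb hab
      constructor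
      · rintro rfl
        exact h0 b hb hab
      · rintro rfl
        exact h0 a ha hab.symm
    intro a ha b hb a' ha' b' hb' hab hab' hcol
    obtain ⟨h2, h3⟩ := hne a ha b hb hab
    obtain ⟨h2', h3'⟩ := hne a' ha' b' hb' hab'
    rw [Function.update_of_ne h2, Function.update_of_ne h3, Function.update_of_ne h2',
      Function.update_of_ne h3'] at hcol
    exact hFr a (Finset.mem_erase.2 ⟨h2, ha⟩) b (Finset.mem_erase.2 ⟨h3, hb⟩) a'
      (Finset.mem_erase.2 ⟨h2', ha'⟩) b' (Finset.mem_erase.2 ⟨h3', hb'⟩) hab hab' hcol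

theorem dg_eq_ncard (G : SimpleGraph V) (T : Finset V) (v : V) :
    {w ∈ (T : Set V) | G.Adj v w}.ncard = dg G T v := by
  classical
  unfold dg
  rw [← Set.ncard_coe_finset]
  congr 1
  ext w
  simp

theorem rainbowOn_all [Finite V] [DecidableEq V] {c : EdgeColouring n N} {ε : ℝ} (hε : 0 ≤ ε)
    (hb : c.Balanced ε) (hε2 : 100 * (N : ℝ) ^ 2 * ε ≤ 1)
    (hn : 10000 * N * (2 ^ (N * N) + 10) < n) {G : SimpleGraph V} (hN : G.edgeSet.ncard < N)
    (hV : Nat.card V < n) (hdeg : ∀ x p, Nat.card V < c.deg x p)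
    (h : ∀ T : Finset V, (∀ v ∈ T, 2 ≤ {w ∈ (T : Set V) | G.Adj v w}.ncard) →
      (G.induce (T : Set V)).edgeSet.ncard ≤ 5) (T : Finset V) : RainbowOn c G T := by
  induction T using Finset.strongInduction with
  | H T ih =>
    have hTV : T.card ≤ Nat.card V := by
      rw [← Set.ncard_coe_finset, ← Set.ncard_univ]
      exact Set.ncard_le_ncard (Set.subset_univ _) (Set.toFinite _)
    by_cases hex : ∃ v ∈ T, dg G T v ≤ 1
    · obtain ⟨v, hv, h1⟩ := hex
      exact rainbowOn_ext (by omega) hN (fun x p => by have := hdeg x p; omega) hv h1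
        (ih _ (Finset.erase_ssubset hv))
    · push Not at hex
      rcases T.eq_empty_or_nonempty with rfl | hTne
      · refine ⟨fun _ => ⟨0, by omega⟩, by simp, by simp⟩
      have h5 := h T (fun v hv => by
        rw [dg_eq_ncard]
        exact hex v hv)
      have h6 := ncard_induce_le G T
      exact rainbowOn_core hε hb hε2 hn hTne hex h5 (by omega)

/-- graphs all of whose cores have at most five edges have the property -/
theorem small_core_forced [Finite V] (G : SimpleGraph V)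
    (h : ∀ T : Finset V, (∀ v ∈ T, 2 ≤ {w ∈ (T : Set V) | G.Adj v w}.ncard) →
      (G.induce (T : Set V)).edgeSet.ncard ≤ 5) : Forced G := by
  classical
  let _ : Fintype V := Fintype.ofFinite V
  set N := G.edgeSet.ncard + 1 with hN
  have hN1 : (1 : ℝ) ≤ N := by
    have : 1 ≤ N := by omega
    exact_mod_cast this
  refine ⟨1 / (100 * (N : ℝ) ^ 2), by positivity,
    10000 * N * (2 ^ (N * N) + 10) + 2 * N * (Nat.card V + 1) + Nat.card V + 1, ?_⟩
  intro n hn c hb
  have hn1 : 10000 * N * (2 ^ (N * N) + 10) < n := by omega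
  have hn2 : 2 * N * (Nat.card V + 1) ≤ n := by omega
  have hn3 : Nat.card V < n := by omega
  have hdeg : ∀ x p, Nat.card V < c.deg x p := by
    intro x p
    have h1 := hb x p
    have h2 : 1 / (100 * (N : ℝ) ^ 2) ≤ 1 / 2 := by
      apply one_div_le_one_div_of_le (by norm_num)
      nlinarith
    have h3 : (2 : ℝ) * N * (Nat.card V + 1) ≤ n := by exact_mod_cast hn2
    have h4 : (Nat.card V : ℝ) + 1 ≤ c.deg x p := by
      refine le_trans ?_ h1
      rw [le_div_iff₀ (by linarith)]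
      nlinarith [Nat.cast_nonneg (α := ℝ) n]
    have h5 : Nat.card V + 1 ≤ c.deg x p := by exact_mod_cast h4
    omega
  have hε2 : 100 * (N : ℝ) ^ 2 * (1 / (100 * (N : ℝ) ^ 2)) ≤ 1 :=
    le_of_eq (mul_one_div_cancel (by positivity))
  obtain ⟨F, hF, hFr⟩ := rainbowOn_all (ε := 1 / (100 * (N : ℝ) ^ 2)) (by positivity) hb
    hε2 hn1 (by omega) hn3 hdeg h univ
  refine ⟨⟨F, fun a b hab => hF (by simp) (by simp) hab⟩, ?_⟩
  intro a b a' b' hab hab' hcol
  exact hFr a (mem_univ _) b (mem_univ _) a' (mem_univ _) b' (mem_univ _) hab hab' hcol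

end Pool.Agent.H907.ET
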