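import Pool.Agent.H907.ETBip6
import Pool.Agent.H907.ETPos8

set_option autoImplicit false

/-!
# Complete multipartite graphs
-/

namespace Pool.Agent.H907.ET

open Finset

/-- the complete multipartite graph whose parts are the fibres of `P` -/
def multi {V K : Type} (P : V → K) : SimpleGraph V where
  Adj a b := P a ≠ P b
  symm := ⟨fun _ _ h => Ne.symm h⟩
  loopless := ⟨fun _ h => h rfl⟩

theorem multi_adj {V K : Type} (P : V → K) (a b : V) : (multi P).Adj a b ↔ P a ≠ P b := Iff.rfl

/-- stars have the property -/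
theorem star_forced {V K : Type} [Finite V] (P : V → K) (k : K)
    (hk : {v | P v ≠ k}.ncard ≤ 1) : Forced (multi P) := by
  apply small_core_forced
  intro T hT
  have h1 : ∀ v ∈ T, P v ≠ k := by
    intro v hv hvk
    have h2 := hT v hv
    have h3 : {w ∈ (T : Set V) | (multi P).Adj v w} ⊆ {v | P v ≠ k} := by
      rintro w ⟨-, hw⟩ hwk
      exact hw (hvk.trans hwk.symm)
    have := Set.ncard_le_ncard h3 (Set.toFinite _)
    omega
  have h4 : T = ∅ := by
    by_contra hne
    obtain ⟨v, hv⟩ := Finset.nonempty_iff_ne_empty.2 hne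
    have h2 := hT v hv
    have h3 : {w ∈ (T : Set V) | (multi P).Adj v w} ⊆ {v | P v ≠ k} := by
      rintro w ⟨hw, -⟩
      exact h1 w hw
    have := Set.ncard_le_ncard h3 (Set.toFinite _)
    omega
  subst h4
  have h5 : ((multi P).induce ((∅ : Finset V) : Set V)).edgeSet = ∅ := by
    rw [Set.eq_empty_iff_forall_notMem]
    intro e
    induction e using Sym2.ind with
    | _ x y => exact absurd x.2 (by simp)
  rw [h5]
  simp

/-- up to finitely many exceptions all complete multipartite graphs except for stars fail -/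
theorem multi_fails : ∃ C : ℕ, ∀ (V K : Type) [Finite V] (P : V → K), C ≤ Nat.card V →
    (∀ k, 2 ≤ {v | P v ≠ k}.ncard) → Fails (multi P) := by
  classical
  obtain ⟨C, hC⟩ := joins_fail
  refine ⟨C + 4096, fun V K _ P hV hP => ?_⟩
  have : Fintype V := Fintype.ofFinite V
  by_cases h : ∃ k, 2 * {v | P v ≠ k}.ncard ≤ Nat.card V
  · obtain ⟨k, hk⟩ := h
    have h2 := hP k
    set s := {v | P v ≠ k}.ncard with hs
    have hst : s + {v | ¬ P v ≠ k}.ncard = Nat.card V :=
      Set.ncard_add_ncard_compl {v | P v ≠ k}
    set t := {v | ¬ P v ≠ k}.ncard with ht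
    let e₁ : {v // P v ≠ k} ≃ Fin s := Finite.equivFinOfCardEq rfl
    let e₂ : {v // ¬ P v ≠ k} ≃ Fin t := Finite.equivFinOfCardEq rfl
    let e : Fin s ⊕ Fin t ≃ V :=
      (Equiv.sumCongr e₁.symm e₂.symm).trans (Equiv.sumCompl fun v => P v ≠ k)
    have he1 : ∀ a, P (e (Sum.inl a)) ≠ k := fun a => (e₁.symm a).2
    have he2 : ∀ i, P (e (Sum.inr i)) = k := fun i => not_not.1 (e₂.symm i).2
    refine Fails.of_iso (SimpleGraph.Iso.comap e (multi P)) (hC s t h2 (by omega) (by omega) _ ?_ ?_)
    · intro a i
      rw [SimpleGraph.comap_adj, multi_adj, he2]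
      exact he1 a
    · intro i l
      rw [SimpleGraph.comap_adj, multi_adj, he2, he2]
      exact fun h => h rfl
  · push Not at h
    apply dense_fails (multi P) (by omega)
    have h1 : ∀ v, Nat.card V ≤ 2 * (multi P).degree v := by
      intro v
      have h2 := h (P v)
      have h3 : (multi P).degree v = {w | P w ≠ P v}.ncard := by
        rw [← SimpleGraph.card_neighborSet_eq_degree, ← Nat.card_eq_fintype_card,
          Nat.card_coe_set_eq]
        congr 1
        ext w
        rw [SimpleGraph.mem_neighborSet, multi_adj]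
        exact ne_comm
      omega
    have h2 := (multi P).sum_degrees_eq_twice_card_edges
    have h3 : Nat.card V * Nat.card V ≤ ∑ v, 2 * (multi P).degree v := by
      have := Finset.card_nsmul_le_sum univ (fun v => 2 * (multi P).degree v) (Nat.card V)
        (fun v _ => h1 v)
      rw [Finset.card_univ, ← Nat.card_eq_fintype_card, smul_eq_mul] at this
      exact this
    rw [← Finset.mul_sum, h2] at h3
    have h4 : (multi P).edgeSet.ncard = (multi P).edgeFinset.card := by
      rw [← Set.ncard_coe_finset, SimpleGraph.coe_edgeFinset]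
    omega

end Pool.Agent.H907.ET
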