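import Pool.Agent.H907.ETBip7

set_option autoImplicit false

/-!
# Graphs in which a large independent set is completely joined to the rest
-/

namespace Pool.Agent.H907.ET

open Finset

/-- stars have the property -/
theorem star_set_forced {V : Type} [Finite V] (G : SimpleGraph V) (T : Set V)
    (hT : Tᶜ.ncard ≤ 1) (h1 : ∀ a ∈ T, ∀ b ∈ T, ¬ G.Adj a b) : Forced G := by
  apply small_core_forced
  intro S hS
  have h2 : ∀ v ∈ S, v ∉ T := by
    intro v hv hvT
    have h3 := hS v hv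
    have h4 : {w ∈ (S : Set V) | G.Adj v w} ⊆ Tᶜ := by
      rintro w ⟨-, hw⟩ hwT
      exact h1 v hvT w hwT hw
    have := Set.ncard_le_ncard h4 (Set.toFinite _)
    omega
  have h4 : S = ∅ := by
    by_contra hne
    obtain ⟨v, hv⟩ := Finset.nonempty_iff_ne_empty.2 hne
    have h3 := hS v hv
    have h4 : {w ∈ (S : Set V) | G.Adj v w} ⊆ Tᶜ := by
      rintro w ⟨hw, -⟩
      exact h2 w hw
    have := Set.ncard_le_ncard h4 (Set.toFinite _)
    omega
  subst h4
  have h5 : (G.induce ((∅ : Finset V) : Set V)).edgeSet = ∅ := by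
    rw [Set.eq_empty_iff_forall_notMem]
    intro e
    induction e using Sym2.ind with
    | _ x y => exact absurd x.2 (by simp)
  rw [h5]
  simp

/-- `joins_fail` for graphs on any vertex set -/
theorem join_set_fails : ∃ C : ℕ, ∀ (V : Type) [Finite V] (G : SimpleGraph V) (T : Set V),
    C ≤ Nat.card V → Tᶜ.ncard ≤ T.ncard → 2 ≤ Tᶜ.ncard → (∀ a ∈ T, ∀ b ∈ T, ¬ G.Adj a b) →
      (∀ a ∈ T, ∀ b, b ∉ T → G.Adj a b) → Fails G := by
  classical
  obtain ⟨C, hC⟩ := joins_fail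
  refine ⟨C, fun V _ G T hV hle h2 hT1 hT2 => ?_⟩
  have hst : T.ncard + Tᶜ.ncard = Nat.card V := Set.ncard_add_ncard_compl T
  have hs : Nat.card {v // v ∉ T} = Tᶜ.ncard := Nat.card_coe_set_eq Tᶜ
  have ht : Nat.card {v // ¬ v ∉ T} = T.ncard := by
    rw [← Nat.card_coe_set_eq T]
    exact Nat.card_congr (Equiv.subtypeEquivRight fun v => not_not)
  let e₁ : {v // v ∉ T} ≃ Fin Tᶜ.ncard := Finite.equivFinOfCardEq hs
  let e₂ : {v // ¬ v ∉ T} ≃ Fin T.ncard := Finite.equivFinOfCardEq ht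
  let e : Fin Tᶜ.ncard ⊕ Fin T.ncard ≃ V :=
    (Equiv.sumCongr e₁.symm e₂.symm).trans (Equiv.sumCompl fun v => v ∉ T)
  have he1 : ∀ a, e (Sum.inl a) ∉ T := fun a => (e₁.symm a).2
  have he2 : ∀ i, e (Sum.inr i) ∈ T := fun i => not_not.1 (e₂.symm i).2
  refine Fails.of_iso (SimpleGraph.Iso.comap e G) (hC _ _ h2 hle (by omega) _ ?_ ?_)
  · intro a i
    rw [SimpleGraph.comap_adj]
    exact (hT2 _ (he2 i) _ (he1 a)).symm
  · intro i l
    rw [SimpleGraph.comap_adj]
    exact hT1 _ (he2 i) _ (he2 l)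

end Pool.Agent.H907.ET
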