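import Mathlib

set_option autoImplicit false

/-!
# Balanced edge colourings and rainbow copies: definitions
-/

namespace Pool.Agent.H907.ET

open Finset

/-- A colouring of the edges of the complete graph on `n` vertices with `k` colours: a symmetric map
(its values on the diagonal carry no meaning and are never used). -/
structure EdgeColouring (n k : ℕ) where
  col : Fin n → Fin n → Fin k
  symm : ∀ x y, col x y = col y x

namespace EdgeColouring
variable {n k : ℕ}

/-- the number of edges at the vertex `x` that have the colour `i` -/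
def deg (c : EdgeColouring n k) (x : Fin n) (i : Fin k) : ℕ :=
  (univ.filter (fun y => y ≠ x ∧ c.col x y = i)).card

/-- every colour appears at every vertex on at least `(1 - ε) n / k` edges -/
def Balanced (c : EdgeColouring n k) (ε : ℝ) : Prop :=
  ∀ (x : Fin n) (i : Fin k), (1 - ε) * n / k ≤ (c.deg x i : ℝ)

/-- at every vertex every colour appears on `n / k` or on `n / k - 1` edges -/
def NearlyRegular (c : EdgeColouring n k) : Prop :=
  ∀ (x : Fin n) (i : Fin k), c.deg x i * k = n ∨ (c.deg x i + 1) * k = n

/-- there is a copy of `G` whose edges have pairwise distinct colours -/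
def HasRainbow {V : Type} (c : EdgeColouring n k) (G : SimpleGraph V) : Prop :=
  ∃ f : V ↪ Fin n, ∀ a b a' b' : V, G.Adj a b → G.Adj a' b' →
    c.col (f a) (f b) = c.col (f a') (f b') → s(a, b) = s(a', b')

end EdgeColouring

/-- the property of `G` asked for by Erdős and Tuza: for some `ε > 0` and all large `n` every
`ε`-balanced colouring of the complete graph on `n` vertices with `e(G) + 1` colours has a rainbow
copy of `G` -/
def Forced {V : Type} (G : SimpleGraph V) : Prop :=
  ∃ ε : ℝ, 0 < ε ∧ ∃ n₀ : ℕ, ∀ n ≥ n₀, ∀ c : EdgeColouring n (G.edgeSet.ncard + 1),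
    c.Balanced ε → c.HasRainbow G

/-- `G` fails the property in the strongest possible form: there are colourings of arbitrarily large
complete graphs with `e(G) + 1` colours and without a rainbow copy of `G` in which all colour degrees
at all vertices are `n / (e(G) + 1)` or one less -/
def Fails {V : Type} (G : SimpleGraph V) : Prop :=
  ∀ n₀ : ℕ, ∃ n : ℕ, n₀ ≤ n ∧ ∃ c : EdgeColouring n (G.edgeSet.ncard + 1),
    c.NearlyRegular ∧ ¬ c.HasRainbow G

theorem Fails.not_forced {V : Type} {G : SimpleGraph V} (h : Fails G) : ¬ Forced G := by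
  rintro ⟨ε, hε, n₀, hn⟩
  obtain ⟨N, hN⟩ := exists_nat_ge (((G.edgeSet.ncard + 1 : ℕ) : ℝ) / ε)
  obtain ⟨n, hn1, c, hc, hr⟩ := h (max n₀ N)
  apply hr
  apply hn n ((le_max_left _ _).trans hn1) c
  intro x i
  have hk : (0 : ℝ) < ((G.edgeSet.ncard + 1 : ℕ) : ℝ) := by positivity
  have hnN : ((G.edgeSet.ncard + 1 : ℕ) : ℝ) / ε ≤ n :=
    hN.trans (by exact_mod_cast (le_max_right _ _).trans hn1)
  rw [div_le_iff₀ hε] at hnN
  rw [div_le_iff₀ hk]
  rcases hc x i with h1 | h1
  · have h2 : (c.deg x i : ℝ) * ((G.edgeSet.ncard + 1 : ℕ) : ℝ) = n := by exact_mod_cast h1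
    nlinarith
  · have h2 : ((c.deg x i : ℝ) + 1) * ((G.edgeSet.ncard + 1 : ℕ) : ℝ) = n := by exact_mod_cast h1
    nlinarith

/-- the blow-up of a symmetric matrix of colours -/
theorem blowup {V X : Type} [Fintype X] [DecidableEq X] [Nonempty X] (G : SimpleGraph V)
    (htri : ∀ a b, G.Adj a b → ∃ c, G.Adj a c ∧ G.Adj b c) {k : ℕ}
    (hk : G.edgeSet.ncard + 1 = k) (M : X → X → Fin k) (hs : ∀ x y, M x y = M y x)
    (hbal : ∀ x i, (univ.filter (fun y => M x y = i)).card * k = Fintype.card X)
    (hno : ∀ g : V → X, (∀ a b, G.Adj a b → g a ≠ g b) →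
      (∀ a b a' b' : V, G.Adj a b → G.Adj a' b' → M (g a) (g b) = M (g a') (g b') →
        s(a, b) = s(a', b')) → False) : Fails G := by
  subst hk
  intro n₀
  have hX : 0 < Fintype.card X := Fintype.card_pos
  let T := n₀ + 1
  have hcard : Fintype.card (X × Fin T) = Fintype.card X * T := by simp
  let e : X × Fin T ≃ Fin (Fintype.card X * T) := Fintype.equivFinOfCardEq hcard
  refine ⟨Fintype.card X * T, ?_, ⟨fun u v => M (e.symm u).1 (e.symm v).1, fun u v => hs _ _⟩,
    ?_, ?_⟩
  · have : n₀ ≤ T := by omega
    nlinarith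
  · intro u i
    obtain ⟨⟨x, a⟩, rfl⟩ := e.surjective u
    have hdeg : EdgeColouring.deg ⟨fun u v => M (e.symm u).1 (e.symm v).1, fun u v => hs _ _⟩
        (e (x, a)) i = ((univ.filter (fun q : X × Fin T => M x q.1 = i)).erase (x, a)).card := by
      unfold EdgeColouring.deg
      apply Finset.card_bij (fun y _ => e.symm y)
      · intro y hy
        simp only [mem_filter, mem_univ, true_and, Equiv.symm_apply_apply] at hy
        simp only [mem_erase, mem_filter, mem_univ, true_and, ne_eq]
        refine ⟨fun h => hy.1 ?_, hy.2⟩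
        rw [← h, Equiv.apply_symm_apply]
      · intro y _ y' _ h
        exact e.symm.injective h
      · intro q hq
        simp only [mem_erase, mem_filter, mem_univ, true_and, ne_eq] at hq
        refine ⟨e q, ?_, by simp⟩
        simp only [mem_filter, mem_univ, true_and, Equiv.symm_apply_apply]
        exact ⟨fun h => hq.1 (e.injective h), hq.2⟩
    have hfull : (univ.filter (fun q : X × Fin T => M x q.1 = i)).card =
        (univ.filter (fun y => M x y = i)).card * T := by
      have : (univ.filter (fun q : X × Fin T => M x q.1 = i)) =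
          (univ.filter (fun y => M x y = i)) ×ˢ (univ : Finset (Fin T)) := by
        ext q
        simp
      rw [this, Finset.card_product]
      simp
    have hb := hbal x i
    rw [hdeg]
    by_cases hx : M x x = i
    · right
      rw [Finset.card_erase_add_one (by simp [hx]), hfull]
      calc _ = ((univ.filter (fun y => M x y = i)).card * (G.edgeSet.ncard + 1)) * T := by ring
        _ = _ := by rw [hb]
    · left
      rw [Finset.erase_eq_of_notMem (by simp [hx]), hfull]
      calc _ = ((univ.filter (fun y => M x y = i)).card * (G.edgeSet.ncard + 1)) * T := by ring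
        _ = _ := by rw [hb]
  · rintro ⟨f, hf⟩
    refine hno (fun a => (e.symm (f a)).1) ?_ ?_
    · intro a b hab heq
      obtain ⟨c, hac, hbc⟩ := htri a b hab
      have h1 := hf a c b c hac hbc (by simp only at heq ⊢; rw [heq])
      rw [Sym2.eq_iff] at h1
      rcases h1 with ⟨h1, -⟩ | ⟨h1, h2⟩
      · exact hab.ne h1
      · exact hac.ne h1
    · intro a b a' b' h1 h2 h3
      exact hf a b a' b' h1 h2 h3

end Pool.Agent.H907.ET
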