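import Pool.Agent.H907.ETDefs

set_option autoImplicit false

/-!
# Even graphs with `2 ^ a - 2` edges fail the property
-/

namespace Pool.Agent.H907.ET

open Finset

/-- the vector space of dimension `a` over the field with two elements -/
abbrev W2 (a : ℕ) : Type := Fin a → ZMod 2

theorem W2_add_self {a : ℕ} (x : W2 a) : x + x = 0 := by
  funext i
  exact CharTwo.add_self_eq_zero _

theorem W2_nsmul_even {a : ℕ} {m : ℕ} (hm : Even m) (x : W2 a) : m • x = 0 := by
  obtain ⟨r, rfl⟩ := hm
  rw [add_smul, ← smul_add, W2_add_self, smul_zero]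

theorem W2_card (a : ℕ) : Fintype.card (W2 a) = 2 ^ a := by
  simp [W2]

theorem W2_sum {a : ℕ} (ha : 2 ≤ a) : ∑ x : W2 a, x = 0 := by
  funext i
  rw [Finset.sum_apply, Pi.zero_apply]
  -- translate by the unit vector in another coordinate
  obtain ⟨j, hj⟩ : ∃ j : Fin a, j ≠ i := by
    by_cases h : i.1 = 0
    · exact ⟨⟨1, by omega⟩, fun e => by rw [← e] at h; simp at h⟩
    · exact ⟨⟨0, by omega⟩, fun e => h (by rw [← e])⟩
  refine Finset.sum_involution (fun x _ => x + Pi.single j 1) ?_ ?_ ?_ ?_
  · intro x _
    simp only [Pi.add_apply, Pi.single_eq_of_ne (Ne.symm hj), add_zero]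
    exact CharTwo.add_self_eq_zero _
  · intro x _ _ h
    have h1 := congrFun h j
    simp at h1
  · intro x _
    exact mem_univ _
  · intro x _
    rw [add_assoc, W2_add_self, add_zero]

/-- the sum of the colours of the edges -/
theorem edge_sum {V : Type} [Fintype V] [DecidableEq V] (G : SimpleGraph V) [DecidableRel G.Adj]
    {a : ℕ} (g : V → W2 a) (heven : ∀ v, Even (G.degree v)) :
    ∑ e ∈ G.edgeFinset, Sym2.lift ⟨fun u v => g u + g v, fun _ _ => add_comm _ _⟩ e = 0 := by
  have h1 : ∀ e ∈ G.edgeFinset, Sym2.lift ⟨fun u v => g u + g v, fun _ _ => add_comm _ _⟩ e =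
      ∑ w : V, if w ∈ e then g w else 0 := by
    intro e he
    induction e using Sym2.ind with
    | _ u v =>
      rw [SimpleGraph.mem_edgeFinset, SimpleGraph.mem_edgeSet] at he
      simp only [Sym2.lift_mk, Sym2.mem_iff]
      rw [← Finset.sum_filter]
      have : (univ.filter fun w => w = u ∨ w = v) = {u, v} := by
        ext w
        simp
      rw [this, Finset.sum_pair he.ne]
  rw [Finset.sum_congr rfl h1, Finset.sum_comm]
  refine Finset.sum_eq_zero fun w _ => ?_
  rw [← Finset.sum_filter, Finset.sum_const]
  have : (G.edgeFinset.filter fun e => w ∈ e) = G.incidenceFinset w := by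
    ext e
    simp [SimpleGraph.incidenceSet]
  rw [this, SimpleGraph.card_incidenceFinset_eq_degree]
  exact W2_nsmul_even (heven w) _

theorem even_fails {V : Type} [Finite V] {G : SimpleGraph V}
    (htri : ∀ u v, G.Adj u v → ∃ w, G.Adj u w ∧ G.Adj v w)
    (heven : ∀ v, Even (G.neighborSet v).ncard) {a : ℕ} (ha : 2 ≤ a)
    (he : G.edgeSet.ncard + 2 = 2 ^ a) : Fails G := by
  classical
  let _ : Fintype V := Fintype.ofFinite V
  have hdeg : ∀ v, Even (G.degree v) := by
    intro v
    have h := heven v
    rwa [← SimpleGraph.coe_neighborFinset, Set.ncard_coe_finset,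
      SimpleGraph.card_neighborFinset_eq_degree] at h
  have hE : G.edgeSet.ncard = G.edgeFinset.card := by
    rw [← SimpleGraph.coe_edgeFinset, Set.ncard_coe_finset]
  have hX : Fintype.card {x : W2 a // x ≠ 0} = G.edgeSet.ncard + 1 := by
    rw [Fintype.card_subtype_compl, Fintype.card_subtype_eq, W2_card]
    omega
  have : Nonempty {x : W2 a // x ≠ 0} := by
    rw [← Fintype.card_pos_iff, hX]
    omega
  let ε : {x : W2 a // x ≠ 0} ≃ Fin (G.edgeSet.ncard + 1) := Fintype.equivFinOfCardEq hX
  have hadd : ∀ {x y : W2 a}, x ≠ y → x + y ≠ 0 := by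
    intro x y hxy h
    apply hxy
    calc x = x + (y + y) := by rw [W2_add_self, add_zero]
      _ = (x + y) + y := by rw [add_assoc]
      _ = y := by rw [h, zero_add]
  let M : {x : W2 a // x ≠ 0} → {x : W2 a // x ≠ 0} → Fin (G.edgeSet.ncard + 1) := fun x y =>
    if h : x = y then ε x else ε ⟨x.1 + y.1, hadd fun e => h (Subtype.ext e)⟩
  have hMne : ∀ x y (h : x ≠ y), M x y = ε ⟨x.1 + y.1, hadd fun e => h (Subtype.ext e)⟩ := by
    intro x y h
    simp only [M]
    rw [dif_neg h]
  refine blowup G htri rfl M ?_ ?_ ?_
  · intro x y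
    by_cases h : x = y
    · rw [h]
    · rw [hMne x y h, hMne y x (Ne.symm h)]
      congr 1
      exact Subtype.ext (add_comm _ _)
  · intro x i
    have h1 : (univ.filter fun y => M x y = i).card = 1 := by
      rw [Finset.card_eq_one]
      by_cases hx : ε x = i
      · refine ⟨x, ?_⟩
        ext y
        simp only [mem_filter, mem_univ, true_and, mem_singleton]
        constructor
        · intro hy
          by_contra hne
          rw [hMne x y (Ne.symm hne), ← hx] at hy
          have h2 := congrArg Subtype.val (ε.injective hy)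
          simp only at h2
          exact y.2 (by
            have h3 : x.1 + y.1 = x.1 + 0 := by rw [h2, add_zero]
            exact add_left_cancel h3)
        · rintro rfl
          simp [M, hx]
      · have hx' : x ≠ ε.symm i := by
          intro h
          apply hx
          rw [h, Equiv.apply_symm_apply]
        have hz : x.1 + (ε.symm i).1 ≠ 0 := hadd fun e => hx' (Subtype.ext e)
        refine ⟨⟨x.1 + (ε.symm i).1, hz⟩, ?_⟩
        ext y
        simp only [mem_filter, mem_univ, true_and, mem_singleton]
        constructor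
        · intro hy
          have hne : x ≠ y := by
            rintro rfl
            simp only [M, dite_true] at hy
            exact hx hy
          rw [hMne x y hne] at hy
          have h2 : x.1 + y.1 = (ε.symm i).1 := congrArg Subtype.val ((Equiv.eq_symm_apply ε).2 hy)
          apply Subtype.ext
          simp only
          rw [← h2, ← add_assoc, W2_add_self, zero_add]
        · intro hy
          have hne : x ≠ y := by
            intro h
            have h2 : x.1 + 0 = x.1 + (ε.symm i).1 := by
              rw [add_zero]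
              exact congrArg Subtype.val (h.trans hy)
            exact (ε.symm i).2 (add_left_cancel h2).symm
          rw [hMne x y hne, ← Equiv.eq_symm_apply]
          apply Subtype.ext
          simp only
          rw [hy]
          simp only
          rw [← add_assoc, W2_add_self, zero_add]
    rw [h1, one_mul, hX]
  · intro g hg hcol
    let F : Sym2 V → W2 a :=
      Sym2.lift ⟨fun u v => (g u).1 + (g v).1, fun _ _ => add_comm _ _⟩
    have hF : ∀ u v, F s(u, v) = (g u).1 + (g v).1 := fun u v => rfl
    have hne : ∀ u v, G.Adj u v → g u ≠ g v := hg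
    have hinj : Set.InjOn F (G.edgeFinset : Set (Sym2 V)) := by
      intro e1 h1 e2 h2 h
      induction e1 using Sym2.ind with
      | _ u v =>
        induction e2 using Sym2.ind with
        | _ u' v' =>
          rw [Finset.mem_coe, SimpleGraph.mem_edgeFinset, SimpleGraph.mem_edgeSet] at h1 h2
          apply hcol u v u' v' h1 h2
          rw [hMne _ _ (hg _ _ h1), hMne _ _ (hg _ _ h2)]
          congr 1
          exact Subtype.ext h
    have hIsub : G.edgeFinset.image F ⊆ univ.erase 0 := by
      intro w hw
      rw [Finset.mem_image] at hw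
      obtain ⟨e, h1, rfl⟩ := hw
      induction e using Sym2.ind with
      | _ u v =>
        rw [SimpleGraph.mem_edgeFinset, SimpleGraph.mem_edgeSet] at h1
        rw [Finset.mem_erase, hF]
        exact ⟨hadd fun e => hg _ _ h1 (Subtype.ext e), mem_univ _⟩
    have hI : (G.edgeFinset.image F).card = G.edgeSet.ncard := by
      rw [Finset.card_image_of_injOn hinj, hE]
    have hU : (univ.erase (0 : W2 a)).card = G.edgeSet.ncard + 1 := by
      rw [Finset.card_erase_of_mem (mem_univ _), Finset.card_univ, W2_card]
      omega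
    have hD : (univ.erase (0 : W2 a) \ G.edgeFinset.image F).card = 1 := by
      rw [Finset.card_sdiff_of_subset hIsub, hI, hU]
      omega
    obtain ⟨m, hm⟩ := Finset.card_eq_one.1 hD
    have h1 := Finset.sum_sdiff hIsub (f := fun w : W2 a => w)
    rw [hm, Finset.sum_singleton, Finset.sum_image hinj,
      Finset.sum_erase (s := univ) (f := fun w : W2 a => w) (a := 0) rfl, W2_sum ha] at h1
    have h2 : ∑ e ∈ G.edgeFinset, F e = 0 := edge_sum G (fun v => (g v).1) hdeg
    rw [h2, add_zero] at h1
    have h3 : m ∈ univ.erase (0 : W2 a) \ G.edgeFinset.image F := by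
      rw [hm]
      exact Finset.mem_singleton_self _
    rw [Finset.mem_sdiff, Finset.mem_erase] at h3
    exact h3.1.1 h1

/-- the disjoint union of `t` triangles -/
def triangles (t : ℕ) : SimpleGraph (Fin t × Fin 3) where
  Adj p q := p.1 = q.1 ∧ p.2 ≠ q.2
  symm := ⟨fun _ _ h => ⟨h.1.symm, Ne.symm h.2⟩⟩
  loopless := ⟨fun _ h => h.2 rfl⟩

instance (t : ℕ) : DecidableRel (triangles t).Adj := fun p q =>
  inferInstanceAs (Decidable (p.1 = q.1 ∧ p.2 ≠ q.2))

theorem triangles_degree {t : ℕ} (v : Fin t × Fin 3) : (triangles t).degree v = 2 := by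
  rw [← SimpleGraph.card_neighborFinset_eq_degree]
  have : (triangles t).neighborFinset v = {v.1} ×ˢ (univ.erase v.2) := by
    ext w
    rw [SimpleGraph.mem_neighborFinset]
    simp only [triangles, mem_product, mem_singleton, mem_erase, mem_univ, and_true]
    exact ⟨fun h => ⟨h.1.symm, Ne.symm h.2⟩, fun h => ⟨h.1.symm, Ne.symm h.2⟩⟩
  rw [this, Finset.card_product, Finset.card_singleton, Finset.card_erase_of_mem (mem_univ _)]
  simp

theorem triangles_ncard (t : ℕ) : (triangles t).edgeSet.ncard = 3 * t := by
  classical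
  have h1 := (triangles t).sum_degrees_eq_twice_card_edges
  rw [Finset.sum_congr rfl (fun v _ => triangles_degree v), Finset.sum_const, Finset.card_univ]
    at h1
  simp only [Fintype.card_prod, Fintype.card_fin, smul_eq_mul] at h1
  rw [← SimpleGraph.coe_edgeFinset, Set.ncard_coe_finset]
  omega

theorem triangles_fail {t a : ℕ} (ha : 2 ≤ a) (h : 3 * t + 2 = 2 ^ a) : Fails (triangles t) := by
  refine even_fails ?_ ?_ ha (by rw [triangles_ncard, h])
  · rintro ⟨i, j⟩ ⟨i', j'⟩ ⟨h1, h2⟩
    simp only at h1 h2
    subst h1
    obtain ⟨l, hl1, hl2⟩ : ∃ l : Fin 3, j ≠ l ∧ j' ≠ l := by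
      revert j j'
      decide
    exact ⟨(i, l), ⟨rfl, hl1⟩, ⟨rfl, hl2⟩⟩
  · intro v
    rw [← SimpleGraph.coe_neighborFinset, Set.ncard_coe_finset,
      SimpleGraph.card_neighborFinset_eq_degree, triangles_degree]
    exact even_two

end Pool.Agent.H907.ET
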