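import Pool.Agent.H907.ETDefs

set_option autoImplicit false

/-!
# Graphs which fail the property: cliques
-/

namespace Pool.Agent.H907.ET

open Finset

/-- the elements of `S` span a rainbow complete graph -/
def RainbowSet {X C : Type} (M : X → X → C) (S : Finset X) : Prop :=
  ∀ a ∈ S, ∀ b ∈ S, ∀ a' ∈ S, ∀ b' ∈ S, a ≠ b → a' ≠ b' → M a b = M a' b' → s(a, b) = s(a', b')

/-- the blow-up of a symmetric matrix of colours -/
theorem blowup_core {X : Type} [Fintype X] [DecidableEq X] [Nonempty X] {k : ℕ}
    (M : X → X → Fin k) (hs : ∀ x y, M x y = M y x)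
    (hbal : ∀ x i, (univ.filter (fun y => M x y = i)).card * k = Fintype.card X) (n₀ : ℕ) :
    ∃ n : ℕ, n₀ ≤ n ∧ ∃ c : EdgeColouring n k, c.NearlyRegular ∧
      ∃ π : Fin n → X, ∀ u v, c.col u v = M (π u) (π v) := by
  have hX : 0 < Fintype.card X := Fintype.card_pos
  let T := n₀ + 1
  have hcard : Fintype.card (X × Fin T) = Fintype.card X * T := by simp
  let e : X × Fin T ≃ Fin (Fintype.card X * T) := Fintype.equivFinOfCardEq hcard
  refine ⟨Fintype.card X * T, ?_, ⟨fun u v => M (e.symm u).1 (e.symm v).1, fun u v => hs _ _⟩,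
    ?_, fun u => (e.symm u).1, fun u v => rfl⟩
  · have : n₀ ≤ T := by omega
    nlinarith
  · intro u i
    obtain ⟨⟨x, a⟩, rfl⟩ := e.surjective u
    have hdeg : EdgeColouring.deg ⟨fun u v => M (e.symm u).1 (e.symm v).1, fun u v => hs _ _⟩
        (e (x, a)) i = ((univ.filter (fun q : X × Fin T => M x q.1 = i)).erase (x, a)).card := by
      unfold EdgeColouring.deg
      apply Finset.card_bij (fun y _ => e.symm y)
      · intro y hy
        simp only [mem_filter, mem_univ, true_and, Equiv.symm_apply_apply] at hy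
        simp only [mem_erase, mem_filter, mem_univ, true_and, ne_eq]
        refine ⟨fun h => hy.1 ?_, hy.2⟩
        rw [← h, Equiv.apply_symm_apply]
      · intro y _ y' _ h
        exact e.symm.injective h
      · intro q hq
        simp only [mem_erase, mem_filter, mem_univ, true_and, ne_eq] at hq
        refine ⟨e q, ?_, by simp⟩
        simp only [mem_filter, mem_univ, true_and, Equiv.symm_apply_apply]
        exact ⟨fun h => hq.1 (e.injective h), hq.2⟩
    have hfull : (univ.filter (fun q : X × Fin T => M x q.1 = i)).card =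
        (univ.filter (fun y => M x y = i)).card * T := by
      have : (univ.filter (fun q : X × Fin T => M x q.1 = i)) =
          (univ.filter (fun y => M x y = i)) ×ˢ (univ : Finset (Fin T)) := by
        ext q
        simp
      rw [this, Finset.card_product]
      simp
    have hb := hbal x i
    rw [hdeg]
    by_cases hx : M x x = i
    · right
      rw [Finset.card_erase_add_one (by simp [hx]), hfull]
      calc _ = ((univ.filter (fun y => M x y = i)).card * k) * T := by ring
        _ = _ := by rw [hb]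
    · left
      rw [Finset.erase_eq_of_notMem (by simp [hx]), hfull]
      calc _ = ((univ.filter (fun y => M x y = i)).card * k) * T := by ring
        _ = _ := by rw [hb]

/-- a graph with a clique on `r` vertices fails if some balanced symmetric matrix of colours has no
rainbow set of `r` elements -/
theorem clique_fails {V X : Type} [Fintype X] [DecidableEq X] [Nonempty X] {G : SimpleGraph V}
    {k : ℕ} (hk : G.edgeSet.ncard + 1 = k) {r : ℕ} (hr : 3 ≤ r) (φ : Fin r ↪ V)
    (hφ : ∀ i j, i ≠ j → G.Adj (φ i) (φ j)) (M : X → X → Fin k) (hs : ∀ x y, M x y = M y x)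
    (hbal : ∀ x i, (univ.filter (fun y => M x y = i)).card * k = Fintype.card X)
    (hno : ∀ S : Finset X, S.card = r → ¬ RainbowSet M S) : Fails G := by
  subst hk
  intro n₀
  obtain ⟨n, hn, c, hc, π, hπ⟩ := blowup_core M hs hbal n₀
  refine ⟨n, hn, c, hc, ?_⟩
  rintro ⟨f, hf⟩
  have key : ∀ i j i' j' : Fin r, i ≠ j → i' ≠ j' →
      M (π (f (φ i))) (π (f (φ j))) = M (π (f (φ i'))) (π (f (φ j'))) → s(i, j) = s(i', j') := by
    intro i j i' j' h1 h2 h3
    have h4 := hf _ _ _ _ (hφ i j h1) (hφ i' j' h2) (by rw [hπ, hπ]; exact h3)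
    rw [Sym2.eq_iff] at h4 ⊢
    simpa [φ.injective.eq_iff] using h4
  have hinj : Function.Injective fun i : Fin r => π (f (φ i)) := by
    intro i j hij
    by_contra hne
    obtain ⟨l, hl⟩ : ∃ l : Fin r, l ∉ ({i, j} : Finset (Fin r)) := by
      by_contra hcon
      push Not at hcon
      have h1 : (univ : Finset (Fin r)) ⊆ {i, j} := fun l _ => hcon l
      have h2 := Finset.card_le_card h1
      rw [Finset.card_univ, Fintype.card_fin] at h2
      have h3 : ({i, j} : Finset (Fin r)).card ≤ 2 := Finset.card_le_two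
      omega
    simp only [mem_insert, mem_singleton, not_or] at hl
    have h1 := key i l j l (Ne.symm hl.1) (Ne.symm hl.2) (by simp only at hij; rw [hij])
    rw [Sym2.eq_iff] at h1
    rcases h1 with ⟨h1, -⟩ | ⟨h1, -⟩
    · exact hne h1
    · exact hl.1 h1.symm
  refine hno (univ.image fun i : Fin r => π (f (φ i))) ?_ ?_
  · rw [Finset.card_image_of_injective _ hinj]
    simp
  · intro a ha b hb a' ha' b' hb' hab hab' hM
    simp only [mem_image, mem_univ, true_and] at ha hb ha' hb'
    obtain ⟨i, rfl⟩ := ha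
    obtain ⟨j, rfl⟩ := hb
    obtain ⟨i', rfl⟩ := ha'
    obtain ⟨j', rfl⟩ := hb'
    have h1 : i ≠ j := fun h => hab (by rw [h])
    have h2 : i' ≠ j' := fun h => hab' (by rw [h])
    have h3 := key i j i' j' h1 h2 hM
    rw [Sym2.eq_iff] at h3 ⊢
    rcases h3 with ⟨rfl, rfl⟩ | ⟨rfl, rfl⟩
    · exact Or.inl ⟨rfl, rfl⟩
    · exact Or.inr ⟨rfl, rfl⟩

theorem ncard_top (r : ℕ) : (⊤ : SimpleGraph (Fin r)).edgeSet.ncard = r.choose 2 := by
  classical
  rw [← SimpleGraph.coe_edgeFinset, Set.ncard_coe_finset,
    SimpleGraph.card_edgeFinset_top_eq_card_choose_two, Fintype.card_fin]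

/-! ### four vertices -/

def T4 : ℕ := 453266905188608499002463950018779455675466795664042207421006419347053577033546058085783461674144679895160465919711012957245520529583785747841206995439585954843570736948523946630

/-- a symmetric matrix of order 14 with seven colours, each of them twice in each row -/
def M4 (x y : Fin 14) : Fin 7 :=
  ⟨(T4 >>> (3 * (14 * x.1 + y.1))) % 8 % 7, Nat.mod_lt _ (by norm_num)⟩

theorem M4_symm : ∀ x y, M4 x y = M4 y x := by decide +kernel

theorem M4_bal : ∀ x i, (univ.filter (fun y => M4 x y = i)).card * 7 = Fintype.card (Fin 14) := by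
  decide +kernel

theorem M4_no : ∀ a b : Fin 14, a < b → ∀ c, b < c → M4 a b ≠ M4 a c → M4 a b ≠ M4 b c →
    M4 a c ≠ M4 b c → ∀ d, c < d → M4 a d = M4 a b ∨ M4 a d = M4 a c ∨ M4 a d = M4 b c ∨
      M4 b d = M4 a b ∨ M4 b d = M4 a c ∨ M4 b d = M4 b c ∨ M4 c d = M4 a b ∨ M4 c d = M4 a c ∨
      M4 c d = M4 b c ∨ M4 a d = M4 b d ∨ M4 a d = M4 c d ∨ M4 b d = M4 c d := by
  decide +kernel

/-! ### five vertices -/

def T5 : ℕ := 33076659603799769077811455660014388166876760095053074731476812419075075183751976218355781683071666706875451691363854074805738108649493791076782855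

/-- a symmetric Latin square of order 11 -/
def M5 (x y : Fin 11) : Fin 11 :=
  ⟨(T5 >>> (4 * (11 * x.1 + y.1))) % 16 % 11, Nat.mod_lt _ (by norm_num)⟩

theorem M5_symm : ∀ x y, M5 x y = M5 y x := by decide +kernel

theorem M5_bal : ∀ x i, (univ.filter (fun y => M5 x y = i)).card * 11 = Fintype.card (Fin 11) := by
  decide +kernel

theorem M5_no : ∀ a b : Fin 11, a < b → ∀ c, b < c → ∀ d, c < d → M5 a b ≠ M5 c d →
    M5 a c ≠ M5 b d → M5 a d ≠ M5 b c → ∀ e, d < e → M5 a e = M5 b c ∨ M5 a e = M5 b d ∨
      M5 a e = M5 c d ∨ M5 b e = M5 a c ∨ M5 b e = M5 a d ∨ M5 b e = M5 c d ∨ M5 c e = M5 a b ∨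
      M5 c e = M5 a d ∨ M5 c e = M5 b d ∨ M5 d e = M5 a b ∨ M5 d e = M5 a c ∨ M5 d e = M5 b c := by
  decide +kernel

/-- what equal colours mean in a rainbow set -/
theorem RainbowSet.eq {X C : Type} {M : X → X → C} {S : Finset X} (h : RainbowSet M S)
    {a b a' b' : X} (ha : a ∈ S) (hb : b ∈ S) (ha' : a' ∈ S) (hb' : b' ∈ S) (hab : a ≠ b)
    (hab' : a' ≠ b') (hM : M a b = M a' b') : (a = a' ∧ b = b') ∨ (a = b' ∧ b = a') := by
  have := h a ha b hb a' ha' b' hb' hab hab' hM
  rwa [Sym2.eq_iff] at this

theorem M4_noSet (S : Finset (Fin 14)) (hS : S.card = 4) : ¬ RainbowSet M4 S := by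
  intro h
  let o := S.orderEmbOfFin hS
  have hm : ∀ i, o i ∈ S := fun i => S.orderEmbOfFin_mem hS i
  have h01 : o 0 < o 1 := o.strictMono (by decide)
  have h12 : o 1 < o 2 := o.strictMono (by decide)
  have h23 : o 2 < o 3 := o.strictMono (by decide)
  have key : ∀ i j i' j' : Fin 4, i ≠ j → i' ≠ j' → M4 (o i) (o j) = M4 (o i') (o j') →
      (i = i' ∧ j = j') ∨ (i = j' ∧ j = i') := by
    intro i j i' j' h1 h2 h3
    have := h.eq (hm i) (hm j) (hm i') (hm j') (fun e => h1 (o.injective e))
      (fun e => h2 (o.injective e)) h3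
    simpa [o.injective.eq_iff] using this
  have hne : ∀ i j i' j' : Fin 4, i ≠ j → i' ≠ j' → ¬ ((i = i' ∧ j = j') ∨ (i = j' ∧ j = i')) →
      M4 (o i) (o j) ≠ M4 (o i') (o j') := fun i j i' j' h1 h2 h3 h4 => h3 (key _ _ _ _ h1 h2 h4)
  have := M4_no (o 0) (o 1) h01 (o 2) h12 (hne 0 1 0 2 (by decide) (by decide) (by decide))
    (hne 0 1 1 2 (by decide) (by decide) (by decide))
    (hne 0 2 1 2 (by decide) (by decide) (by decide)) (o 3) h23
  rcases this with h | h | h | h | h | h | h | h | h | h | h | h <;>
  · have h' := key _ _ _ _ (by decide) (by decide) h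
    revert h'
    decide

theorem M5_noSet (S : Finset (Fin 11)) (hS : S.card = 5) : ¬ RainbowSet M5 S := by
  intro h
  let o := S.orderEmbOfFin hS
  have hm : ∀ i, o i ∈ S := fun i => S.orderEmbOfFin_mem hS i
  have h01 : o 0 < o 1 := o.strictMono (by decide)
  have h12 : o 1 < o 2 := o.strictMono (by decide)
  have h23 : o 2 < o 3 := o.strictMono (by decide)
  have h34 : o 3 < o 4 := o.strictMono (by decide)
  have key : ∀ i j i' j' : Fin 5, i ≠ j → i' ≠ j' → M5 (o i) (o j) = M5 (o i') (o j') →
      (i = i' ∧ j = j') ∨ (i = j' ∧ j = i') := by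
    intro i j i' j' h1 h2 h3
    have := h.eq (hm i) (hm j) (hm i') (hm j') (fun e => h1 (o.injective e))
      (fun e => h2 (o.injective e)) h3
    simpa [o.injective.eq_iff] using this
  have hne : ∀ i j i' j' : Fin 5, i ≠ j → i' ≠ j' → ¬ ((i = i' ∧ j = j') ∨ (i = j' ∧ j = i')) →
      M5 (o i) (o j) ≠ M5 (o i') (o j') := fun i j i' j' h1 h2 h3 h4 => h3 (key _ _ _ _ h1 h2 h4)
  have := M5_no (o 0) (o 1) h01 (o 2) h12 (o 3) h23
    (hne 0 1 2 3 (by decide) (by decide) (by decide))
    (hne 0 2 1 3 (by decide) (by decide) (by decide))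
    (hne 0 3 1 2 (by decide) (by decide) (by decide)) (o 4) h34
  rcases this with h | h | h | h | h | h | h | h | h | h | h | h <;>
  · have h' := key _ _ _ _ (by decide) (by decide) h
    revert h'
    decide

theorem K4_fails : Fails (⊤ : SimpleGraph (Fin 4)) :=
  clique_fails (k := 7) (by rw [ncard_top]; rfl) (r := 4) (by norm_num)
    (Function.Embedding.refl _) (fun i j h => h) M4 M4_symm M4_bal M4_noSet

theorem K5_fails : Fails (⊤ : SimpleGraph (Fin 5)) :=
  clique_fails (k := 11) (by rw [ncard_top]; rfl) (r := 5) (by norm_num)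
    (Function.Embedding.refl _) (fun i j h => h) M5 M5_symm M5_bal M5_noSet

/-! ### six and more vertices -/

/-- the involution of a cyclic group is unique -/
theorem invol_unique {N : ℕ} [NeZero N] {a b : ZMod N} (ha : a ≠ 0) (hb : b ≠ 0)
    (ha2 : 2 * a = 0) (hb2 : 2 * b = 0) : a = b := by
  have key : ∀ c : ZMod N, c ≠ 0 → 2 * c = 0 → 2 * c.val = N := by
    intro c hc hc2
    have h1 : ((2 * c.val : ℕ) : ZMod N) = 0 := by
      push_cast
      rw [ZMod.natCast_zmod_val]
      exact hc2
    rw [ZMod.natCast_eq_zero_iff] at h1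
    have h2 : c.val < N := ZMod.val_lt c
    have h3 : 0 < c.val := by
      rw [Nat.pos_iff_ne_zero]
      intro h
      exact hc ((ZMod.val_eq_zero c).1 h)
    obtain ⟨q, hq⟩ := h1
    have hq1 : 0 < q := by
      rcases Nat.eq_zero_or_pos q with h | h
      · rw [h] at hq; omega
      · exact h
    have hq2 : q < 2 := by
      by_contra hcon
      push Not at hcon
      have : N * 2 ≤ N * q := Nat.mul_le_mul_left _ hcon
      omega
    have : q = 1 := by omega
    rw [this] at hq
    omega
  have h1 := key a ha ha2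
  have h2 := key b hb hb2
  exact ZMod.val_injective N (by omega)

theorem sums_bound {N : ℕ} [NeZero N] (A : Finset (ZMod N))
    (h : RainbowSet (fun x y : ZMod N => x + y) A) : A.card * A.card ≤ N + 3 * A.card := by
  classical
  let P := A.offDiag
  let bad := P.filter fun p => 2 * p.1 - p.2 ∈ A ∧ 2 * p.1 - p.2 ≠ p.2
  let good := P.filter fun p => ¬ (2 * p.1 - p.2 ∈ A ∧ 2 * p.1 - p.2 ≠ p.2)
  have hP : P.card = A.card * A.card - A.card := Finset.offDiag_card A
  have hsplit : bad.card + good.card = P.card := Finset.card_filter_add_card_filter_not _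
  have hbad : bad.card ≤ 2 * A.card := by
    refine Finset.card_le_mul_card_image_of_maps_to (f := fun p => p.1) ?_ 2 ?_
    · intro p hp
      simp only [bad, P, mem_filter, mem_offDiag] at hp
      exact hp.1.1
    · intro x hx
      by_cases hemp : (bad.filter fun p => p.1 = x).Nonempty
      · obtain ⟨⟨x', y⟩, hy⟩ := hemp
        simp only [bad, P, mem_filter, mem_offDiag] at hy
        obtain ⟨⟨⟨hx'A, hyA, hne⟩, hzA, hzne⟩, rfl⟩ := hy
        calc _ ≤ ({(x', y), (x', 2 * x' - y)} : Finset (ZMod N × ZMod N)).card := by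
              apply Finset.card_le_card
              rintro ⟨x'', y'⟩ hy'
              simp only [bad, P, mem_filter, mem_offDiag] at hy'
              obtain ⟨⟨⟨hx''A, hy'A, hne'⟩, hz'A, hz'ne⟩, rfl⟩ := hy'
              have h1 := h.eq hyA hzA hy'A hz'A (Ne.symm hzne) (Ne.symm hz'ne) (by ring)
              simp only [mem_insert, mem_singleton, Prod.mk.injEq, true_and]
              rcases h1 with ⟨h1, -⟩ | ⟨-, h1⟩
              · exact Or.inl h1.symm
              · exact Or.inr h1.symm
          _ ≤ 2 := Finset.card_le_two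
      · rw [Finset.not_nonempty_iff_eq_empty] at hemp
        rw [hemp]
        simp
  have hgood : good.card ≤ N := by
    let φ : ZMod N × ZMod N → ZMod N := fun p =>
      if 2 * p.1 - p.2 = p.2 ∧ p.1.val < p.2.val then 0 else p.1 - p.2
    have hinj : Set.InjOn φ (good : Set (ZMod N × ZMod N)) := by
      rintro ⟨x, y⟩ hp ⟨x', y'⟩ hq hφ
      simp only [good, P, Finset.coe_filter, mem_offDiag, Set.mem_setOf_eq, not_and, not_not]
        at hp hq
      obtain ⟨⟨hx, hy, hne⟩, hgp⟩ := hp
      obtain ⟨⟨hx', hy', hne'⟩, hgq⟩ := hq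
      have hd : x - y ≠ 0 := sub_ne_zero.2 hne
      have hd' : x' - y' ≠ 0 := sub_ne_zero.2 hne'
      -- the main step
      have step : x - y = x' - y' → (x = x' ∧ y = y') ∨ (2 * x - y = y ∧ x' = y ∧ y' = x) := by
        intro he
        by_cases h1 : x = y'
        · have h2 : 2 * x - y = x' := by
            rw [← h1] at he
            linear_combination he
          have h3 := hgp (by rw [h2]; exact hx')
          exact Or.inr ⟨h3, by rw [← h2, h3], h1.symm⟩
        · by_cases h2 : x' = y
          · have h3 : 2 * x' - y' = x := by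
              rw [← h2] at he
              linear_combination -he
            have h4 := hgq (by rw [h3]; exact hx)
            have h5 : y' = x := by rw [← h3, h4]
            exact absurd h5.symm h1
          · have h3 := h.eq hx hy' hx' hy h1 h2 (by linear_combination he)
            rcases h3 with ⟨h3, h4⟩ | ⟨h3, h4⟩
            · exact Or.inl ⟨h3, h4.symm⟩
            · exact absurd h3 hne
      have two : ∀ {u v : ZMod N}, 2 * u - v = v → 2 * (u - v) = 0 := by
        intro u v h
        linear_combination h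
      simp only [φ] at hφ
      split_ifs at hφ with h1 h2 h2
      · have h3 := invol_unique hd hd' (two h1.1) (two h2.1)
        rcases step h3 with ⟨h4, h5⟩ | ⟨-, h4, h5⟩
        · rw [h4, h5]
        · subst h4 h5
          omega
      · exact absurd hφ.symm hd'
      · exact absurd hφ hd
      · rcases step hφ with ⟨h4, h5⟩ | ⟨h6, h4, h5⟩
        · rw [h4, h5]
        · subst h4 h5
          have h7 : ¬ (y'.val < x'.val) := fun h => h1 ⟨h6, h⟩
          have h8 : ¬ (x'.val < y'.val) := by
            refine fun h => h2 ⟨?_, h⟩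
            linear_combination -h6
          exact absurd (ZMod.val_injective N (by omega : y'.val = x'.val)) hne
    calc good.card ≤ (univ : Finset (ZMod N)).card :=
          Finset.card_le_card_of_injOn φ (fun _ _ => by simp) hinj
      _ = N := by rw [Finset.card_univ, ZMod.card]
  have hle : A.card ≤ A.card * A.card := by nlinarith [Nat.zero_le A.card]
  omega

/-- A graph that contains a complete graph on `r` vertices and has fewer than `r² - 3 r - 1` edges
fails. -/
theorem clique_large {V : Type} {G : SimpleGraph V} {r : ℕ} (φ : Fin r ↪ V)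
    (hφ : ∀ i j, i ≠ j → G.Adj (φ i) (φ j)) (h : G.edgeSet.ncard + 1 + 3 * r < r * r) :
    Fails G := by
  classical
  have hr : 3 ≤ r := by
    by_contra hcon
    push Not at hcon
    nlinarith
  obtain ⟨N, hN⟩ : ∃ N, N = G.edgeSet.ncard + 1 := ⟨_, rfl⟩
  haveI : NeZero N := ⟨by omega⟩
  let ε : ZMod N ≃ Fin N := Fintype.equivFinOfCardEq (ZMod.card N)
  refine clique_fails (X := ZMod N) (k := N) hN.symm hr φ hφ (fun x y => ε (x + y))
    (fun x y => by rw [add_comm]) ?_ ?_
  · intro x i
    have : (univ.filter fun y => ε (x + y) = i) = {ε.symm i - x} := by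
      ext y
      simp only [mem_filter, mem_univ, true_and, mem_singleton]
      constructor
      · intro hy
        rw [← hy, Equiv.symm_apply_apply]
        ring
      · intro hy
        rw [hy]
        simp
    rw [this, ZMod.card]
    simp
  · intro S hS hrb
    have h1 : RainbowSet (fun x y : ZMod N => x + y) S := by
      intro a ha b hb a' ha' b' hb' hab hab' hM
      exact hrb a ha b hb a' ha' b' hb' hab hab' (by simp only at hM ⊢; rw [hM])
    have h2 := sums_bound S h1
    rw [hS] at h2
    omega

theorem complete_fails {r : ℕ} (hr : 4 ≤ r) : Fails (⊤ : SimpleGraph (Fin r)) := by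
  rcases Nat.lt_or_ge r 6 with h | h
  · interval_cases r
    · exact K4_fails
    · exact K5_fails
  · refine clique_large (Function.Embedding.refl _) (fun i j h => h) ?_
    rw [ncard_top, Nat.choose_two_right]
    have h1 : r * (r - 1) / 2 ≤ r * (r - 1) / 2 := le_rfl
    have h2 : 2 * (r * (r - 1) / 2) ≤ r * (r - 1) := Nat.mul_div_le _ _
    have h3 : r * (r - 1) + r = r * r := by
      obtain ⟨q, rfl⟩ : ∃ q, r = q + 1 := ⟨r - 1, by omega⟩
      simp only [Nat.add_sub_cancel]
      ring
    nlinarith

end Pool.Agent.H907.ET
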