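import Pool.Agent.H907.ETDefs

set_option autoImplicit false

/-!
# Rainbow copies of small graphs in balanced colourings: counting
-/

namespace Pool.Agent.H907.ET

open Finset

namespace EdgeColouring

variable {n N : ℕ}

/-- the number of vertices `w` with `c x w = p` (also `w = x` counts) -/
def m1 (c : EdgeColouring n N) (x : Fin n) (p : Fin N) : ℕ :=
  (univ.filter fun w => c.col x w = p).card

/-- the number of vertices which see `x` and `y` in the same colour -/
def D (c : EdgeColouring n N) (x y : Fin n) : ℕ :=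
  (univ.filter fun w => c.col x w = c.col y w).card

theorem deg_le_m1 (c : EdgeColouring n N) (x : Fin n) (p : Fin N) : c.deg x p ≤ c.m1 x p := by
  unfold deg m1
  apply Finset.card_le_card
  intro w hw
  simp only [mem_filter, mem_univ, true_and] at hw ⊢
  exact hw.2

theorem sum_m1 (c : EdgeColouring n N) (x : Fin n) : ∑ p, c.m1 x p = n := by
  unfold m1
  rw [← Finset.card_eq_sum_card_fiberwise (f := fun w => c.col x w) (s := univ) (t := univ)
    (fun _ _ => by simp)]
  simp

theorem le_m1 {c : EdgeColouring n N} {ε : ℝ} (hb : c.Balanced ε) (x : Fin n) (p : Fin N) :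
    (1 - ε) * n / N ≤ (c.m1 x p : ℝ) :=
  (hb x p).trans (by exact_mod_cast c.deg_le_m1 x p)

theorem m1_le {c : EdgeColouring n N} {ε : ℝ} (hε : 0 ≤ ε) (hb : c.Balanced ε) (x : Fin n)
    (p : Fin N) : (c.m1 x p : ℝ) ≤ n / N + ε * n := by
  have hN : (0 : ℝ) < N := by
    have := p.pos
    exact_mod_cast this
  have h1 : (∑ q, (c.m1 x q : ℝ)) = n := by exact_mod_cast c.sum_m1 x
  rw [← Finset.add_sum_erase univ _ (mem_univ p)] at h1
  have h2 : ((N : ℝ) - 1) * ((1 - ε) * n / N) ≤ ∑ q ∈ univ.erase p, (c.m1 x q : ℝ) := by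
    have h3 := Finset.card_nsmul_le_sum (univ.erase p) (fun q => (c.m1 x q : ℝ))
      ((1 - ε) * n / N) (fun q _ => le_m1 hb x q)
    rw [Finset.card_erase_of_mem (mem_univ p), Finset.card_univ, Fintype.card_fin, nsmul_eq_mul,
      Nat.cast_sub (by have := p.pos; omega), Nat.cast_one] at h3
    exact h3
  have h4 : (n : ℝ) - ((N : ℝ) - 1) * ((1 - ε) * n / N) = n / N + ε * n - ε * n / N := by
    field_simp
    ring
  have h5 : 0 ≤ ε * n / N := by positivity
  linarith

theorem sum_D {c : EdgeColouring n N} {ε : ℝ} (hε : 0 ≤ ε) (hb : c.Balanced ε) (x : Fin n) :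
    ∑ y, (c.D x y : ℝ) ≤ n * (n / N + ε * n) := by
  have h1 : ∑ y, c.D x y = ∑ w, c.m1 w (c.col x w) := by
    unfold D m1
    simp only [Finset.card_filter]
    rw [Finset.sum_comm]
    refine Finset.sum_congr rfl fun w _ => Finset.sum_congr rfl fun y _ => ?_
    rw [c.symm w y]
    simp only [eq_comm]
  have h2 : ∑ y, (c.D x y : ℝ) = ∑ w, (c.m1 w (c.col x w) : ℝ) := by exact_mod_cast h1
  rw [h2]
  have h3 := Finset.sum_le_card_nsmul univ (fun w => (c.m1 w (c.col x w) : ℝ)) (n / N + ε * n)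
    (fun w _ => m1_le hε hb w _)
  rw [Finset.card_univ, Fintype.card_fin, nsmul_eq_mul] at h3
  exact h3

theorem D_le (c : EdgeColouring n N) (x y : Fin n) : (c.D x y : ℝ) ≤ n := by
  have : c.D x y ≤ n := by
    unfold D
    calc _ ≤ (univ : Finset (Fin n)).card := Finset.card_le_card (Finset.filter_subset _ _)
      _ = n := by simp
  exact_mod_cast this

/-- the counting argument: not almost all vertices can agree with `x` too often -/
theorem lemA {c : EdgeColouring n N} {ε : ℝ} (hε : 0 ≤ ε) (hb : c.Balanced ε) {s K : ℕ}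
    (hs : s + 2 ≤ N) (hε2 : 2 * (N : ℝ) ^ 2 * ε ≤ 1) (x : Fin n) (bad : Finset (Fin n))
    (hK : bad.card ≤ K) (hn : 2 * N * (K + 2) < n)
    (h : ∀ y, y ∉ bad → (n : ℝ) ≤ c.D x y + 2 + s * (n / N + ε * n)) : False := by
  have hN2 : (2 : ℝ) ≤ N := by
    have : 2 ≤ N := by omega
    exact_mod_cast this
  have hN : (0 : ℝ) < N := by linarith
  have hn' : 2 * (N : ℝ) * (K + 2) < n := by exact_mod_cast hn
  have hK' : (bad.card : ℝ) ≤ K := by exact_mod_cast hK
  have hs' : (s : ℝ) + 2 ≤ N := by exact_mod_cast hs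
  have hK0 : (0 : ℝ) ≤ K := Nat.cast_nonneg _
  have hb0 : (0 : ℝ) ≤ bad.card := Nat.cast_nonneg _
  have hn0 : (0 : ℝ) < n := by nlinarith
  set U : ℝ := n / N + ε * n with hU
  have hNU : (N : ℝ) * U = n + N * ε * n := by
    rw [hU]
    field_simp
  have hNε : 2 * (N : ℝ) * (N * ε * n) ≤ n := by
    have : 2 * (N : ℝ) * (N * ε * n) = (2 * (N : ℝ) ^ 2 * ε) * n := by ring
    rw [this]
    nlinarith
  have hU0 : 0 ≤ U := by positivity
  set t : ℝ := n - 2 - s * U with ht
  -- the sum
  have h1 : ((n : ℝ) - bad.card) * t ≤ ∑ y ∈ univ \ bad, (c.D x y : ℝ) := by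
    have h2 := Finset.card_nsmul_le_sum (univ \ bad) (fun y => (c.D x y : ℝ)) t (fun y hy => by
      rw [mem_sdiff] at hy
      have := h y hy.2
      rw [ht]
      linarith)
    rw [Finset.card_sdiff_of_subset (subset_univ _), Finset.card_univ, Fintype.card_fin,
      nsmul_eq_mul, Nat.cast_sub] at h2
    · exact h2
    · calc bad.card ≤ (univ : Finset (Fin n)).card := Finset.card_le_card (subset_univ _)
        _ = n := by simp
  have h2 : ∑ y ∈ univ \ bad, (c.D x y : ℝ) ≤ n * U :=
    (Finset.sum_le_sum_of_subset_of_nonneg (sdiff_subset) (fun _ _ _ => Nat.cast_nonneg _)).trans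
      (sum_D hε hb x)
  have h3 : t ≤ n := by
    have : 0 ≤ (s : ℝ) * U := by positivity
    linarith
  -- `t` is positive
  have h4 : (s : ℝ) * U ≤ (N - 2) * U := by nlinarith
  have h5 : 0 ≤ t := by
    have h6 : (2 : ℝ) * N * t ≥ 0 := by
      have h7 : 2 * (N : ℝ) * t ≥ 2 * N * (n - 2) - 2 * (N - 2) * (N * U) := by
        rw [ht]
        nlinarith
      rw [hNU] at h7
      nlinarith
    nlinarith
  have h6 : (n : ℝ) * t - K * n ≤ n * U := by nlinarith
  have h7 : t - K ≤ U := by nlinarith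
  have h8 : (n : ℝ) - 2 - K ≤ (N - 1) * U := by
    rw [ht] at h7
    nlinarith
  have h9 : 2 * (N : ℝ) * (n - 2 - K) ≤ 2 * (N - 1) * (N * U) := by nlinarith
  rw [hNU] at h9
  nlinarith

end EdgeColouring

end Pool.Agent.H907.ET
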