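import Pool.Agent.H907.ETPos

set_option autoImplicit false

/-!
# Rainbow copies of small graphs in balanced colourings: intersecting supports
-/

namespace Pool.Agent.H907.ET

open Finset

theorem tri {C : Type} {p q d A B : C} (hpq : p ≠ q) (hpd : p ≠ d) (hqd : q ≠ d)
    (e0 : A = p ∨ A = q ∨ B = p ∨ B = q) (e1 : A = q ∨ A = d ∨ B = q ∨ B = d)
    (e2 : A = p ∨ A = d ∨ B = p ∨ B = d) :
    (A = p ∨ A = q ∨ A = d) ∧ (B = p ∨ B = q ∨ B = d) := by
  constructor <;> grind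

theorem swap4 {p q r s : Prop} (h : p ∨ q ∨ r ∨ s) : q ∨ p ∨ s ∨ r := by
  rcases h with h | h | h | h
  · exact Or.inr (Or.inl h)
  · exact Or.inl h
  · exact Or.inr (Or.inr (Or.inr h))
  · exact Or.inr (Or.inr (Or.inl h))

/-- pairwise intersecting pairs form a star or a triangle -/
theorem inter_cases {ι C : Type} (O : Set ι) (a b : ι → C) (z₀ : C)
    (hne : ∀ w ∈ O, a w ≠ b w)
    (hint : ∀ w ∈ O, ∀ w' ∈ O, a w = a w' ∨ a w = b w' ∨ b w = a w' ∨ b w = b w') :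
    (∃ z, ∀ w ∈ O, a w = z ∨ b w = z) ∨
      ∃ p q r, ∀ w ∈ O, (a w = p ∨ a w = q ∨ a w = r) ∧ (b w = p ∨ b w = q ∨ b w = r) := by
  by_cases hO : O = ∅
  · exact Or.inl ⟨z₀, fun w hw => by rw [hO] at hw; exact absurd hw (Set.notMem_empty w)⟩
  obtain ⟨w₀, h0⟩ := Set.nonempty_iff_ne_empty.2 hO
  by_cases h1 : ∀ w ∈ O, a w = a w₀ ∨ b w = a w₀
  · exact Or.inl ⟨_, h1⟩
  by_cases h2 : ∀ w ∈ O, a w = b w₀ ∨ b w = b w₀
  · exact Or.inl ⟨_, h2⟩
  push Not at h1 h2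
  obtain ⟨w₁, hw1, h11, h12⟩ := h1
  obtain ⟨w₂, hw2, h21, h22⟩ := h2
  -- the support of `w₁` is `{b w₀, d}`, the one of `w₂` is `{a w₀, d}`
  right
  have key : ∃ d, (a w₁ = b w₀ ∧ b w₁ = d ∨ b w₁ = b w₀ ∧ a w₁ = d) ∧
      (a w₂ = a w₀ ∧ b w₂ = d ∨ b w₂ = a w₀ ∧ a w₂ = d) := by
    have e1 := hint w₁ hw1 w₀ h0
    have e2 := hint w₂ hw2 w₀ h0
    have e3 := hint w₁ hw1 w₂ hw2
    have n0 := hne w₀ h0
    have e1' : a w₁ = b w₀ ∨ b w₁ = b w₀ := by
      rcases e1 with h | h | h | h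
      · exact absurd h h11
      · exact Or.inl h
      · exact absurd h h12
      · exact Or.inr h
    have e2' : a w₂ = a w₀ ∨ b w₂ = a w₀ := by
      rcases e2 with h | h | h | h
      · exact Or.inl h
      · exact absurd h h21
      · exact Or.inr h
      · exact absurd h h22
    rcases e1' with f1 | f1 <;> rcases e2' with f2 | f2
    · refine ⟨b w₁, Or.inl ⟨f1, rfl⟩, Or.inl ⟨f2, ?_⟩⟩
      rcases e3 with g | g | g | g
      · exact absurd (f1.symm.trans (g.trans f2)) (Ne.symm n0)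
      · exact absurd (g.symm.trans f1) h22
      · exact absurd (g.trans f2) h12
      · exact g.symm
    · refine ⟨b w₁, Or.inl ⟨f1, rfl⟩, Or.inr ⟨f2, ?_⟩⟩
      rcases e3 with g | g | g | g
      · exact absurd (g.symm.trans f1) h21
      · exact absurd (f1.symm.trans (g.trans f2)) (Ne.symm n0)
      · exact g.symm
      · exact absurd (g.trans f2) h12
    · refine ⟨a w₁, Or.inr ⟨f1, rfl⟩, Or.inl ⟨f2, ?_⟩⟩
      rcases e3 with g | g | g | g
      · exact absurd (g.trans f2) h11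
      · exact g.symm
      · exact absurd (f1.symm.trans (g.trans f2)) (Ne.symm n0)
      · exact absurd (g.symm.trans f1) h22
    · refine ⟨a w₁, Or.inr ⟨f1, rfl⟩, Or.inr ⟨f2, ?_⟩⟩
      rcases e3 with g | g | g | g
      · exact g.symm
      · exact absurd (g.trans f2) h11
      · exact absurd (g.symm.trans f1) h21
      · exact absurd (f1.symm.trans (g.trans f2)) (Ne.symm n0)
  obtain ⟨d, hd1, hd2⟩ := key
  refine ⟨a w₀, b w₀, d, fun w hw => ?_⟩
  have e0 := hint w hw w₀ h0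
  have e1 := hint w hw w₁ hw1
  have e2 := hint w hw w₂ hw2
  have n0 := hne w₀ h0
  have hd3 : a w₀ ≠ d := by
    rcases hd1 with ⟨-, rfl⟩ | ⟨-, rfl⟩
    · exact Ne.symm h12
    · exact Ne.symm h11
  have hd4 : b w₀ ≠ d := by
    rcases hd2 with ⟨-, rfl⟩ | ⟨-, rfl⟩
    · exact Ne.symm h22
    · exact Ne.symm h21
  have e1' : a w = b w₀ ∨ a w = d ∨ b w = b w₀ ∨ b w = d := by
    rcases hd1 with ⟨f1, f2⟩ | ⟨f1, f2⟩ <;> rw [f1, f2] at e1
    · exact e1
    · exact swap4 e1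
  have e2' : a w = a w₀ ∨ a w = d ∨ b w = a w₀ ∨ b w = d := by
    rcases hd2 with ⟨f1, f2⟩ | ⟨f1, f2⟩ <;> rw [f1, f2] at e2
    · exact e2
    · exact swap4 e2
  exact tri n0 hd3 hd4 e0 e1' e2'

end Pool.Agent.H907.ET
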