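import Pool.Agent.H907.ETPos2

set_option autoImplicit false

/-!
# Rainbow copies of small graphs in balanced colourings: triangles and four-cycles
-/

namespace Pool.Agent.H907.ET

open Finset

namespace EdgeColouring

variable {n N : ℕ}

/-- the supports of the vertices which see `x` and `y` in two different colours outside `F`
intersect pairwise -/
def GoodF (c : EdgeColouring n N) (F : Finset (Fin N)) (x y : Fin n) : Prop :=
  ∀ w ∈ {w : Fin n | w ≠ x ∧ w ≠ y ∧ c.col x w ≠ c.col y w ∧ c.col x w ∉ F ∧ c.col y w ∉ F},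
    ∀ w' ∈ {w : Fin n | w ≠ x ∧ w ≠ y ∧ c.col x w ≠ c.col y w ∧ c.col x w ∉ F ∧ c.col y w ∉ F},
      c.col x w = c.col x w' ∨ c.col x w = c.col y w' ∨ c.col y w = c.col x w' ∨
        c.col y w = c.col y w'

theorem D_lower {c : EdgeColouring n N} {F : Finset (Fin N)} {x y : Fin n} (h : c.GoodF F x y)
    {B : ℝ} (hB0 : 0 ≤ B) (hB : ∀ x p, (c.m1 x p : ℝ) ≤ B) :
    (n : ℝ) ≤ c.D x y + 2 + (2 * F.card + 3) * B := by
  classical
  set O : Set (Fin n) :=
    {w : Fin n | w ≠ x ∧ w ≠ y ∧ c.col x w ≠ c.col y w ∧ c.col x w ∉ F ∧ c.col y w ∉ F} with hO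
  let Of : Finset (Fin n) := univ.filter fun w => w ∈ O
  have hOf : (Of.card : ℝ) ≤ 3 * B := by
    rcases inter_cases O (fun w => c.col x w) (fun w => c.col y w) (c.col x y)
      (fun w hw => hw.2.2.1) h with ⟨z, hz⟩ | ⟨p, q, r, hpqr⟩
    · have h1 : Of ⊆ (univ.filter fun w => c.col x w = z) ∪ (univ.filter fun w => c.col y w = z) := by
        intro w hw
        simp only [Of, mem_filter, mem_univ, true_and] at hw
        have := hz w hw
        simp only [mem_union, mem_filter, mem_univ, true_and]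
        exact this
      have h2 : Of.card ≤ c.m1 x z + c.m1 y z :=
        (Finset.card_le_card h1).trans (Finset.card_union_le _ _)
      have h3 : (Of.card : ℝ) ≤ c.m1 x z + c.m1 y z := by exact_mod_cast h2
      have := hB x z
      have := hB y z
      linarith
    · have h1 : Of ⊆ ((univ.filter fun w => c.col x w = p) ∪ (univ.filter fun w => c.col x w = q)) ∪
          (univ.filter fun w => c.col x w = r) := by
        intro w hw
        simp only [Of, mem_filter, mem_univ, true_and] at hw
        have := (hpqr w hw).1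
        simp only [mem_union, mem_filter, mem_univ, true_and, or_assoc]
        exact this
      have h2 : Of.card ≤ c.m1 x p + c.m1 x q + c.m1 x r :=
        (Finset.card_le_card h1).trans ((Finset.card_union_le _ _).trans
          (Nat.add_le_add_right (Finset.card_union_le _ _) _))
      have h3 : (Of.card : ℝ) ≤ c.m1 x p + c.m1 x q + c.m1 x r := by exact_mod_cast h2
      have := hB x p
      have := hB x q
      have := hB x r
      linarith
  have hF : ∀ z : Fin n, ((F.biUnion fun l => univ.filter fun w => c.col z w = l).card : ℝ) ≤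
      F.card * B := by
    intro z
    have h1 : (F.biUnion fun l => univ.filter fun w => c.col z w = l).card ≤
        ∑ l ∈ F, c.m1 z l := Finset.card_biUnion_le
    have h2 : ((F.biUnion fun l => univ.filter fun w => c.col z w = l).card : ℝ) ≤
        ∑ l ∈ F, (c.m1 z l : ℝ) := by exact_mod_cast h1
    refine h2.trans ?_
    have h3 := Finset.sum_le_card_nsmul F (fun l => (c.m1 z l : ℝ)) B (fun l _ => hB z l)
    rwa [nsmul_eq_mul] at h3
  have hcov : (univ : Finset (Fin n)) ⊆ (((univ.filter fun w => c.col x w = c.col y w) ∪ {x, y}) ∪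
      ((F.biUnion fun l => univ.filter fun w => c.col x w = l) ∪
        (F.biUnion fun l => univ.filter fun w => c.col y w = l))) ∪ Of := by
    intro w _
    simp only [mem_union, mem_filter, mem_univ, true_and, mem_insert, mem_singleton, mem_biUnion,
      Of, hO, Set.mem_setOf_eq]
    by_cases h1 : c.col x w = c.col y w
    · exact Or.inl (Or.inl (Or.inl h1))
    by_cases h2 : w = x
    · exact Or.inl (Or.inl (Or.inr (Or.inl h2)))
    by_cases h3 : w = y
    · exact Or.inl (Or.inl (Or.inr (Or.inr h3)))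
    by_cases h4 : c.col x w ∈ F
    · exact Or.inl (Or.inr (Or.inl ⟨_, h4, rfl⟩))
    by_cases h5 : c.col y w ∈ F
    · exact Or.inl (Or.inr (Or.inr ⟨_, h5, rfl⟩))
    exact Or.inr ⟨h2, h3, h1, h4, h5⟩
  have h1 := Finset.card_le_card hcov
  rw [Finset.card_univ, Fintype.card_fin] at h1
  have h2 : n ≤ c.D x y + 2 + ((F.biUnion fun l => univ.filter fun w => c.col x w = l).card +
      (F.biUnion fun l => univ.filter fun w => c.col y w = l).card) + Of.card := by
    refine h1.trans ((Finset.card_union_le _ _).trans (Nat.add_le_add_right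
      ((Finset.card_union_le _ _).trans (Nat.add_le_add ((Finset.card_union_le _ _).trans
        (Nat.add_le_add_left Finset.card_le_two _)) (Finset.card_union_le _ _))) _))
  have h3 : (n : ℝ) ≤ c.D x y + 2 +
      ((F.biUnion fun l => univ.filter fun w => c.col x w = l).card +
      (F.biUnion fun l => univ.filter fun w => c.col y w = l).card) + Of.card := by exact_mod_cast h2
  have := hF x
  have := hF y
  linarith

theorem D_self (c : EdgeColouring n N) (x : Fin n) : c.D x x = n := by
  unfold D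
  simp

/-- rainbow triangles -/
theorem exists_triangle {c : EdgeColouring n N} {ε : ℝ} (hε : 0 ≤ ε) (hb : c.Balanced ε)
    (hN : 4 ≤ N) (hε2 : 2 * (N : ℝ) ^ 2 * ε ≤ 1) (hn : 4 * N < n) :
    ∃ x y w : Fin n, x ≠ y ∧ x ≠ w ∧ y ≠ w ∧ c.col x y ≠ c.col x w ∧ c.col x y ≠ c.col y w ∧
      c.col x w ≠ c.col y w := by
  by_contra hcon
  push Not at hcon
  have hn0 : 0 < n := by omega
  refine lemA hε hb (s := 2) (K := 0) (by omega) hε2 ⟨0, hn0⟩ ∅ (by simp) (by nlinarith) ?_
  intro y _
  set x : Fin n := ⟨0, hn0⟩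
  have hB : ∀ x p, (c.m1 x p : ℝ) ≤ n / N + ε * n := fun x p => m1_le hε hb x p
  by_cases hxy : x = y
  · rw [← hxy, D_self]
    have : (0 : ℝ) ≤ n / N + ε * n := by positivity
    push_cast
    linarith
  have hcov : (univ : Finset (Fin n)) ⊆ ((univ.filter fun w => c.col x w = c.col y w) ∪
      (univ.filter fun w => c.col x w = c.col x y)) ∪
        (univ.filter fun w => c.col y w = c.col x y) := by
    intro w _
    simp only [mem_union, mem_filter, mem_univ, true_and]
    by_cases h1 : w = x
    · right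
      rw [h1, c.symm]
    by_cases h2 : w = y
    · left
      right
      rw [h2]
    by_cases h3 : c.col x w = c.col x y
    · exact Or.inl (Or.inr h3)
    by_cases h4 : c.col y w = c.col x y
    · exact Or.inr h4
    exact Or.inl (Or.inl (hcon x y w hxy (Ne.symm h1) (Ne.symm h2) (Ne.symm h3) (Ne.symm h4)))
  have h1 := Finset.card_le_card hcov
  rw [Finset.card_univ, Fintype.card_fin] at h1
  have h2 : n ≤ c.D x y + c.m1 x (c.col x y) + c.m1 y (c.col x y) :=
    h1.trans ((Finset.card_union_le _ _).trans (Nat.add_le_add_right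
      (Finset.card_union_le _ _) _))
  have h3 : (n : ℝ) ≤ c.D x y + c.m1 x (c.col x y) + c.m1 y (c.col x y) := by exact_mod_cast h2
  have := hB x (c.col x y)
  have := hB y (c.col x y)
  push_cast
  linarith

/-- rainbow cycles of length four -/
theorem exists_four_cycle {c : EdgeColouring n N} {ε : ℝ} (hε : 0 ≤ ε) (hb : c.Balanced ε)
    (hN : 5 ≤ N) (hε2 : 2 * (N : ℝ) ^ 2 * ε ≤ 1) (hn : 4 * N < n) :
    ∃ x y w w' : Fin n, x ≠ y ∧ x ≠ w ∧ y ≠ w ∧ x ≠ w' ∧ y ≠ w' ∧ w ≠ w' ∧
      c.col x w ≠ c.col y w ∧ c.col x w' ≠ c.col y w' ∧ c.col x w ≠ c.col x w' ∧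
      c.col x w ≠ c.col y w' ∧ c.col y w ≠ c.col x w' ∧ c.col y w ≠ c.col y w' := by
  by_contra hcon
  have hn0 : 0 < n := by omega
  refine lemA hε hb (s := 3) (K := 0) (by omega) hε2 ⟨0, hn0⟩ ∅ (by simp) (by nlinarith) ?_
  intro y _
  set x : Fin n := ⟨0, hn0⟩
  have hB : ∀ x p, (c.m1 x p : ℝ) ≤ n / N + ε * n := fun x p => m1_le hε hb x p
  have hB0 : (0 : ℝ) ≤ n / N + ε * n := by positivity
  by_cases hxy : x = y
  · rw [← hxy, D_self]
    push_cast
    linarith
  have hg : c.GoodF ∅ x y := by
    intro w hw w' hw'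
    by_contra hcon'
    push Not at hcon'
    obtain ⟨h1, h2, h3, -, -⟩ := hw
    obtain ⟨h1', h2', h3', -, -⟩ := hw'
    exact hcon ⟨x, y, w, w', hxy, Ne.symm h1, Ne.symm h2, Ne.symm h1', Ne.symm h2',
      fun e => hcon'.1 (by rw [e]), h3, h3', hcon'.1, hcon'.2.1, hcon'.2.2.1, hcon'.2.2.2⟩
  have := D_lower hg hB0 hB
  simp only [Finset.card_empty, Nat.cast_zero, mul_zero, zero_add] at this
  push_cast
  linarith

end EdgeColouring

end Pool.Agent.H907.ET
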