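import Pool.Agent.H907.ETPos3

set_option autoImplicit false

/-!
# Rainbow copies of small graphs in balanced colourings: six colours
-/

namespace Pool.Agent.H907.ET

open Finset

namespace EdgeColouring

variable {n N : ℕ}

/-- the number of vertices joined to `x` by the colour `p` and to `y` by the colour `q` -/
def m2 (c : EdgeColouring n N) (x y : Fin n) (p q : Fin N) : ℕ :=
  (univ.filter fun w => c.col x w = p ∧ c.col y w = q).card

theorem sum_m2_sq (c : EdgeColouring n N) :
    ∑ x, ∑ y, ∑ p, ∑ q, (c.m2 x y p q) ^ 2 = ∑ w, ∑ w', (c.D w w') ^ 2 := by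
  classical
  -- both sides count quadruples
  have h1 : ∀ x y, ∑ p, ∑ q, (c.m2 x y p q) ^ 2 =
      ∑ w, ∑ w', if c.col x w = c.col x w' ∧ c.col y w = c.col y w' then 1 else 0 := by
    intro x y
    have h2 : ∀ p q, (c.m2 x y p q) ^ 2 = ∑ w, ∑ w',
        (if c.col x w = p ∧ c.col y w = q then 1 else 0) *
          (if c.col x w' = p ∧ c.col y w' = q then 1 else 0) := by
      intro p q
      rw [← Finset.sum_mul_sum]
      unfold m2
      rw [Finset.card_filter]
      ring
    simp only [h2]
    rw [Finset.sum_congr rfl (fun p _ => Finset.sum_comm), Finset.sum_comm]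
    refine Finset.sum_congr rfl fun w _ => ?_
    rw [Finset.sum_congr rfl (fun p _ => Finset.sum_comm), Finset.sum_comm]
    refine Finset.sum_congr rfl fun w' _ => ?_
    rw [Finset.sum_eq_single (c.col x w), Finset.sum_eq_single (c.col y w)]
    · simp [eq_comm]
    · intro q _ hq
      simp [Ne.symm hq]
    · simp
    · intro p _ hp
      refine Finset.sum_eq_zero fun q _ => ?_
      simp [Ne.symm hp]
    · simp
  have h3 : ∀ w w', (c.D w w') ^ 2 =
      ∑ x, ∑ y, if c.col x w = c.col x w' ∧ c.col y w = c.col y w' then 1 else 0 := by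
    intro w w'
    unfold D
    rw [Finset.card_filter, pow_two, Finset.sum_mul_sum]
    refine Finset.sum_congr rfl fun x _ => Finset.sum_congr rfl fun y _ => ?_
    rw [c.symm w x, c.symm w' x, c.symm w y, c.symm w' y]
    by_cases h4 : c.col x w = c.col x w' <;> by_cases h5 : c.col y w = c.col y w' <;>
      simp [h4, h5]
  simp only [h1, h3]
  rw [Finset.sum_congr rfl (fun x _ => Finset.sum_comm), Finset.sum_comm]
  refine Finset.sum_congr rfl fun w _ => ?_
  rw [Finset.sum_congr rfl (fun x _ => Finset.sum_comm), Finset.sum_comm]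

theorem sum_m2 (c : EdgeColouring n N) (x y : Fin n) (p : Fin N) :
    ∑ q, c.m2 x y p q = c.m1 x p := by
  unfold m2 m1
  rw [Finset.card_eq_sum_card_fiberwise (f := fun w => c.col y w)
    (s := univ.filter fun w => c.col x w = p) (t := univ) (fun _ _ => by simp)]
  refine Finset.sum_congr rfl fun q _ => ?_
  rw [Finset.filter_filter]

/-- for a good pair all rows but two contain a small entry -/
theorem small_rows {c : EdgeColouring n N} (hN : 5 ≤ N) {x y : Fin n} {l : Fin N}
    (h : c.GoodF {l} x y) : ∃ z : Fin N, ∀ a, a ≠ l → a ≠ z → ∃ b, c.m2 x y a b ≤ 2 := by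
  classical
  -- an entry off the diagonal and off `l` which no support realises is at most two
  have key : ∀ a b : Fin N, a ≠ l → b ≠ l → a ≠ b →
      (∀ w, w ≠ x → w ≠ y → c.col x w = a → c.col y w = b → False) → c.m2 x y a b ≤ 2 := by
    intro a b _ _ _ hw
    unfold m2
    refine (Finset.card_le_card (?_ : _ ⊆ ({x, y} : Finset (Fin n)))).trans Finset.card_le_two
    intro w hw'
    simp only [mem_filter, mem_univ, true_and] at hw'
    simp only [mem_insert, mem_singleton]
    by_contra hcon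
    push Not at hcon
    exact hw w hcon.1 hcon.2 hw'.1 hw'.2
  have pick : ∀ S : Finset (Fin N), S.card ≤ 4 → ∃ b, b ∉ S := by
    intro S hS
    by_contra hcon
    push Not at hcon
    have h1 : (univ : Finset (Fin N)) ⊆ S := fun b _ => hcon b
    have h2 := Finset.card_le_card h1
    rw [Finset.card_univ, Fintype.card_fin] at h2
    omega
  rcases inter_cases _ (fun w => c.col x w) (fun w => c.col y w) l
      (fun w hw => hw.2.2.1) h with ⟨z, hz⟩ | ⟨p, q, r, hpqr⟩
  · refine ⟨z, fun a ha haz => ?_⟩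
    obtain ⟨b, hb⟩ := pick {l, z, a} (Finset.card_le_three.trans (by norm_num))
    simp only [mem_insert, mem_singleton, not_or] at hb
    refine ⟨b, key a b ha hb.1 (Ne.symm hb.2.2) ?_⟩
    intro w h1 h2 h3 h4
    have := hz w ⟨h1, h2, by rw [h3, h4]; exact Ne.symm hb.2.2, by rw [h3]; simpa using ha,
      by rw [h4]; simpa using hb.1⟩
    simp only [h3, h4] at this
    rcases this with h5 | h5
    · exact haz h5
    · exact hb.2.1 h5
  · refine ⟨l, fun a ha _ => ?_⟩
    by_cases hap : a = p ∨ a = q ∨ a = r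
    · obtain ⟨b, hb⟩ := pick {l, p, q, r} Finset.card_le_four
      simp only [mem_insert, mem_singleton, not_or] at hb
      have hab : a ≠ b := by
        rintro rfl
        rcases hap with h | h | h
        · exact hb.2.1 h
        · exact hb.2.2.1 h
        · exact hb.2.2.2 h
      refine ⟨b, key a b ha hb.1 hab ?_⟩
      intro w h1 h2 h3 h4
      have := (hpqr w ⟨h1, h2, by rw [h3, h4]; exact hab, by rw [h3]; simpa using ha,
        by rw [h4]; simpa using hb.1⟩).2
      simp only [h4] at this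
      rcases this with h | h | h
      · exact hb.2.1 h
      · exact hb.2.2.1 h
      · exact hb.2.2.2 h
    · obtain ⟨b, hb⟩ := pick {l, a} (Finset.card_le_two.trans (by norm_num))
      simp only [mem_insert, mem_singleton, not_or] at hb
      refine ⟨b, key a b ha hb.1 (Ne.symm hb.2) ?_⟩
      intro w h1 h2 h3 h4
      have := (hpqr w ⟨h1, h2, by rw [h3, h4]; exact Ne.symm hb.2, by rw [h3]; simpa using ha,
        by rw [h4]; simpa using hb.1⟩).1
      simp only [h3] at this
      exact hap this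

theorem four_le : ∀ l z : Fin 6, 4 ≤ (univ.filter fun p : Fin 6 => p ≠ l ∧ p ≠ z).card := by
  decide

/-- a good pair has a large second moment (six colours) -/
theorem good_sq {c : EdgeColouring n 6} {x y : Fin n} {l : Fin 6} (h : c.GoodF {l} x y) {L : ℝ}
    (hL : 2 ≤ L) (hm : ∀ p, L ≤ (c.m1 x p : ℝ)) :
    17 / 15 * (L - 2) ^ 2 ≤ ∑ p, ∑ q, ((c.m2 x y p q : ℕ) : ℝ) ^ 2 := by
  classical
  obtain ⟨z, hz⟩ := small_rows (by norm_num) h
  have hrow : ∀ p, ∑ q, (c.m2 x y p q : ℝ) = c.m1 x p := by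
    intro p
    exact_mod_cast c.sum_m2 x y p
  have h1 : ∀ p, (L - 2) ^ 2 / 6 ≤ ∑ q, ((c.m2 x y p q : ℕ) : ℝ) ^ 2 := by
    intro p
    have h2 := sq_sum_le_card_mul_sum_sq (s := univ) (f := fun q => (c.m2 x y p q : ℝ))
    rw [hrow p, Finset.card_univ, Fintype.card_fin] at h2
    have h3 := hm p
    push_cast at h2
    nlinarith
  have h2 : ∀ p, p ≠ l → p ≠ z → (L - 2) ^ 2 / 5 ≤ ∑ q, ((c.m2 x y p q : ℕ) : ℝ) ^ 2 := by
    intro p hp hpz
    obtain ⟨b, hb⟩ := hz p hp hpz
    have hb' : (c.m2 x y p b : ℝ) ≤ 2 := by exact_mod_cast hb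
    have h3 := sq_sum_le_card_mul_sum_sq (s := univ.erase b) (f := fun q => (c.m2 x y p q : ℝ))
    have h4 := hrow p
    rw [← Finset.add_sum_erase univ _ (mem_univ b)] at h4
    rw [Finset.card_erase_of_mem (mem_univ b), Finset.card_univ, Fintype.card_fin] at h3
    rw [← Finset.add_sum_erase univ _ (mem_univ b)]
    have h5 := hm p
    have h6 : L - 2 ≤ ∑ q ∈ univ.erase b, (c.m2 x y p q : ℝ) := by linarith
    have h7 : (L - 2) ^ 2 ≤ (∑ q ∈ univ.erase b, (c.m2 x y p q : ℝ)) ^ 2 := by
      apply pow_le_pow_left₀ (by linarith) h6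
    have h8 : (0 : ℝ) ≤ (c.m2 x y p b : ℝ) ^ 2 := by positivity
    have h9 : ((6 - 1 : ℕ) : ℝ) = 5 := by norm_num
    rw [h9] at h3
    linarith
  -- the sum over the rows
  have h3 : ∑ p : Fin 6, ((L - 2) ^ 2 / 6 + if p ≠ l ∧ p ≠ z then (L - 2) ^ 2 / 30 else 0) ≤
      ∑ p, ∑ q, ((c.m2 x y p q : ℕ) : ℝ) ^ 2 := by
    refine Finset.sum_le_sum fun p _ => ?_
    split_ifs with hp
    · have := h2 p hp.1 hp.2
      linarith
    · have := h1 p
      linarith
  refine le_trans ?_ h3
  rw [Finset.sum_add_distrib, ← Finset.sum_filter, Finset.sum_const, Finset.sum_const,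
    Finset.card_univ, Fintype.card_fin, nsmul_eq_mul, nsmul_eq_mul]
  have h4 : 4 ≤ (univ.filter fun p : Fin 6 => p ≠ l ∧ p ≠ z).card := four_le l z
  have h5 : (4 : ℝ) ≤ ((univ.filter fun p : Fin 6 => p ≠ l ∧ p ≠ z).card : ℝ) := by
    exact_mod_cast h4
  have h6 : 0 ≤ (L - 2) ^ 2 := sq_nonneg _
  push_cast
  nlinarith

end EdgeColouring

end Pool.Agent.H907.ET
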