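import Pool.Agent.H907.ETPos4

set_option autoImplicit false

/-!
# Rainbow copies of small graphs in balanced colourings: at least six colours
-/

namespace Pool.Agent.H907.ET

open Finset

namespace EdgeColouring

variable {n N : ℕ}

theorem num6 {n K : ℝ} (hn : 10000 * (K + 10) < n) (hK : 0 ≤ K)
    (h : (n - K) * (17 / 15 * (3599 / 21600 * n - 2) ^ 2) ≤
      (n + (595 / 3600 * n - 2)) * (n * (601 / 3600 * n)) - n ^ 2 * (595 / 3600 * n - 2) +
        K * n ^ 2) : False := by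
  have hn0 : 0 < n := by nlinarith
  have hn1 : 100000 < n := by nlinarith
  have hK2 : K ≤ n / 10000 - 10 := by linarith
  have e1 : (3599 / 21600 * n - 2) ^ 2 ≥ n * ((3599 / 21600) ^ 2 * n - 4 * (3599 / 21600)) := by
    nlinarith
  have e2 : n - K ≥ 9999 / 10000 * n := by linarith
  have e3 : 0 ≤ (3599 / 21600) ^ 2 * n - 4 * (3599 / 21600) := by
    norm_num
    linarith
  have e4 : (9999 / 10000 * n) * (17 / 15 * (n * ((3599 / 21600) ^ 2 * n - 4 * (3599 / 21600)))) ≤
      (n - K) * (17 / 15 * (3599 / 21600 * n - 2) ^ 2) := by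
    apply mul_le_mul e2 _ _ (by linarith)
    · linarith
    · positivity
  have e5 : K * n ^ 2 ≤ (n / 10000 - 10) * n ^ 2 := by
    apply mul_le_mul_of_nonneg_right hK2 (by positivity)
  have e6 : n ^ 2 * (9999 / 10000 * (17 / 15 * ((3599 / 21600) ^ 2 * n - 4 * (3599 / 21600)))) ≤
      n ^ 2 * ((n + (595 / 3600 * n - 2)) * (601 / 3600) - (595 / 3600 * n - 2) +
        (n / 10000 - 10)) := by
    calc _ = (9999 / 10000 * n) *
          (17 / 15 * (n * ((3599 / 21600) ^ 2 * n - 4 * (3599 / 21600)))) := by ring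
      _ ≤ _ := e4.trans h
      _ ≤ (n + (595 / 3600 * n - 2)) * (n * (601 / 3600 * n)) -
          n ^ 2 * (595 / 3600 * n - 2) + (n / 10000 - 10) * n ^ 2 := by linarith
      _ = _ := by ring
  have e7 := le_of_mul_le_mul_left e6 (by positivity)
  norm_num at e7
  linarith

theorem lemB6 {c : EdgeColouring n 6} {ε : ℝ} (hε : 0 ≤ ε) (hb : c.Balanced ε)
    (hε2 : 3600 * ε ≤ 1) {K : ℕ} (hn : 10000 * (K + 10) < n)
    (h : ∀ x, ∃ bad : Finset (Fin n), bad.card ≤ K ∧ ∀ y, y ∉ bad → ∃ l, c.GoodF {l} x y) :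
    False := by
  classical
  choose bad hbadK hgood using h
  have hn' : 10000 * ((K : ℝ) + 10) < n := by exact_mod_cast hn
  have hK0 : (0 : ℝ) ≤ K := Nat.cast_nonneg _
  have hn0 : (0 : ℝ) < n := by nlinarith
  have hB : ∀ x p, (c.m1 x p : ℝ) ≤ 601 / 3600 * n := by
    intro x p
    have := m1_le hε hb x p
    push_cast at this
    nlinarith
  have hL : ∀ x p, 3599 / 21600 * (n : ℝ) ≤ (c.m1 x p : ℝ) := by
    intro x p
    have := le_m1 hb x p
    push_cast at this
    nlinarith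
  have hcardb : ∀ x, ((bad x).card : ℝ) ≤ K := fun x => by exact_mod_cast hbadK x
  have hcardc : ∀ x, (n : ℝ) - K ≤ ((univ \ bad x).card : ℝ) := by
    intro x
    have h1 : (univ \ bad x).card + (bad x).card = n := by
      rw [Finset.card_sdiff_add_card_eq_card (subset_univ _), Finset.card_univ, Fintype.card_fin]
    have h2 : ((univ \ bad x).card : ℝ) + (bad x).card = n := by exact_mod_cast h1
    have := hcardb x
    linarith
  set A : ℝ := 17 / 15 * (3599 / 21600 * n - 2) ^ 2 with hA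
  have hA0 : 0 ≤ A := by positivity
  set t : ℝ := 595 / 3600 * n - 2 with ht
  have ht0 : 0 ≤ t := by
    rw [ht]
    linarith
  have htn : t ≤ n := by
    rw [ht]
    linarith
  -- the lower bound
  have low : (n : ℝ) * ((n - K) * A) ≤
      ∑ x, ∑ y, ∑ p, ∑ q, ((c.m2 x y p q : ℕ) : ℝ) ^ 2 := by
    have h1 : ∀ x, ((n : ℝ) - K) * A ≤ ∑ y, ∑ p, ∑ q, ((c.m2 x y p q : ℕ) : ℝ) ^ 2 := by
      intro x
      have h2 := Finset.card_nsmul_le_sum (univ \ bad x)
        (fun y => ∑ p, ∑ q, ((c.m2 x y p q : ℕ) : ℝ) ^ 2) A (fun y hy => by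
          rw [mem_sdiff] at hy
          obtain ⟨l, hl⟩ := hgood x y hy.2
          exact good_sq hl (by linarith) (fun p => hL x p))
      rw [nsmul_eq_mul] at h2
      have h3 : ∑ y ∈ univ \ bad x, ∑ p, ∑ q, ((c.m2 x y p q : ℕ) : ℝ) ^ 2 ≤
          ∑ y, ∑ p, ∑ q, ((c.m2 x y p q : ℕ) : ℝ) ^ 2 :=
        Finset.sum_le_sum_of_subset_of_nonneg sdiff_subset (fun y _ _ => by positivity)
      have h4 : ((n : ℝ) - K) * A ≤ ((univ \ bad x).card : ℝ) * A :=
        mul_le_mul_of_nonneg_right (hcardc x) hA0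
      linarith
    have h2 := Finset.card_nsmul_le_sum univ
      (fun x => ∑ y, ∑ p, ∑ q, ((c.m2 x y p q : ℕ) : ℝ) ^ 2) (((n : ℝ) - K) * A) (fun x _ => h1 x)
    rw [Finset.card_univ, Fintype.card_fin, nsmul_eq_mul] at h2
    exact h2
  -- the upper bound
  have up : ∑ w, ∑ w', ((c.D w w' : ℕ) : ℝ) ^ 2 ≤
      n * ((n + t) * (n * (601 / 3600 * n)) - n ^ 2 * t + K * n ^ 2) := by
    have h1 : ∀ w, ∑ w', ((c.D w w' : ℕ) : ℝ) ^ 2 ≤
        (n + t) * (n * (601 / 3600 * n)) - n ^ 2 * t + K * n ^ 2 := by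
      intro w
      have h2 : ∀ w', ((c.D w w' : ℕ) : ℝ) ^ 2 ≤
          ((n + t) * c.D w w' - n * t) + if w' ∈ bad w then (n : ℝ) ^ 2 else 0 := by
        intro w'
        have hD0 : (0 : ℝ) ≤ c.D w w' := Nat.cast_nonneg _
        have hDn := c.D_le w w'
        split_ifs with hw
        · nlinarith [mul_nonneg hD0 ht0, mul_nonneg (sub_nonneg.2 hDn) ht0,
            mul_nonneg hD0 (sub_nonneg.2 hDn)]
        · obtain ⟨l, hl⟩ := hgood w w' hw
          have h3 := D_lower hl (B := 601 / 3600 * n) (by positivity) hB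
          rw [Finset.card_singleton] at h3
          push_cast at h3
          have h4 : t ≤ c.D w w' := by
            rw [ht]
            linarith
          nlinarith [mul_nonneg (sub_nonneg.2 hDn) (sub_nonneg.2 h4)]
      have h3 := Finset.sum_le_sum (fun w' (_ : w' ∈ (univ : Finset (Fin n))) => h2 w')
      refine h3.trans ?_
      rw [Finset.sum_add_distrib, Finset.sum_sub_distrib, ← Finset.mul_sum, Finset.sum_const,
        Finset.card_univ, Fintype.card_fin, nsmul_eq_mul, ← Finset.sum_filter, Finset.sum_const,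
        nsmul_eq_mul]
      have h4 : (∑ w', (c.D w w' : ℝ)) ≤ n * (601 / 3600 * n) := by
        refine (sum_D hε hb w).trans ?_
        apply mul_le_mul_of_nonneg_left _ hn0.le
        push_cast
        nlinarith
      have h5 : (univ.filter fun w' => w' ∈ bad w) = bad w := by
        ext w'
        simp
      rw [h5]
      have h6 : ((bad w).card : ℝ) * (n : ℝ) ^ 2 ≤ K * n ^ 2 :=
        mul_le_mul_of_nonneg_right (hcardb w) (by positivity)
      have h7 : (n + t) * (∑ w', (c.D w w' : ℝ)) ≤ (n + t) * (n * (601 / 3600 * n)) :=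
        mul_le_mul_of_nonneg_left h4 (by linarith)
      nlinarith
    have h2 := Finset.sum_le_card_nsmul univ (fun w => ∑ w', ((c.D w w' : ℕ) : ℝ) ^ 2) _
      (fun w _ => h1 w)
    rw [Finset.card_univ, Fintype.card_fin, nsmul_eq_mul] at h2
    exact h2
  have heq : ∑ x, ∑ y, ∑ p, ∑ q, ((c.m2 x y p q : ℕ) : ℝ) ^ 2 =
      ∑ w, ∑ w', ((c.D w w' : ℕ) : ℝ) ^ 2 := by exact_mod_cast c.sum_m2_sq
  have hfin := low.trans (heq.le.trans up)
  have hfin2 := le_of_mul_le_mul_left hfin hn0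
  exact num6 hn' hK0 hfin2

/-- the main counting lemma -/
theorem lemB {c : EdgeColouring n N} {ε : ℝ} (hε : 0 ≤ ε) (hb : c.Balanced ε) (hN : 6 ≤ N)
    (hε2 : 100 * (N : ℝ) ^ 2 * ε ≤ 1) {K : ℕ} (hn : 10000 * N * (K + 10) < n)
    (h : ∀ x, ∃ bad : Finset (Fin n), bad.card ≤ K ∧ ∀ y, y ∉ bad → ∃ l, c.GoodF {l} x y) :
    False := by
  rcases Nat.lt_or_ge N 7 with h7 | h7
  · obtain rfl : N = 6 := by omega
    refine lemB6 hε hb ?_ (K := K) (by nlinarith) h
    push_cast at hε2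
    linarith
  · have hn0 : 0 < n := by omega
    obtain ⟨bad, hbad, hgood⟩ := h ⟨0, hn0⟩
    have hN0 : (0 : ℝ) ≤ (N : ℝ) ^ 2 * ε := by positivity
    refine lemA hε hb (s := 5) (K := K) (by omega) (by linarith) ⟨0, hn0⟩ bad hbad
      (by nlinarith) ?_
    intro y hy
    obtain ⟨l, hl⟩ := hgood y hy
    have hB : ∀ x p, (c.m1 x p : ℝ) ≤ n / N + ε * n := fun x p => m1_le hε hb x p
    have hB0 : (0 : ℝ) ≤ n / N + ε * n := by positivity
    have := D_lower hl hB0 hB
    rw [Finset.card_singleton] at this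
    push_cast at this ⊢
    linarith

end EdgeColouring

end Pool.Agent.H907.ET
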