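import Pool.Agent.H907.ETPos5

set_option autoImplicit false

/-!
# Rainbow triangles, four-cycles, five-cycles and diamonds
-/

namespace Pool.Agent.H907.ET

open Finset

/-- the triangle -/
def P3 : SimpleGraph (Fin 3) where
  Adj a b := a ≠ b
  symm := ⟨fun _ _ h => Ne.symm h⟩
  loopless := ⟨fun _ h => h rfl⟩

/-- the cycle of length four -/
def P4 : SimpleGraph (Fin 4) where
  Adj a b := b = a + 1 ∨ a = b + 1
  symm := ⟨fun _ _ h => Or.symm h⟩
  loopless := ⟨by decide⟩

/-- the complete graph on four vertices without one edge -/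
def Pd : SimpleGraph (Fin 4) where
  Adj a b := a ≠ b ∧ ¬ (a = 2 ∧ b = 3) ∧ ¬ (a = 3 ∧ b = 2)
  symm := ⟨fun _ _ h => ⟨Ne.symm h.1, fun e => h.2.2 ⟨e.2, e.1⟩, fun e => h.2.1 ⟨e.2, e.1⟩⟩⟩
  loopless := ⟨fun _ h => h.1 rfl⟩

/-- the cycle of length five -/
def P5 : SimpleGraph (Fin 5) where
  Adj a b := b = a + 1 ∨ a = b + 1
  symm := ⟨fun _ _ h => Or.symm h⟩
  loopless := ⟨by decide⟩

instance : DecidableRel P3.Adj := fun a b => inferInstanceAs (Decidable (a ≠ b))
instance : DecidableRel P4.Adj := fun a b => inferInstanceAs (Decidable (b = a + 1 ∨ a = b + 1))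
instance : DecidableRel Pd.Adj := fun a b =>
  inferInstanceAs (Decidable (a ≠ b ∧ ¬ (a = 2 ∧ b = 3) ∧ ¬ (a = 3 ∧ b = 2)))
instance : DecidableRel P5.Adj := fun a b => inferInstanceAs (Decidable (b = a + 1 ∨ a = b + 1))

namespace EdgeColouring

variable {n N : ℕ}

/-- a copy whose edges are indexed by an injective family of colours is rainbow -/
theorem hasRainbow_of_index (c : EdgeColouring n N) {k m : ℕ} {H : SimpleGraph (Fin k)}
    (f : Fin k → Fin n) (hf : Function.Injective f) (κ : Fin m → Fin N)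
    (hκ : Function.Injective κ) (idx : Fin k → Fin k → Fin m)
    (h1 : ∀ a b, H.Adj a b → c.col (f a) (f b) = κ (idx a b))
    (h2 : ∀ a b a' b', H.Adj a b → H.Adj a' b' → idx a b = idx a' b' → s(a, b) = s(a', b')) :
    c.HasRainbow H := by
  refine ⟨⟨f, hf⟩, ?_⟩
  intro a b a' b' hab hab' h
  apply h2 a b a' b' hab hab'
  apply hκ
  rw [← h1 a b hab, ← h1 a' b' hab']
  exact h

theorem rainbow_P3 {c : EdgeColouring n N} {ε : ℝ} (hε : 0 ≤ ε) (hb : c.Balanced ε)
    (hN : 4 ≤ N) (hε2 : 2 * (N : ℝ) ^ 2 * ε ≤ 1) (hn : 4 * N < n) : c.HasRainbow P3 := by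
  obtain ⟨x, y, w, h1, h2, h3, h4, h5, h6⟩ := exists_triangle hε hb hN hε2 hn
  refine c.hasRainbow_of_index ![x, y, w] ?_ ![c.col x y, c.col x w, c.col y w] ?_
    ![![0, 0, 1], ![0, 0, 2], ![1, 2, 0]] ?_ (by decide)
  · intro a b hab
    fin_cases a <;> fin_cases b <;> simp_all
  · intro a b hab
    fin_cases a <;> fin_cases b <;> simp_all
  · intro a b hab
    fin_cases a <;> fin_cases b <;> simp_all [P3, c.symm]

theorem rainbow_P4 {c : EdgeColouring n N} {ε : ℝ} (hε : 0 ≤ ε) (hb : c.Balanced ε)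
    (hN : 5 ≤ N) (hε2 : 2 * (N : ℝ) ^ 2 * ε ≤ 1) (hn : 4 * N < n) : c.HasRainbow P4 := by
  obtain ⟨x, y, w, w', h1, h2, h3, h4, h5, h6, g1, g2, g3, g4, g5, g6⟩ :=
    exists_four_cycle hε hb hN hε2 hn
  have e1 := c.symm w y
  have e2 := c.symm w' x
  refine c.hasRainbow_of_index ![x, w, y, w'] ?_
    ![c.col x w, c.col y w, c.col y w', c.col x w'] ?_
    ![![0, 0, 0, 3], ![0, 0, 1, 0], ![0, 1, 0, 2], ![3, 0, 2, 0]] ?_ (by decide)
  · intro a b hab
    fin_cases a <;> fin_cases b <;> simp_all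
  · intro a b hab
    fin_cases a <;> fin_cases b <;> simp_all
  · intro a b hab
    fin_cases a <;> fin_cases b <;> simp_all [P4, c.symm]

/-- rainbow diamonds -/
theorem rainbow_Pd {c : EdgeColouring n N} {ε : ℝ} (hε : 0 ≤ ε) (hb : c.Balanced ε)
    (hN : 6 ≤ N) (hε2 : 100 * (N : ℝ) ^ 2 * ε ≤ 1) (hn : 100000 * N < n) : c.HasRainbow Pd := by
  by_contra hcon
  refine lemB hε hb hN hε2 (K := 0) (by nlinarith) ?_
  intro x
  refine ⟨∅, by simp, fun y _ => ⟨c.col x y, ?_⟩⟩
  intro w hw w' hw'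
  by_contra hint
  push Not at hint
  obtain ⟨h1, h2, h3, h4, h5⟩ := hw
  obtain ⟨h1', h2', h3', h4', h5'⟩ := hw'
  rw [Finset.mem_singleton] at h4 h5 h4' h5'
  obtain ⟨g1, g2, g3, g4⟩ := hint
  have hxy : x ≠ y := by
    rintro rfl
    exact h3 rfl
  have hww : w ≠ w' := by
    rintro rfl
    exact g1 rfl
  apply hcon
  have e1 := c.symm y x
  have e2 := c.symm w x
  have e3 := c.symm w y
  have e4 := c.symm w' x
  have e5 := c.symm w' y
  refine c.hasRainbow_of_index ![x, y, w, w'] ?_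
    ![c.col x y, c.col x w, c.col y w, c.col x w', c.col y w'] ?_
    ![![0, 0, 1, 3], ![0, 0, 2, 4], ![1, 2, 0, 0], ![3, 4, 0, 0]] ?_ (by decide)
  · intro a b hab
    fin_cases a <;> fin_cases b <;> simp_all
  · intro a b hab
    fin_cases a <;> fin_cases b <;> simp_all
  · intro a b hab
    fin_cases a <;> fin_cases b <;> simp_all [Pd]

/-- the pairs of colours in which the vertices see `u` and `v` -/
def typ (c : EdgeColouring n N) (u v : Fin n) : Finset (Fin N × Fin N) :=
  univ.filter fun pq => ∃ w, w ≠ u ∧ w ≠ v ∧ c.col u w = pq.1 ∧ c.col v w = pq.2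

/-- rainbow cycles of length five -/
theorem rainbow_P5 {c : EdgeColouring n N} {ε : ℝ} (hε : 0 ≤ ε) (hb : c.Balanced ε)
    (hN : 6 ≤ N) (hε2 : 100 * (N : ℝ) ^ 2 * ε ≤ 1) (hn : 10000 * N * (2 ^ (N * N) + 10) < n) :
    c.HasRainbow P5 := by
  classical
  by_contra hcon
  refine lemB hε hb hN hε2 (K := 2 ^ (N * N)) hn ?_
  intro u
  refine ⟨univ.filter fun v => v ≠ u ∧ ∀ v', v' ≠ u → c.typ u v' = c.typ u v → v' = v, ?_, ?_⟩
  · calc _ ≤ (univ : Finset (Finset (Fin N × Fin N))).card := by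
          refine Finset.card_le_card_of_injOn (c.typ u) (fun _ _ => by simp) ?_
          intro v hv v' hv' h
          simp only [Finset.coe_filter, mem_univ, true_and, Set.mem_setOf_eq] at hv hv'
          exact hv'.2 v hv.1 h
      _ = 2 ^ (N * N) := by simp
  · intro v hv
    simp only [mem_filter, mem_univ, true_and, not_and, not_forall] at hv
    by_cases hvu : v = u
    · refine ⟨⟨0, by omega⟩, ?_⟩
      intro w hw
      rw [hvu] at hw
      exact absurd rfl hw.2.2.1
    obtain ⟨v', hv'u, htyp, hv'v⟩ := hv hvu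
    refine ⟨c.col v v', ?_⟩
    intro w hw w' hw'
    by_contra hint
    push Not at hint
    obtain ⟨h1, h2, h3, h4, h5⟩ := hw
    obtain ⟨h1', h2', h3', h4', h5'⟩ := hw'
    rw [Finset.mem_singleton] at h4 h5 h4' h5'
    obtain ⟨g1, g2, g3, g4⟩ := hint
    -- move `w'`
    have hmem : (c.col u w', c.col v w') ∈ c.typ u v' := by
      rw [htyp]
      simp only [typ, mem_filter, mem_univ, true_and]
      exact ⟨w', h1', h2', rfl, rfl⟩
    simp only [typ, mem_filter, mem_univ, true_and] at hmem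
    obtain ⟨z, hz1, hz2, hz3, hz4⟩ := hmem
    apply hcon
    have hwv' : w ≠ v' := by
      rintro rfl
      exact h5 rfl
    have hzv : z ≠ v := by
      rintro rfl
      rw [c.symm v' z] at hz4
      exact h5' hz4.symm
    have hzw : z ≠ w := by
      rintro rfl
      exact g1 hz3
    have hvv' : v ≠ v' := Ne.symm hv'v
    have huv : u ≠ v := Ne.symm hvu
    have huv' : u ≠ v' := Ne.symm hv'u
    have e1 := c.symm w u
    have e2 := c.symm w v
    have e3 := c.symm v' v
    have e4 := c.symm z v'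
    have e5 := c.symm z u
    refine c.hasRainbow_of_index ![u, w, v, v', z] ?_
      ![c.col u w, c.col v w, c.col v v', c.col v w', c.col u w'] ?_
      ![![0, 0, 0, 0, 4], ![0, 0, 1, 0, 0], ![0, 1, 0, 2, 0], ![0, 0, 2, 0, 3],
        ![4, 0, 0, 3, 0]] ?_ (by decide)
    · intro a b hab
      fin_cases a <;> fin_cases b <;> simp_all
    · intro a b hab
      fin_cases a <;> fin_cases b <;> simp_all
    · intro a b hab
      fin_cases a <;> fin_cases b <;> simp_all [P5]

end EdgeColouring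

end Pool.Agent.H907.ET
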