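import Pool.Agent.H907.ETPos6

set_option autoImplicit false

/-!
# Small cores
-/

namespace Pool.Agent.H907.ET

open Finset

/-- the number of neighbours of `i` -/
def bdeg {k : ℕ} (A : Fin k → Fin k → Bool) (i : Fin k) : ℕ := ∑ j, (A i j).toNat

def A4 (e01 e02 e03 e12 e13 e23 : Bool) : Fin 4 → Fin 4 → Bool :=
  ![![false, e01, e02, e03], ![e01, false, e12, e13], ![e02, e12, false, e23],
    ![e03, e13, e23, false]]

def A5 (e01 e02 e03 e04 e12 e13 e14 e23 e24 e34 : Bool) : Fin 5 → Fin 5 → Bool :=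
  ![![false, e01, e02, e03, e04], ![e01, false, e12, e13, e14], ![e02, e12, false, e23, e24],
    ![e03, e13, e23, false, e34], ![e04, e14, e24, e34, false]]

theorem cls4 : ∀ e01 e02 e03 e12 e13 e23 : Bool,
    (∀ i, 2 ≤ bdeg (A4 e01 e02 e03 e12 e13 e23) i) →
    (∑ i, bdeg (A4 e01 e02 e03 e12 e13 e23) i) = 8 →
    ∃ σ : Fin 4 → Fin 4, Function.Injective σ ∧
      ∀ a b, A4 e01 e02 e03 e12 e13 e23 a b = true → P4.Adj (σ a) (σ b) := by
  decide +kernel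

theorem cls4' : ∀ e01 e02 e03 e12 e13 e23 : Bool,
    (∑ i, bdeg (A4 e01 e02 e03 e12 e13 e23) i) ≤ 10 →
    ∃ σ : Fin 4 → Fin 4, Function.Injective σ ∧
      ∀ a b, A4 e01 e02 e03 e12 e13 e23 a b = true → Pd.Adj (σ a) (σ b) := by
  decide +kernel

theorem cls5_aux : ∀ e01 e02 e03 e04 e12 e13 e14 e23 e24 e34 : Bool,
    (∀ i, 2 ≤ bdeg (A5 e01 e02 e03 e04 e12 e13 e14 e23 e24 e34) i) →
    (∑ i, bdeg (A5 e01 e02 e03 e04 e12 e13 e14 e23 e24 e34) i) ≤ 10 →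
    ∃ s₁ s₂ s₃ s₄ : Fin 5, Function.Injective ![0, s₁, s₂, s₃, s₄] ∧
      ∀ a b, A5 e01 e02 e03 e04 e12 e13 e14 e23 e24 e34 a b = true →
        P5.Adj ((![0, s₁, s₂, s₃, s₄] : Fin 5 → Fin 5) a)
          ((![0, s₁, s₂, s₃, s₄] : Fin 5 → Fin 5) b) := by
  decide +kernel

end Pool.Agent.H907.ET
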